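import Pool.Agent.Lib.Dwork.Borel

/-!
Integrality and growth of zeta functions, and the order of a rational series at a point.
-/

namespace Pool.Agent.Lib.Dwork

open Finset PowerSeries

theorem LD.inv {R : Type*} [CommRing R] {w D D' : R⟦X⟧} (h : LD w D) (e : D * D' = 1) :
    LD (-w) D' := by
  refine ⟨by simpa [h.1] using congrArg constantCoeff e, ?_⟩
  have := congrArg (d⁄dX R) e
  rw [Derivation.leibniz, smul_eq_mul, smul_eq_mul, Derivation.map_one_eq_zero] at this
  linear_combination (X * D') * this - D' ^ 2 * h.2 - (X * d⁄dX R D' + w * D') * e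

theorem trace_iterate {α : Type*} [Fintype α] [DecidableEq α] (s : α → α) (n : ℕ) :
    Matrix.trace ((Matrix.of fun i j => if s i = j then (1 : ℤ) else 0) ^ n) =
      Nat.card {x // s^[n] x = x} := by
  have : ∀ i j, ((Matrix.of fun i j => if s i = j then (1 : ℤ) else 0) ^ n) i j =
      if s^[n] i = j then 1 else 0 := by
    induction n with
    | zero => simp [Matrix.one_apply]
    | succ n ih =>
      intro i j
      simp only [pow_succ', Matrix.mul_apply, ih, Matrix.of_apply, ite_mul, one_mul, zero_mul,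
        sum_ite_eq, mem_univ, if_true]
      rfl
  simp [Matrix.trace, this, Fintype.card_subtype]

theorem int_of_iterate {N : ℕ → ℕ} (h0 : N 0 = 0) {Z : ℚ⟦X⟧} (hZ : LD (mk fun n => (N n : ℚ)) Z)
    (k : ℕ) {α : Type*} [Finite α] (s : α → α)
    (hs : ∀ n < k, N (n + 1) = Nat.card {x // s^[n + 1] x = x}) : ∃ z : ℤ, coeff k Z = z := by
  classical
  have := Fintype.ofFinite α
  have h := ld_det (Matrix.of fun i j => if s i = j then (1 : ℤ) else 0)
  have h1 := (h.inv (mul_invOfUnit _ 1 h.1)).map (Int.castRingHom ℚ)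
  refine ⟨_, (hZ.coeff_eq h1 k (fun n hn => ?_) k le_rfl).trans (coeff_map _ _ _)⟩
  cases n with
  | zero => simp [h0]
  | succ n => simp [trace_iterate, hs n hn, -Nat.card_eq_fintype_card]

open FiniteField in
theorem zeta_int (F : Type*) [Field F] [Finite F] (p : ℕ) [Fact p.Prime] [CharP F p] {ι : Type*}
    [Finite ι] (Φ : ∀ (E : Type) [Field E] [Algebra F E], (ι → E) → Prop)
    (hΦ : ∀ (E E' : Type) [Field E] [Algebra F E] [Field E'] [Algebra F E'] (f : E →ₐ[F] E')
      (v : ι → E), Φ E' (f ∘ v) ↔ Φ E v) {N : ℕ → ℕ} (h0 : N 0 = 0)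
    (hN : ∀ n, N (n + 1) = Nat.card {v : ι → Extension F p (n + 1) // Φ _ v}) {Z : ℚ⟦X⟧}
    (hZ : LD (mk fun n => (N n : ℚ)) Z) (k : ℕ) : ∃ z : ℤ, coeff k Z = z := by
  have : NeZero k.factorial := ⟨k.factorial_ne_zero⟩
  let B := Extension F p k.factorial
  let s : {v : ι → B // Φ B v} → {v : ι → B // Φ B v} := fun v =>
    ⟨(Extension.frob F p k.factorial).toAlgHom ∘ v.1, (hΦ _ _ _ _).2 v.2⟩
  have hs : ∀ n v i, (s^[n] v).1 i = v.1 i ^ Nat.card F ^ n := by
    intro n v i
    induction n with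
    | zero => simp
    | succ n ih =>
      rw [Function.iterate_succ_apply', pow_succ, pow_mul, ← ih]
      exact Extension.frob_apply F p _
  refine int_of_iterate h0 hZ k s fun n hn => ?_
  obtain ⟨f⟩ : Nonempty (Extension F p (n + 1) →ₐ[F] B) := nonempty_algHom_of_finrank_dvd (by
    rw [finrank_extension, finrank_extension]
    exact Nat.dvd_factorial n.succ_pos hn)
  have := Fintype.ofFinite (Extension F p (n + 1))
  have hc : Fintype.card (Extension F p (n + 1)) = Nat.card F ^ (n + 1) := by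
    rw [Fintype.card_eq_nat_card, natCard_extension]
  rw [hN]
  refine Nat.card_congr (Equiv.ofBijective (fun v => ⟨⟨f ∘ v.1, (hΦ _ _ _ _).2 v.2⟩, ?_⟩) ⟨?_, ?_⟩)
  · ext i
    rw [hs, ← hc]
    exact (map_pow f _ _).symm.trans (congrArg f (pow_card _))
  · intro v w e
    exact Subtype.ext (f.injective.comp_left (congrArg (·.1.1) e))
  · intro v
    have : ∀ i, ∃ a, f a = v.1.1 i := fun i => by
      refine Polynomial.Splits.mem_range_of_isRoot (i := f.toRingHom)
        (f := Polynomial.X ^ Fintype.card (Extension F p (n + 1)) - Polynomial.X) ?_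
        (X_pow_card_sub_X_ne_zero _ Fintype.one_lt_card) ?_
      · rw [Polynomial.splits_iff_card_roots, roots_X_pow_card_sub_X,
          X_pow_card_sub_X_natDegree_eq _ Fintype.one_lt_card]
        rfl
      · have := hs (n + 1) v.1 i
        rw [v.2] at this
        simp [hc, ← this]
    choose a ha using this
    have e : f ∘ a = v.1.1 := funext ha
    exact ⟨⟨a, (hΦ _ _ f _).1 (e ▸ v.1.2)⟩, Subtype.ext (Subtype.ext e)⟩

theorem LD.abs_coeff_le {w Z : ℚ⟦X⟧} (h : LD w Z) {c : ℚ} (hc : 0 ≤ c)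
    (hw : ∀ n, |coeff n w| ≤ c ^ n) (n : ℕ) : |coeff n Z| ≤ c ^ n := by
  induction n using Nat.strong_induction_on with
  | _ n ih =>
    cases n with
    | zero => simp [h.1]
    | succ n =>
      refine le_of_mul_le_mul_left ?_ (Nat.cast_pos.2 n.succ_pos : (0 : ℚ) < (n + 1 : ℕ))
      nth_rw 1 [← abs_of_nonneg (Nat.cast_nonneg (α := ℚ) (n + 1))]
      rw [← abs_mul, h.rec]
      refine (abs_sum_le_sum_abs _ _).trans ?_
      rw [← nsmul_eq_mul, ← card_range (n + 1), ← sum_const, card_range]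
      refine sum_le_sum fun i hi => ?_
      have := mem_range.1 hi
      rw [abs_mul, show n + 1 = (i + 1) + (n - i) by omega, pow_add c (i + 1)]
      exact mul_le_mul (hw _) (ih _ (by omega)) (abs_nonneg _) (by positivity)

theorem geom_mul {R : Type*} [CommRing R] (c : R) :
    (1 - C c * X : R⟦X⟧) * (PowerSeries.mk fun n => if n = 0 then 0 else c ^ n) = C c * X := by
  ext n
  rw [sub_mul, one_mul, mul_assoc, map_sub, coeff_C_mul, coeff_C_mul]
  match n with
  | 0 => simp
  | 1 => simp [coeff_succ_X_mul]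
  | n + 2 => simp [coeff_succ_X_mul, coeff_X, pow_succ']

theorem ld_geom {R : Type*} [CommRing R] (c : R) :
    LD (-mk fun n => if n = 0 then 0 else c ^ n) (1 - C c * X) := by
  refine ⟨by simp, ?_⟩
  rw [neg_mul, mul_comm (PowerSeries.mk _), geom_mul]
  simp [mul_comm]

theorem mul_derivative_pow_mul {R : Type*} [CommRing R] (t : R) (a : ℕ) (A : Polynomial R) :
    (Polynomial.X - Polynomial.C t) * ((Polynomial.X - Polynomial.C t) ^ a * A).derivative =
      (Polynomial.X - Polynomial.C t) ^ a *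
        ((a : Polynomial R) * A + (Polynomial.X - Polynomial.C t) * A.derivative) := by
  cases a with
  | zero => simp
  | succ a =>
    rw [Polynomial.derivative_mul, Polynomial.derivative_X_sub_C_pow]
    simp only [Nat.add_sub_cancel, map_natCast]
    ring

theorem coe_pow_ne_zero {K : Type*} [Field K] (t : K) (a : ℕ) :
    (((Polynomial.X - Polynomial.C t) ^ a : Polynomial K) : K⟦X⟧) ≠ 0 := by
  rw [Ne, Polynomial.coe_eq_zero_iff]
  exact pow_ne_zero _ (Polynomial.X_sub_C_ne_zero t)

/-- A rational series whose logarithmic derivative is regular at `t` has no zero or pole there. -/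
theorem LD.regular {K : Type*} [Field K] [CharZero K] {w Z : K⟦X⟧} (h : LD w Z) {t : K}
    (ht : t ≠ 0) {U V A B : Polynomial K} (hV : V.eval t ≠ 0) (hw : V * w = U) (hB : B ≠ 0)
    (hZ : B * Z = A) : ∃ A B : Polynomial K, A.eval t ≠ 0 ∧ B.eval t ≠ 0 ∧ Z * B = A := by
  have hA : A ≠ 0 := by
    rintro rfl
    rw [Polynomial.coe_zero, mul_eq_zero, Polynomial.coe_eq_zero_iff] at hZ
    refine hZ.elim hB fun e => ?_
    simpa [e] using h.1
  have e : Polynomial.X * V * (A.derivative * B - B.derivative * A) = U * A * B := by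
    apply Polynomial.coe_injective
    have := congrArg (d⁄dX K) hZ
    rw [Derivation.leibniz, smul_eq_mul, smul_eq_mul, derivative_coe, derivative_coe] at this
    simp only [Polynomial.coe_mul, Polynomial.coe_sub, Polynomial.coe_X]
    rw [← this, ← hw, ← hZ]
    linear_combination (V * B * B : K⟦X⟧) * h.2
  obtain ⟨A', hA1, hA2⟩ := Polynomial.exists_eq_pow_rootMultiplicity_mul_and_not_dvd A hA t
  obtain ⟨B', hB1, hB2⟩ := Polynomial.exists_eq_pow_rootMultiplicity_mul_and_not_dvd B hB t
  generalize A.rootMultiplicity t = a at hA1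
  generalize B.rootMultiplicity t = b at hB1
  rw [Polynomial.dvd_iff_isRoot, Polynomial.IsRoot] at hA2 hB2
  have h1 := mul_derivative_pow_mul t a A'
  have h2 := mul_derivative_pow_mul t b B'
  rw [← hA1] at h1
  rw [← hB1] at h2
  set D := Polynomial.X - Polynomial.C t with hD
  have e2 : Polynomial.X * V * (((a : Polynomial K) * A' + D * A'.derivative) * B' -
      ((b : Polynomial K) * B' + D * B'.derivative) * A') = D * (U * A' * B') := by
    refine mul_left_cancel₀ (pow_ne_zero (a + b) (Polynomial.X_sub_C_ne_zero t)) ?_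
    show D ^ (a + b) * _ = D ^ (a + b) * _
    have : D * (U * A * B) = D * (U * (D ^ a * A') * (D ^ b * B')) := by rw [← hA1, ← hB1]
    linear_combination this + D * e - Polynomial.X * V * B * h1 + Polynomial.X * V * A * h2 -
      Polynomial.X * V * D ^ a * ((a : Polynomial K) * A' + D * A'.derivative) * hB1 +
      Polynomial.X * V * D ^ b * ((b : Polynomial K) * B' + D * B'.derivative) * hA1
  have e3 := congrArg (Polynomial.eval t) e2
  simp only [hD, Polynomial.eval_mul, Polynomial.eval_sub, Polynomial.eval_add, Polynomial.eval_X,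
    Polynomial.eval_C, Polynomial.eval_natCast, sub_self, zero_mul, add_zero] at e3
  obtain rfl : a = b := by
    have : t * V.eval t * A'.eval t * B'.eval t * ((a : K) - b) = 0 := by linear_combination e3
    exact_mod_cast sub_eq_zero.1 ((mul_eq_zero.1 this).resolve_left (by simp [ht, hV, hA2, hB2]))
  refine ⟨A', B', hA2, hB2, mul_left_cancel₀ (coe_pow_ne_zero t a) ?_⟩
  rw [← Polynomial.coe_mul, ← hA1, ← hZ, hB1, Polynomial.coe_mul]
  ring

/-- Galois conjugation: if `∑ ζ ^ j R j` is regular at a rational point, so are the `R i - R j`. -/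
theorem regular_of_conj {K : Type*} [NormedField K] [IsUltrametricDist K] [CharZero K] {m : ℕ}
    (hm : m.Prime) {ζ : K} (hζ : IsPrimitiveRoot ζ m) (R : Fin m → ℚ⟦X⟧)
    (hR : ∀ j, ∃ P B : Polynomial ℚ, B ≠ 0 ∧ B * R j = P) {ρ c : ℝ} (hρ : 0 < ρ) {t : ℚ}
    (ht : ρ * ‖(t : K)‖ < 1)
    (hb : Bd ρ c (∑ j : Fin m, C (ζ ^ j.1) * map (algebraMap ℚ K) (R j))) :
    ∃ V : Polynomial ℚ, V.eval t ≠ 0 ∧ ∀ i j, ∃ U : Polynomial ℚ, V * (R i - R j) = U := by
  choose P B hB hP using hR
  have h1 : ∀ j, ∃ P : Polynomial ℚ, (∏ j, B j : Polynomial ℚ) * R j = P := fun j => by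
    obtain ⟨c, hc⟩ := dvd_prod_of_mem B (mem_univ j)
    exact ⟨c * P j, by rw [hc, Polynomial.coe_mul, Polynomial.coe_mul, ← hP]; ring⟩
  choose P' hP' using h1
  obtain ⟨V, hV1, hV2⟩ := Polynomial.exists_eq_pow_rootMultiplicity_mul_and_not_dvd (∏ j, B j)
    (prod_ne_zero_iff.2 fun j _ => hB j) t
  generalize (∏ j, B j).rootMultiplicity t = a at hV1
  rw [Polynomial.dvd_iff_isRoot, Polynomial.IsRoot] at hV2
  simp only [hV1, Polynomial.coe_mul] at hP'
  refine ⟨V, hV2, fun i j => ?_⟩
  obtain ⟨c', hc'⟩ := exists_bd_poly hρ (V.map (algebraMap ℚ K))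
  have hD : ((Polynomial.X - Polynomial.C t) ^ a).map (algebraMap ℚ K) =
      (Polynomial.X - Polynomial.C (t : K)) ^ a := by simp
  have hmon : ((Polynomial.X - Polynomial.C t) ^ a).Monic := (Polynomial.monic_X_sub_C t).pow a
  have h2 := pow_dvd_of_bd hρ (hc'.mul hρ.le hb) ht a
    (P := ∑ j : Fin m, ζ ^ j.1 • (P' j).map (algebraMap ℚ K)) (by
      rw [← Polynomial.coeToPowerSeries.ringHom_apply (φ := ∑ _, _), map_sum, mul_sum, mul_sum]
      refine sum_congr rfl fun j _ => ?_
      rw [Polynomial.smul_eq_C_mul, Polynomial.coeToPowerSeries.ringHom_apply, Polynomial.coe_mul,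
        Polynomial.coe_C, ← hD, Polynomial.polynomial_map_coe, Polynomial.polynomial_map_coe,
        Polynomial.polynomial_map_coe, ← hP', map_mul, map_mul]
      ring)
  rw [← hD, ← Polynomial.modByMonic_eq_zero_iff_dvd (hmon.map _), ← Polynomial.modByMonicHom_apply,
    map_sum] at h2
  simp only [map_smul, Polynomial.modByMonicHom_apply, ← Polynomial.map_modByMonic _ hmon] at h2
  have h3 : P' i %ₘ (Polynomial.X - Polynomial.C t) ^ a =
      P' j %ₘ (Polynomial.X - Polynomial.C t) ^ a := by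
    ext n
    refine (hζ.sum_eq_zero_iff_forall_eq hm
      fun j => (P' j %ₘ (Polynomial.X - Polynomial.C t) ^ a).coeff n).1 ?_ i j
    simpa [mul_comm] using congrArg (Polynomial.coeff · n) h2
  obtain ⟨U, hU⟩ : (Polynomial.X - Polynomial.C t) ^ a ∣ P' i - P' j := by
    rw [← Polynomial.modByMonic_eq_zero_iff_dvd hmon, Polynomial.sub_modByMonic, h3, sub_self]
  refine ⟨U, mul_left_cancel₀ (coe_pow_ne_zero t a) ?_⟩
  rw [← Polynomial.coe_mul, ← hU, Polynomial.coe_sub, ← hP', ← hP']
  ring

end Pool.Agent.Lib.Dwork
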