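import Pool.Agent.Lib.Dwork.Sum
import Pool.Agent.Lib.Dwork.Zeta

/-!
Dwork's theorem for arbitrary multiplicative character sums on constructible sets.
-/

namespace Pool.Agent.Lib.Dwork

open Finset

variable (F : Type*) [Field F] [Fintype F] {E : ℕ → Type} [∀ n, Field (E n)]
  [∀ n, Algebra F (E n)]

/-- The ring generated by the functions `χ (N (G v))`. -/
def Alg {K : Type*} [Field K] (ω : ∀ n, E n →*₀ K) (σ : Type) : Subring (∀ n, (σ → E n) → K) :=
  Subring.closure {S | ∃ (G : MvPolynomial σ F) (k : ℕ), S = fun n v =>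
    ω n (MvPolynomial.aeval v G) ^ (k * ∑ j ∈ range (n + 1), Fintype.card F ^ j)}

variable {F}

theorem Alg.char {K : Type*} [Field K] {ω : ∀ n, E n →*₀ K} {σ : Type} (G : MvPolynomial σ F)
    (k : ℕ) {S : ∀ n, (σ → E n) → K} (h : ∀ n v, S n v =
    ω n (MvPolynomial.aeval v G) ^ (k * ∑ j ∈ range (n + 1), Fintype.card F ^ j)) :
    S ∈ Alg F ω σ :=
  Subring.subset_closure ⟨G, k, funext fun n => funext (h n)⟩

theorem pred_mul_geom (q n : ℕ) (hq : 0 < q) :
    (q - 1) * ∑ j ∈ range n, q ^ j = q ^ n - 1 := by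
  have := geom_sum_mul_add (q - 1) n
  rw [show q - 1 + 1 = q by omega, mul_comm] at this
  omega

variable (F) in
open Classical in
/-- The indicator function of `P` lies in the ring. -/
def Ind {K : Type*} [Field K] (ω : ∀ n, E n →*₀ K) {σ : Type} (P : ∀ n, (σ → E n) → Prop) : Prop :=
  (fun n v => if P n v then 1 else 0) ∈ Alg F ω σ

section Ind

variable {K : Type*} [Field K] {ω : ∀ n, E n →*₀ K} {σ : Type} {P P' : ∀ n, (σ → E n) → Prop}

theorem Ind.ite (h : Ind F ω P) [∀ n v, Decidable (P n v)] {S : ∀ n, (σ → E n) → K}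
    (hS : S ∈ Alg F ω σ) : (fun n v => if P n v then S n v else 0) ∈ Alg F ω σ := by
  convert mul_mem h hS using 1
  ext n v
  simp only [Pi.mul_apply]
  split_ifs <;> simp

theorem Ind.and (h : Ind F ω P) (h' : Ind F ω P') : Ind F ω fun n v => P n v ∧ P' n v := by
  classical
  convert h.ite h' using 1
  simp only [Ind]
  congr! 1
  ext n v
  by_cases h1 : P n v <;> simp [h1]

theorem Ind.not (h : Ind F ω P) : Ind F ω fun n v => ¬ P n v := by
  convert sub_mem (one_mem _) h using 1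
  simp only [Ind]
  congr! 1
  ext n v
  simp only [Pi.sub_apply, Pi.one_apply]
  split_ifs <;> simp

theorem Ind.iff (h : Ind F ω P) (b : Prop) : Ind F ω fun n v => P n v ↔ b := by
  by_cases hb : b
  · simpa [hb] using h
  · simpa [hb] using h.not

theorem Ind.eq [∀ n, Fintype (E n)] (hE : ∀ n, Fintype.card (E n) = Fintype.card F ^ (n + 1))
    (G G' : MvPolynomial σ F)
    (h : ∀ n v, P n v ↔ MvPolynomial.aeval v G = MvPolynomial.aeval v G') : Ind F ω P := by
  convert sub_mem (one_mem (Alg F ω σ)) (Alg.char (G - G') (Fintype.card F - 1) fun _ _ => rfl)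
    using 1
  simp only [Ind]
  congr! 1
  ext n v
  simp only [Pi.sub_apply, Pi.one_apply, pred_mul_geom _ _ Fintype.card_pos, ← hE, map_sub]
  split_ifs with e
  · rw [(h n v).1 e, sub_self, map_zero, zero_pow (Nat.sub_ne_zero_of_lt Fintype.one_lt_card),
      sub_zero]
  · rw [← map_pow, FiniteField.pow_card_sub_one_eq_one _ fun e' => e ((h n v).2 (sub_eq_zero.1 e')),
      map_one, sub_self]

end Ind

variable {p : ℕ} [hp : Fact p.Prime]

theorem exists_alg_data (F : Type*) [Field F] [Fintype F] [CharP F p] (E : ℕ → Type)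
    [∀ n, Field (E n)] [∀ n, Fintype (E n)] [∀ n, Algebra F (E n)]
    (hE : ∀ n, Fintype.card (E n) = Fintype.card F ^ (n + 1)) :
    ∃ (ω : ∀ n, E n →*₀ ℂ_[p]) (Ψ : ∀ n, AddChar (E n) ℂ_[p]), (∀ n, Std p (ω n) (Ψ n)) ∧
      ∀ (σ : Type) [Fintype σ] [DecidableEq σ], ∀ S ∈ Alg F ω σ,
        Mero (PowerSeries.X * PowerSeries.mk fun n => ∑ v, S n v) := by
  classical
  obtain ⟨ω, Ψ, hΨ, h⟩ := exists_dwork_data (p := p) F E hE
  refine ⟨ω, Ψ, hΨ, fun σ _ _ S hS => ?_⟩
  induction Subring.mem_closure_iff.1 hS using AddSubgroup.closure_induction with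
  | zero =>
    convert mero_of_ent ent_one (LD.one (R := ℂ_[p]))
    ext (_ | n) <;> simp
  | add S S' h1 h2 h3 h4 =>
    convert (h3 (Subring.mem_closure_iff.2 h1)).add (h4 (Subring.mem_closure_iff.2 h2))
    ext (_ | n) <;> simp [sum_add_distrib]
  | neg S h1 h2 =>
    convert (h2 (Subring.mem_closure_iff.2 h1)).neg
    ext (_ | n) <;> simp
  | mem S h1 =>
  obtain ⟨ι, _, G, k, rfl⟩ : ∃ (ι : Type) (_ : Fintype ι) (G : ι → MvPolynomial σ F) (k : ι → ℕ),
      S = fun n v => ∏ i, ω n (MvPolynomial.aeval v (G i)) ^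
        (k i * ∑ j ∈ range (n + 1), Fintype.card F ^ j) := by
    clear hS
    induction h1 using Submonoid.closure_induction with
    | one => exact ⟨Empty, inferInstance, Empty.elim, Empty.elim, by ext; simp⟩
    | mem S hS =>
      obtain ⟨G, k, rfl⟩ := hS
      exact ⟨Unit, inferInstance, fun _ => G, fun _ => k, by ext; simp⟩
    | mul S S' _ _ h1 h2 =>
      obtain ⟨ι, _, G, k, rfl⟩ := h1
      obtain ⟨ι', _, G', k', rfl⟩ := h2
      exact ⟨ι ⊕ ι', inferInstance, Sum.elim G G', Sum.elim k k', by ext; simp⟩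
  set q : ℂ_[p] := (Fintype.card F : ℂ_[p]) with hq
  have hq0 : q ^ Fintype.card ι ≠ 0 := pow_ne_zero _ (Nat.cast_ne_zero.2 Fintype.card_ne_zero)
  generalize hW : (PowerSeries.X * PowerSeries.mk _ : PowerSeries ℂ_[p]) = W
  have := (h (Option (σ ⊕ ι ⊕ ι)) (Σ i, Option (G i).support)
    (fun u => u.2.elim 1 fun M => -(G u.1).coeff M)
    (fun u s => s.elim 0 (Sum.elim (u.2.elim 0 fun M => M.1) (Sum.elim
      (u.2.elim (Pi.single u.1 1) fun _ => 0) (Pi.single u.1 1))))
    (·.elim (Fintype.card F - 1) (Sum.elim 0 (Sum.elim k 0)))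
    (Function.ne_iff.2 ⟨none, Nat.sub_ne_zero_of_lt Fintype.one_lt_card⟩)
    (fun n => (q ^ Fintype.card ι) ^ n * PowerSeries.coeff n W) (by simp [← hW]) fun n => ?_).rescale
    (q ^ Fintype.card ι)⁻¹
  · refine (show _ = W from ?_) ▸ this
    ext n
    rw [PowerSeries.coeff_rescale, PowerSeries.coeff_mk, inv_pow,
      inv_mul_cancel_left₀ (pow_ne_zero _ hq0)]
  rw [← (Equiv.piOptionEquivProd (β := fun _ => E n)).symm.sum_comp, Fintype.sum_prod_type]
  simp only [Fintype.prod_option, Equiv.piOptionEquivProd_symm_apply, Option.elim, pow_zero,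
    one_mul, mul_assoc, ← mul_sum, ← sum_mul]
  congr 1
  · rw [pred_mul_geom _ _ Fintype.card_pos, ← hE, ← sum_subset (filter_subset (· ≠ 0) _)
      fun x _ hx => by simp at hx; simp [hx, Nat.sub_ne_zero_of_lt Fintype.one_lt_card],
      sum_teich_pow (hΨ n).1.injective, if_pos dvd_rfl, Nat.cast_pred Fintype.card_pos, hE,
      Nat.cast_pow]
  rw [← hW, PowerSeries.coeff_succ_X_mul, PowerSeries.coeff_mk, mul_sum,
    ← (Equiv.sumArrowEquivProdArrow _ _ _).symm.sum_comp, Fintype.sum_prod_type]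
  refine sum_congr rfl fun x _ => ?_
  rw [← (Equiv.sumArrowEquivProdArrow _ _ _).symm.sum_comp, Fintype.sum_prod_type]
  simp only [Fintype.sum_sigma, Fintype.sum_option, Fintype.prod_sum_type,
    Equiv.sumArrowEquivProdArrow_symm_apply_inl, Equiv.sumArrowEquivProdArrow_symm_apply_inr,
    Sum.elim_inl, Sum.elim_inr, Pi.zero_apply, zero_mul, pow_zero, prod_const_one,
    one_mul, mul_one, map_one, Pi.single_apply, pow_ite, pow_one, prod_ite_eq', mem_univ, if_true]
  have e : ∀ (v y : ι → E n) (i : ι), v i * y i + ∑ M : (G i).support,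
      algebraMap F (E n) (-(G i).coeff M) * ((∏ j, x j ^ M.1 j) * y i) =
      y i * (v i - MvPolynomial.aeval x (G i)) := fun v y i => by
    rw [MvPolynomial.aeval_def, MvPolynomial.eval₂_eq', mul_sub, mul_sum, sub_eq_add_neg,
      ← sum_neg_distrib, ← sum_coe_sort (G i).support, mul_comm]
    congr 1
    exact sum_congr rfl fun j _ => by rw [map_neg]; ring
  simp only [e, addChar_sum, ← mul_sum]
  simp only [fun v : ι → E n => (Fintype.prod_sum fun i a =>
    Ψ n (a * (v i - MvPolynomial.aeval x (G i)))).symm,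
    AddChar.sum_mulShift _ (hΨ n).2.1, ← prod_mul_distrib]
  rw [← Fintype.prod_sum fun i (a : E n) =>
    ω n a ^ (k i * ∑ j ∈ range (n + 1), Fintype.card F ^ j) *
    ((if a - MvPolynomial.aeval x (G i) = 0 then Fintype.card (E n) else 0 : ℕ) : ℂ_[p])]
  simp only [sub_eq_zero, Nat.cast_ite, Nat.cast_zero, mul_ite, mul_zero, sum_ite_eq', mem_univ,
    if_true, prod_mul_distrib, prod_const, card_univ, hE, Nat.cast_pow]
  rw [← hq]
  ring

end Pool.Agent.Lib.Dwork
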