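import Pool.Agent.Lib.Dwork.Stick

/-!
Expansion of characters of a finite field in powers of the Teichmuller character, with the
valuations of the coefficients.
-/

namespace Pool.Agent.Lib.Dwork

open Finset

/-- The least positive residue of `k` modulo `N`, and `0` for `k = 0`. -/
def rs (N k : ℕ) : ℕ := if k = 0 then 0 else (k - 1) % N + 1

theorem rs_zero (N : ℕ) : rs N 0 = 0 := rfl

theorem rs_ne_zero {N k : ℕ} (h : k ≠ 0) : rs N k ≠ 0 := by simp [rs, h]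

theorem rs_modEq (N k : ℕ) : rs N k ≡ k [MOD N] := by
  unfold rs
  split_ifs with h
  · rw [h]
  · conv_rhs => rw [show k = k - 1 + 1 by omega]
    exact (Nat.mod_modEq _ _).add_right 1

theorem rs_le {N : ℕ} (hN : 0 < N) (k : ℕ) : rs N k ≤ N := by
  unfold rs
  split_ifs
  · omega
  · exact Nat.mod_lt _ hN

theorem rs_le_of {N k l : ℕ} (h : l ≡ k [MOD N]) (h0 : k ≠ 0 → l ≠ 0) : rs N k ≤ l := by
  unfold rs
  split_ifs with hk
  · omega
  · have := h0 hk
    have e : (l - 1) % N = (k - 1) % N := Nat.ModEq.add_right_cancel' 1 (by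
      rwa [show l - 1 + 1 = l by omega, show k - 1 + 1 = k by omega])
    have := Nat.mod_le (l - 1) N
    omega

theorem rs_congr {N k l : ℕ} (h : l ≡ k [MOD N]) (h0 : k = 0 ↔ l = 0) : rs N k = rs N l :=
  le_antisymm (rs_le_of ((rs_modEq N l).trans h) fun hk => rs_ne_zero fun e => hk (h0.2 e))
    (rs_le_of ((rs_modEq N k).trans h.symm) fun hk => rs_ne_zero fun e => hk (h0.1 e))

theorem rs_add_le (N k l : ℕ) : rs N (k + l) ≤ rs N k + rs N l :=
  rs_le_of ((rs_modEq N k).add (rs_modEq N l)) fun h e => h (by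
    rw [Nat.add_eq_zero_iff] at e ⊢
    exact ⟨by_contra fun h => rs_ne_zero h e.1, by_contra fun h => rs_ne_zero h e.2⟩)

theorem rs_of_dvd {N k : ℕ} (hN : 0 < N) (h : N ∣ k) (h0 : k ≠ 0) : rs N k = N :=
  le_antisymm (rs_le hN k) (Nat.le_of_dvd (Nat.pos_of_ne_zero (rs_ne_zero h0))
    (((rs_modEq N k).dvd_iff dvd_rfl).2 h))

theorem rs_of_not_dvd {N k : ℕ} (h : ¬ N ∣ k) : rs N k = k % N := by
  refine le_antisymm (rs_le_of (Nat.mod_modEq _ _) fun _ e => h (Nat.dvd_of_mod_eq_zero e)) ?_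
  rw [← (rs_modEq N k : _ % N = _)]
  exact Nat.mod_le _ _

theorem mod_add_mod {N a b : ℕ} (h : N ∣ a + b) (ha : ¬ N ∣ a) :
    a % N + b % N = N := by
  have h1 := Nat.add_mod_add_ite a b N
  have h2 := mt Nat.dvd_of_mod_eq_zero ha
  rw [Nat.mod_eq_zero_of_dvd h] at h1
  split_ifs at h1 <;> omega

/-- `p ^ s - 1` times the valuation of the Gauss sum of index `k`. -/
def wt (p s k : ℕ) : ℕ := ∑ j ∈ range s, rs (p ^ s - 1) (p ^ j * k)

theorem wt_zero (p s : ℕ) : wt p s 0 = 0 := by simp [wt, rs_zero]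

theorem wt_add_le (p s k l : ℕ) : wt p s (k + l) ≤ wt p s k + wt p s l := by
  simp only [wt, ← sum_add_distrib, mul_add]
  exact sum_le_sum fun j _ => rs_add_le _ _ _

theorem wt_sum_le (p s : ℕ) {ι : Type*} (t : Finset ι) (k : ι → ℕ) :
    wt p s (∑ i ∈ t, k i) ≤ ∑ i ∈ t, wt p s (k i) :=
  le_sum_of_subadditive _ (wt_zero p s).le (wt_add_le p s) _ _

theorem wt_mul_le (p s k d : ℕ) : wt p s (k * d) ≤ wt p s k * d := by
  simpa [mul_comm] using wt_sum_le p s (range d) fun _ => k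

theorem pow_modEq_one {p s : ℕ} (hp : p ≠ 0) : p ^ s ≡ 1 [MOD p ^ s - 1] :=
  ((Nat.modEq_iff_dvd' (Nat.one_le_pow _ _ (Nat.pos_of_ne_zero hp))).2 dvd_rfl).symm

theorem wt_mul_self {p : ℕ} (hp : p ≠ 0) (s k : ℕ) : wt p s (k * p) = wt p s k := by
  have e := (sum_range_succ' (fun j => rs (p ^ s - 1) (p ^ j * k)) s).symm.trans
    (sum_range_succ _ s)
  rw [rs_congr (k := p ^ s * k) (l := p ^ 0 * k) ((pow_modEq_one hp).symm.mul_right k)
    (by simp [hp]), add_left_inj] at e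
  rw [wt, wt, ← e]
  exact sum_congr rfl fun j _ => by rw [pow_succ, mul_assoc, mul_comm p]

theorem wt_of_dvd {p s k : ℕ} (hp : p ≠ 0) (hN : 0 < p ^ s - 1) (h : p ^ s - 1 ∣ k) (h0 : k ≠ 0) :
    wt p s k = (p ^ s - 1) * s := by
  rw [wt, sum_congr rfl fun j _ => rs_of_dvd hN (h.mul_left _) (by positivity)]
  simp [mul_comm]

variable {E : Type*} [Field E] [Fintype E] {K : Type*} [NormedField K] [IsUltrametricDist K]
  {p : ℕ} [hp : Fact p.Prime] [CharP E p] {ω : E →*₀ K} {Ψ : AddChar E K} {s : ℕ} {ϱ : ℝ}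

omit [CharP E p] hp in
theorem pred_pos (hs : Fintype.card E = p ^ s) : 0 < p ^ s - 1 :=
  Nat.sub_pos_of_lt (hs ▸ Fintype.one_lt_card)

theorem not_dvd_pow_mul {N k : ℕ} (hN : N ∣ p ^ s - 1) (hs : s ≠ 0) (h : ¬ N ∣ k) (j : ℕ) :
    ¬ N ∣ p ^ j * k := fun e => h (Nat.Coprime.dvd_of_dvd_mul_left (Nat.Coprime.pow_right _
      (Nat.Coprime.coprime_dvd_left hN ((Nat.coprime_self_sub_left (Nat.one_le_pow _ _
        hp.out.pos)).2 (Nat.coprime_one_left _) |>.coprime_dvd_right (dvd_pow_self p hs)))) e)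

omit [IsUltrametricDist K] [CharP E p] in
theorem Std.norm_p (h : Std p ω Ψ) : 0 < ‖(p : K)‖ ∧ ‖(p : K)‖ < 1 := by
  obtain ⟨-, -, π, s, h0, h1, hπ, -⟩ := h
  rw [← norm_neg, ← hπ, norm_pow]
  exact ⟨by positivity, pow_lt_one₀ (norm_nonneg _) h1 (by have := hp.out.two_le; omega)⟩

omit [CharP E p] in
theorem Std.norm_pred (h : Std p ω Ψ) (hs : Fintype.card E = p ^ s) :
    ‖((p ^ s - 1 : ℕ) : K)‖ = 1 := by
  have hs0 : s ≠ 0 := by
    rintro rfl
    simpa using pred_pos hs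
  rw [Nat.cast_pred (by have := hp.out.pos; positivity), sub_eq_neg_add, ← norm_one (α := K),
    ← norm_neg (1 : K)]
  refine norm_eq_of_sub_lt ?_
  simpa using pow_lt_one₀ (norm_nonneg _) h.norm_p.2 hs0

theorem Std.le_norm_gauss (h : Std p ω Ψ) (hs : Fintype.card E = p ^ s)
    (hϱ : ϱ ^ (p ^ s - 1) = ‖(p : K)‖) (k : ℕ) :
    ϱ ^ ∑ j ∈ range s, p ^ j * k % (p ^ s - 1) ≤ ‖gaussSum ((tchar ω)⁻¹ ^ k) Ψ‖ := by
  have hN := pred_pos hs
  have := h.norm_gauss hs (m := p ^ s - 1) (d := 1) (by omega) k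
  rw [mul_one, ← hϱ, pow_right_comm] at this
  exact le_of_pow_le_pow_left₀ hN.ne' (norm_nonneg _) this

theorem Std.norm_gauss_le (h : Std p ω Ψ) (hs : Fintype.card E = p ^ s)
    (hϱ : ϱ ^ (p ^ s - 1) = ‖(p : K)‖) (h0 : 0 < ϱ) {k : ℕ} (hk0 : k ≠ 0) (hk : k < p ^ s - 1) :
    ‖gaussSum ((tchar ω)⁻¹ ^ k) Ψ‖ ≤ ϱ ^ wt p s k := by
  have hN := pred_pos hs
  have hs0 : s ≠ 0 := by
    rintro rfl
    simp at hN
  have hd : ¬ p ^ s - 1 ∣ k := Nat.not_dvd_of_pos_of_lt (by omega) hk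
  have h1 : (tchar ω)⁻¹ ^ k ≠ 1 := by
    rwa [Ne, inv_pow, inv_eq_one, tchar_pow_eq_one h.1.injective, hs]
  have h2 := gaussSum_mul_gaussSum_eq_card h1 h.2.1
  have h3 : ((tchar ω)⁻¹ ^ k)⁻¹ = (tchar ω)⁻¹ ^ (p ^ s - 1 - k) := by
    rw [inv_eq_iff_mul_eq_one, ← pow_add, inv_pow, inv_eq_one, tchar_pow_eq_one h.1.injective, hs]
    exact dvd_of_eq (by omega)
  have h4 := congrArg norm (mul_gaussSum_inv_eq_gaussSum ((tchar ω)⁻¹ ^ k)⁻¹ Ψ)
  rw [norm_mul, show ‖((tchar ω)⁻¹ ^ k)⁻¹ (-1)‖ = 1 from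
    norm_teich ((tchar ω)⁻¹ ^ k)⁻¹.toMonoidWithZeroHom (neg_ne_zero.2 one_ne_zero), one_mul] at h4
  have h5 := h.le_norm_gauss hs hϱ (p ^ s - 1 - k)
  rw [← h3, ← h4] at h5
  have h6 : wt p s k + ∑ j ∈ range s, p ^ j * (p ^ s - 1 - k) % (p ^ s - 1) = (p ^ s - 1) * s := by
    rw [wt, ← sum_add_distrib, sum_congr rfl (g := fun _ => p ^ s - 1), sum_const, card_range,
      smul_eq_mul, mul_comm]
    intro j _
    have h7 := not_dvd_pow_mul dvd_rfl hs0 hd j
    rw [rs_of_not_dvd h7]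
    refine mod_add_mod ?_ h7
    rw [← mul_add, Nat.add_sub_cancel' hk.le]
    exact dvd_mul_left _ _
  refine le_of_mul_le_mul_right ?_
    (pow_pos h0 (∑ j ∈ range s, p ^ j * (p ^ s - 1 - k) % (p ^ s - 1)))
  rw [← pow_add, h6, pow_mul, hϱ, ← norm_pow, ← Nat.cast_pow, ← hs, ← h2, norm_mul]
  exact mul_le_mul_of_nonneg_left (hs ▸ h5) (norm_nonneg _)

omit [IsUltrametricDist K] hp [CharP E p] in
theorem sum_char_pow (hω : Function.Injective ω) (a k : ℕ) :
    ∑ y, ((tchar ω)⁻¹ ^ a) y * ω y ^ k =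
      if k ≡ a [MOD Fintype.card E - 1] then ((Fintype.card E - 1 : ℕ) : K) else 0 := by
  classical
  have hN : 0 < Fintype.card E - 1 := Nat.sub_pos_of_lt Fintype.one_lt_card
  have e : ∀ y, ((tchar ω)⁻¹ ^ a) y * ω y ^ k = ((tchar ω)⁻¹ ^ a * tchar ω ^ k) y := fun y => by
    rcases eq_or_ne y 0 with rfl | hy
    · rw [MulChar.map_zero, MulChar.map_zero, zero_mul]
    · lift y to Eˣ using hy.isUnit
      rw [MulChar.mul_apply, MulChar.pow_apply_coe (tchar ω)]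
      rfl
  have e2 : (tchar ω)⁻¹ ^ a * tchar ω ^ k = 1 ↔ k ≡ a [MOD Fintype.card E - 1] := by
    rw [inv_pow, inv_mul_eq_one, eq_comm, pow_eq_pow_iff_modEq,
      show orderOf (tchar ω) = Fintype.card E - 1 from Nat.dvd_antisymm
        (orderOf_dvd_of_pow_eq_one ((tchar_pow_eq_one hω _).2 dvd_rfl))
        ((tchar_pow_eq_one hω _).1 (pow_orderOf_eq_one _))]
  simp only [e]
  split_ifs with h
  · rw [e2.2 h, MulChar.sum_one_eq_card_units, Fintype.card_units]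
  · exact MulChar.sum_eq_zero_of_ne_one fun e => h (e2.1 e)

omit [IsUltrametricDist K] hp [CharP E p] in
theorem gauss_mul (ω : E →*₀ K) (Ψ : AddChar E K) (a : ℕ) {z : E} (hz : z ≠ 0) :
    gaussSum ((tchar ω)⁻¹ ^ a) Ψ * ω z ^ a = ∑ y, ((tchar ω)⁻¹ ^ a) y * Ψ (z * y) := by
  have := gaussSum_mulShift_eq ((tchar ω)⁻¹ ^ a) Ψ (Units.mk0 z hz)
  rw [inv_pow, inv_inv, MulChar.pow_apply_coe, ← inv_pow] at this
  exact (mul_comm _ _).trans this.symm

/-- Expansion of the additive character. -/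
theorem Std.expand (h : Std p ω Ψ) (hs : Fintype.card E = p ^ s)
    (hϱ : ϱ ^ (p ^ s - 1) = ‖(p : K)‖) (h0 : 0 < ϱ) : ∃ c : ℕ → K, c 0 = 1 ∧
      (∀ k < p ^ s, ‖c k‖ ≤ ϱ ^ wt p s k) ∧ ∀ z, Ψ z = ∑ k : Fin (p ^ s), c k * ω z ^ k.1 := by
  classical
  have hN := pred_pos hs
  have h1 := h.norm_pred hs
  have h2 : ((p ^ s - 1 : ℕ) : K) ≠ 0 := norm_ne_zero_iff.1 (h1 ▸ one_ne_zero)
  refine ⟨fun k => if k = 0 then 1 else (gaussSum ((tchar ω)⁻¹ ^ k) Ψ -
    if k = p ^ s - 1 then ((p ^ s - 1 : ℕ) : K) else 0) / (p ^ s - 1 : ℕ), rfl, fun k hk => ?_,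
    fun z => ?_⟩
  · beta_reduce
    split_ifs with e1 e2
    · simp [e1, wt_zero]
    · rw [norm_div, h1, div_one, e2, wt_of_dvd hp.out.ne_zero hN dvd_rfl hN.ne', pow_mul, hϱ,
        inv_pow, (tchar_pow_eq_one h.1.injective _).2 (by rw [hs]), inv_one,
        gaussSum_one_left (by simpa using h.2.1 one_ne_zero), ← neg_add', norm_neg, ← norm_pow,
        Nat.cast_pred (by omega), add_sub_cancel, Nat.cast_pow]
    · rw [norm_div, h1, div_one, sub_zero]
      exact h.norm_gauss_le hs hϱ h0 e1 (by omega)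
  · rw [← sum_range fun k => (if k = 0 then 1 else (gaussSum ((tchar ω)⁻¹ ^ k) Ψ -
      if k = p ^ s - 1 then ((p ^ s - 1 : ℕ) : K) else 0) / (p ^ s - 1 : ℕ)) * ω z ^ k]
    generalize hn : p ^ s - 1 = N at *
    rw [show p ^ s = N + 1 by omega, sum_range_succ']
    rcases eq_or_ne z 0 with rfl | hz
    · simp
    have e1 : ω z ^ N = 1 := by
      rw [← map_pow, ← hn, ← hs, FiniteField.pow_card_sub_one_eq_one z hz, map_one]
    have e2 : ∑ k ∈ range N, gaussSum ((tchar ω)⁻¹ ^ (k + 1)) Ψ * ω z ^ (k + 1) = N * Ψ z := by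
      simp only [gauss_mul ω Ψ _ hz]
      rw [sum_comm, sum_eq_single 1 (fun y _ hy => ?_) (by simp)]
      · simp
      simp only [MulChar.pow_apply' _ (Nat.succ_ne_zero _)]
      simp only [pow_succ, mul_assoc, ← sum_mul]
      rcases eq_or_ne y 0 with rfl | hy0
      · rw [MulChar.map_zero, zero_mul, mul_zero]
      have e3 := geom_sum_mul ((tchar ω)⁻¹ y) N
      rw [← MulChar.pow_apply' _ hN.ne', inv_pow, (tchar_pow_eq_one h.1.injective _).2
        (by rw [hs, hn]), inv_one, MulChar.one_apply hy0.isUnit, sub_self, mul_eq_zero,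
        sub_eq_zero] at e3
      rw [e3.resolve_right fun e => hy (inv_eq_one.1 (h.1.injective
        (((MulChar.inv_apply' _ y).symm.trans e).trans (map_one ω).symm))), zero_mul]
    simp only [Nat.succ_ne_zero, if_false, if_true, pow_zero, mul_one, div_mul_eq_mul_div,
      sub_mul, ← sum_div, sum_sub_distrib, e2, ite_mul, zero_mul]
    rw [sum_eq_single (N - 1) (fun b _ hb => if_neg (by omega)) (by simp; omega),
      if_pos (by omega), Nat.sub_add_cancel hN, e1]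
    field_simp
    ring

/-- The multinomial theorem for powers of the Teichmuller character. -/
theorem Std.multinomial (h : Std p ω Ψ) (hs : Fintype.card E = p ^ s)
    (hϱ : ϱ ^ (p ^ s - 1) = ‖(p : K)‖) (h0 : 0 < ϱ) (U : Type*) [Fintype U] [DecidableEq U]
    (a : ℕ) : ∃ c : (U → Fin (p ^ s)) → K,
      (∀ k, c k ≠ 0 → ∑ u, (k u).1 ≡ a [MOD p ^ s - 1] ∧ (a ≠ 0 → ∑ u, (k u).1 ≠ 0)) ∧
      (∀ k, ‖c k‖ * ϱ ^ wt p s a ≤ ϱ ^ ∑ u, wt p s (k u)) ∧
      ∀ z : U → E, ω (∑ u, z u) ^ a = ∑ k, c k * ∏ u, ω (z u) ^ (k u).1 := by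
  classical
  have hN := pred_pos hs
  have hs0 : s ≠ 0 := by
    rintro rfl
    simp at hN
  have : NeZero (p ^ s) := ⟨by omega⟩
  rcases eq_or_ne a 0 with rfl | ha
  · refine ⟨fun k => if k = 0 then 1 else 0, fun k hk => ?_, fun k => ?_, fun z => by simp⟩
    · obtain rfl : k = 0 := by simpa using hk
      simp [Nat.ModEq]
    · beta_reduce
      split_ifs with e
      · simp [e, wt_zero]
      · simp only [norm_zero, zero_mul]
        positivity
  obtain ⟨c, hc0, hc, hΨ⟩ := h.expand hs hϱ h0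
  obtain ⟨G, hG, hG'⟩ : ∃ G : K, ϱ ^ wt p s a ≤ ‖G‖ ∧ ∀ z, G * ω z ^ a =
      ∑ y, ((tchar ω)⁻¹ ^ a) y * (Ψ (z * y) - 1) := by
    by_cases hd : p ^ s - 1 ∣ a
    · have e : (tchar ω)⁻¹ ^ a = 1 := by
        rw [inv_pow, (tchar_pow_eq_one h.1.injective _).2 (by rwa [hs]), inv_one]
      refine ⟨-(p ^ s : ℕ), ?_, fun z => ?_⟩
      · rw [wt_of_dvd hp.out.ne_zero hN hd ha, pow_mul, hϱ, norm_neg, Nat.cast_pow, norm_pow]
      · rcases eq_or_ne z 0 with rfl | hz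
        · simp [ha]
        obtain ⟨b, rfl⟩ := hd
        simp only [mul_sub, sum_sub_distrib, ← gauss_mul ω Ψ _ hz, mul_one]
        rw [e, gaussSum_one_left (by simpa using h.2.1 one_ne_zero), MulChar.sum_one_eq_card_units,
          Fintype.card_units, pow_mul, ← map_pow, ← hs, FiniteField.pow_card_sub_one_eq_one z hz,
          map_one, one_pow, Nat.cast_pred Fintype.card_pos]
        ring
    · refine ⟨gaussSum ((tchar ω)⁻¹ ^ a) Ψ, ?_, fun z => ?_⟩
      · rw [wt, sum_congr rfl fun j _ => rs_of_not_dvd (not_dvd_pow_mul dvd_rfl hs0 hd j)]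
        exact h.le_norm_gauss hs hϱ a
      · rcases eq_or_ne z 0 with rfl | hz
        · simp [ha]
        simp only [mul_sub, sum_sub_distrib, ← gauss_mul ω Ψ _ hz, mul_one]
        rw [MulChar.sum_eq_zero_of_ne_one, sub_zero]
        rwa [Ne, inv_pow, inv_eq_one, tchar_pow_eq_one h.1.injective, hs]
  have hG0 : 0 < ‖G‖ := (pow_pos h0 _).trans_le hG
  refine ⟨fun k => if k = 0 then 0 else G⁻¹ * ((∏ u, c (k u)) *
    ∑ y, ((tchar ω)⁻¹ ^ a) y * ω y ^ ∑ u, (k u).1), fun k hk => ?_, fun k => ?_, fun z => ?_⟩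
  · beta_reduce at hk
    rw [sum_char_pow h.1.injective, hs] at hk
    refine ⟨by_contra fun e => hk (by simp [e]), fun _ e => hk (if_pos ?_)⟩
    ext u
    exact sum_eq_zero_iff.1 e u (mem_univ _)
  · beta_reduce
    split_ifs
    · simp only [norm_zero, zero_mul]
      positivity
    rw [norm_mul, norm_inv, mul_right_comm, norm_mul, norm_prod, ← prod_pow_eq_pow_sum]
    refine (mul_le_of_le_one_left (by positivity) ((inv_mul_le_one₀ hG0).2 hG)).trans
      ((mul_le_of_le_one_right (by positivity) ?_).trans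
      (prod_le_prod (fun _ _ => norm_nonneg _) fun u _ => hc _ (k u).2))
    rw [sum_char_pow h.1.injective]
    split_ifs
    · exact IsUltrametricDist.norm_natCast_le_one K _
    · simp
  · refine mul_left_cancel₀ (norm_pos_iff.1 hG0) ?_
    have e : ∀ y, Ψ ((∑ u, z u) * y) - 1 = ∑ k ∈ (univ : Finset (U → Fin (p ^ s))).erase 0,
        (∏ u, c (k u)) * ω y ^ (∑ u, (k u).1) * ∏ u, ω (z u) ^ (k u).1 := fun y => by
      rw [sum_mul, addChar_sum, sub_eq_iff_eq_add]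
      simp only [hΨ]
      rw [Fintype.prod_sum, ← sum_erase_add _ _ (mem_univ 0)]
      simp only [prod_mul_distrib, map_mul, mul_pow, prod_pow_eq_pow_sum]
      simp [hc0, mul_assoc, mul_comm, mul_left_comm]
    rw [hG', ← sum_erase _ (a := 0) (f := fun k : U → Fin (p ^ s) => _ * _) (by simp), mul_sum]
    simp only [e, mul_sum]
    rw [sum_comm]
    refine sum_congr rfl fun k hk => ?_
    rw [if_neg (ne_of_mem_erase hk), ← mul_assoc, ← mul_sum, ← mul_sum, mul_inv_cancel_left₀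
      (norm_pos_iff.1 hG0), mul_sum, sum_mul]
    exact sum_congr rfl fun y _ => by ring

end Pool.Agent.Lib.Dwork
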