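import Pool.Agent.Lib.Dwork.Series

/-!
Kronecker's criterion and the Borel-Dwork rationality criterion.
-/

namespace Pool.Agent.Lib.Dwork

open PowerSeries Finset

/-- The Hankel matrix of a sequence. -/
def hankel {R : Type*} (f : ℕ → R) (s : ℕ) : Matrix (Fin s) (Fin s) R :=
  Matrix.of fun a b => f (a + b)

theorem kronecker {F : Type*} [Field F] (f : ℕ → F) (s₀ : ℕ)
    (h : ∀ s, s₀ ≤ s → (hankel f s).det = 0) :
    ∃ A B : Polynomial F, B ≠ 0 ∧ (B : F⟦X⟧) * PowerSeries.mk f = A := by
  classical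
  let s := Nat.findGreatest (fun s => (hankel f s).det ≠ 0) s₀
  have hs : (hankel f s).det ≠ 0 :=
    Nat.findGreatest_spec (P := fun s => (hankel f s).det ≠ 0) (Nat.zero_le s₀) (by simp)
  have hs' : ∀ t, s < t → (hankel f t).det = 0 := by
    intro t ht
    by_cases h1 : t ≤ s₀
    · exact not_not.1 (Nat.findGreatest_is_greatest ht h1)
    · exact h t (by omega)
  have inj : ∀ z : ℕ → F, (∀ a < s, ∑ b ∈ range s, f (a + b) * z b = 0) → ∀ b < s, z b = 0 := by
    intro z hz b hb
    have := Matrix.eq_zero_of_mulVec_eq_zero hs (v := fun b : Fin s => z b) (by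
      funext a
      have := hz a a.2
      rw [sum_range] at this
      exact this)
    exact congrFun this ⟨b, hb⟩
  have ker : ∀ t, s < t → ∃ z : ℕ → F, (∃ b < t, z b ≠ 0) ∧
      ∀ a < t, ∑ b ∈ range t, f (a + b) * z b = 0 := by
    intro t ht
    obtain ⟨v, hv, hv'⟩ := Matrix.exists_mulVec_eq_zero_iff.2 (hs' t ht)
    obtain ⟨b, hb⟩ := Function.ne_iff.1 hv
    refine ⟨fun i => if h : i < t then v ⟨i, h⟩ else 0, ⟨b, b.2, by simpa using hb⟩, fun a ha => ?_⟩
    have := congrFun hv' ⟨a, ha⟩
    rw [sum_range]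
    simpa [Matrix.mulVec, dotProduct, hankel] using this
  obtain ⟨v, ⟨b₀, hb₀, hb₀'⟩, hv⟩ := ker (s + 1) (by omega)
  have hvs : v s ≠ 0 := by
    intro h0
    have := inj v fun a ha => by
      have := hv a (by omega)
      rwa [sum_range_succ, h0, mul_zero, add_zero] at this
    rcases Nat.lt_succ_iff_lt_or_eq.1 hb₀ with h1 | h1
    · exact hb₀' (this _ h1)
    · exact hb₀' (h1 ▸ h0)
  let g : ℕ → F := fun b => ∑ a ∈ range (s + 1), f (b + a) * v a
  have hg : ∀ t, g t = 0 := by
    intro t
    induction t using Nat.strong_induction_on with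
    | _ t ih =>
      by_cases hts : t ≤ s
      · exact hv t (by omega)
      by_contra hgt
      obtain ⟨z, ⟨b₁, hb₁, hb₁'⟩, hz⟩ := ker (t + 1) (by omega)
      have row : ∀ i, i + s ≤ t → ∑ b ∈ range (t + 1), g (i + b) * z b = 0 := by
        intro i hi
        simp only [g, sum_mul]
        rw [sum_comm]
        refine sum_eq_zero fun a ha => ?_
        have h1 := hz (i + a) (by have := mem_range.1 ha; omega)
        rw [← mul_zero (v a), ← h1, mul_sum]
        refine sum_congr rfl fun b _ => ?_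
        rw [show i + b + a = i + a + b by ring]
        ring
      have top : ∀ i, i + s ≤ t → z (t - i) = 0 := by
        intro i
        induction i using Nat.strong_induction_on with
        | _ i ih' =>
          intro hi
          have h1 := row i hi
          rw [sum_eq_single (t - i)] at h1
          · rw [show i + (t - i) = t by omega] at h1
            exact (mul_eq_zero.1 h1).resolve_left hgt
          · intro b hb hne
            have := mem_range.1 hb
            rcases lt_or_gt_of_ne hne with h2 | h2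
            · rw [ih (i + b) (by omega), zero_mul]
            · have := ih' (t - b) (by omega) (by omega)
              rw [show t - (t - b) = b by omega] at this
              rw [this, mul_zero]
          · intro h2
            exact absurd (mem_range.2 (by omega)) h2
      have top' : ∀ b, s ≤ b → b ≤ t → z b = 0 := fun b h1 h2 => by
        have := top (t - b) (by omega)
        rwa [show t - (t - b) = b by omega] at this
      have low := inj z fun a ha => by
        rw [← hz a (by omega)]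
        refine sum_subset (range_mono (by omega)) fun b hb hb' => ?_
        rw [top' b (by simpa using hb') (by have := mem_range.1 hb; omega), mul_zero]
      by_cases h3 : b₁ < s
      · exact hb₁' (low _ h3)
      · exact hb₁' (top' _ (by omega) (by omega))
  let B : Polynomial F := ∑ a ∈ range (s + 1), Polynomial.monomial (s - a) (v a)
  have hB : B.coeff 0 = v s := by
    simp only [B, Polynomial.finsetSum_coeff, Polynomial.coeff_monomial]
    rw [sum_eq_single s]
    · simp
    · intro b hb hne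
      have := mem_range.1 hb
      rw [if_neg (by omega)]
    · simp
  refine ⟨trunc s ((B : F⟦X⟧) * PowerSeries.mk f), B, fun h0 => hvs (by rw [← hB, h0]; simp), ?_⟩
  ext n
  rw [Polynomial.coeff_coe, coeff_trunc]
  split_ifs with hn
  · rfl
  · obtain ⟨b, rfl⟩ := Nat.exists_eq_add_of_le (not_lt.1 hn)
    rw [← hg b]
    have : (B : F⟦X⟧) = ∑ a ∈ range (s + 1), monomial (s - a) (v a) := by
      simp only [B, ← Polynomial.coeToPowerSeries.ringHom_apply, map_sum]
      simp
    rw [this, sum_mul, map_sum]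
    refine sum_congr rfl fun a ha => ?_
    have := mem_range.1 ha
    rw [monomial_eq_C_mul_X_pow, mul_assoc, coeff_C_mul, show s + b = (b + a) + (s - a) by omega,
      coeff_X_pow_mul, coeff_mk, mul_comm]

theorem norm_det_le {K ι : Type*} [NormedField K] [IsUltrametricDist K] [Fintype ι]
    [DecidableEq ι] (M : Matrix ι ι K) (c : ι → ℝ) (hc : ∀ a, 0 ≤ c a)
    (h : ∀ a b, ‖M a b‖ ≤ c a) : ‖M.det‖ ≤ ∏ a, c a := by
  rw [← Matrix.det_transpose, Matrix.det_apply']
  refine IsUltrametricDist.norm_sum_le_of_forall_le_of_nonneg (prod_nonneg fun a _ => hc a)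
    fun σ _ => ?_
  rw [norm_mul, norm_prod]
  refine (mul_le_of_le_one_left (by positivity) (IsUltrametricDist.norm_intCast_le_one K _)).trans ?_
  exact prod_le_prod (fun _ _ => norm_nonneg _) fun a _ => h _ _

theorem abs_hankel_le (f : ℕ → ℤ) (A c : ℝ) (hc : 1 ≤ c) (h : ∀ n, (|f n| : ℝ) ≤ A * c ^ n)
    (s : ℕ) : (|(hankel f s).det| : ℝ) ≤ ∏ a : Fin s, A * (2 * c ^ 2) ^ (a : ℕ) := by
  have hA : 0 ≤ A := by simpa using (abs_nonneg _).trans (h 0)
  have h1 : (|(hankel f s).det| : ℝ) ≤
      ∑ σ : Equiv.Perm (Fin s), ∏ a : Fin s, A * (c ^ 2) ^ (a : ℕ) := by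
    rw [Matrix.det_apply']
    push_cast
    refine (abs_sum_le_sum_abs _ _).trans (sum_le_sum fun σ _ => ?_)
    have hσ : |(((Equiv.Perm.sign σ : ℤˣ) : ℤ) : ℝ)| = 1 := by
      rcases Int.units_eq_one_or (Equiv.Perm.sign σ) with h | h <;> simp [h]
    rw [abs_mul, hσ, one_mul, abs_prod]
    calc _ ≤ ∏ a : Fin s, A * c ^ ((σ a : ℕ) + a) :=
          prod_le_prod (fun _ _ => abs_nonneg _) fun a _ => h _
      _ = _ := by
          simp only [pow_add, prod_mul_distrib, sq, mul_pow]
          rw [Equiv.prod_comp σ fun a : Fin s => c ^ (a : ℕ)]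
  refine h1.trans ?_
  rw [sum_const, card_univ, Fintype.card_perm, Fintype.card_fin, nsmul_eq_mul]
  have h2 : ∀ s : ℕ, (s.factorial : ℝ) ≤ ∏ a ∈ range s, (2 : ℝ) ^ a := by
    intro s
    induction s with
    | zero => simp
    | succ s ih =>
      rw [Nat.factorial_succ, prod_range_succ, mul_comm]
      push_cast
      refine mul_le_mul ih ?_ (by positivity) (by positivity)
      exact_mod_cast Nat.lt_two_pow_self
  calc _ ≤ (∏ a : Fin s, (2 : ℝ) ^ (a : ℕ)) * ∏ a : Fin s, A * (c ^ 2) ^ (a : ℕ) := by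
        refine mul_le_mul_of_nonneg_right ?_ (by positivity)
        rw [← prod_range fun a => (2 : ℝ) ^ a]
        exact h2 s
    _ = _ := by
        rw [← prod_mul_distrib]
        exact prod_congr rfl fun a _ => by rw [mul_pow]; ring

theorem norm_hankel_le {K : Type*} [NormedField K] [IsUltrametricDist K] (f : ℕ → ℤ)
    {D E : K⟦X⟧} {ρ C : ℝ} (hρ : 0 ≤ ρ) (hρ1 : ρ ≤ 1) (hD : Bd ρ C D) (hE : Bd ρ C E)
    (h0 : constantCoeff D = 1) (h : D * PowerSeries.mk (fun n => (f n : K)) = E) (s : ℕ) :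
    ‖((hankel f s).det : K)‖ ≤ ∏ a : Fin s, C * ρ ^ (a : ℕ) := by
  have hC := hD.nonneg
  let L : Matrix (Fin s) (Fin s) K :=
    Matrix.of fun a a' => if a' ≤ a then coeff ((a : ℕ) - a') D else 0
  have hL : L.det = 1 := by
    rw [Matrix.det_of_isLowerTriangular L fun a a' h => by
      simp only [L, Matrix.of_apply]
      exact if_neg (not_le.2 h)]
    simp [L, h0]
  have e : (((hankel f s).det : ℤ) : K) = (L * hankel (fun n => (f n : K)) s).det := by
    rw [Matrix.det_mul, hL, one_mul]
    exact (Int.castRingHom K).map_det (hankel f s)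
  rw [e]
  refine norm_det_le _ _ (fun a => by positivity) fun a b => ?_
  have e1 : (L * hankel (fun n => (f n : K)) s) a b =
      ∑ k ∈ range (a + 1), coeff k D * (f (a + b - k) : K) := by
    rw [Matrix.mul_apply]
    simp only [L, hankel, Matrix.of_apply, Fin.le_def]
    rw [← sum_range_reflect, ← sum_range (fun a' => (if a' ≤ (a : ℕ) then
      coeff ((a : ℕ) - a') D else 0) * (f (a' + b) : K)),
      ← sum_subset (range_mono (Nat.succ_le_of_lt a.2))]
    · refine sum_congr rfl fun k hk => ?_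
      have := mem_range.1 hk
      rw [if_pos (by omega)]
      congr 3 <;> omega
    · intro k _ hk
      rw [if_neg (by simpa using hk), zero_mul]
  have e2 : coeff (a + b) E = ∑ k ∈ range (a + b + 1), coeff k D * (f (a + b - k) : K) := by
    rw [← h, coeff_mul, Nat.sum_antidiagonal_eq_sum_range_succ_mk]
    simp
  rw [← sum_range_add_sum_Ico _ (show (a : ℕ) + 1 ≤ a + b + 1 by omega), ← e1] at e2
  rw [eq_sub_of_add_eq e2.symm, sub_eq_add_neg]
  refine (IsUltrametricDist.norm_add_le_max _ _).trans (max_le ((hE _).trans ?_) ?_)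
  · exact mul_le_mul_of_nonneg_left (pow_le_pow_of_le_one hρ hρ1 (by omega)) hC
  · rw [norm_neg]
    refine IsUltrametricDist.norm_sum_le_of_forall_le_of_nonneg (by positivity) fun k hk => ?_
    rw [norm_mul]
    refine (mul_le_of_le_one_right (norm_nonneg _)
      (IsUltrametricDist.norm_intCast_le_one K _)).trans ((hD k).trans ?_)
    exact mul_le_mul_of_nonneg_left
      (pow_le_pow_of_le_one hρ hρ1 (by have := (mem_Ico.1 hk).1; omega)) hC

/-- The Borel-Dwork criterion. -/
theorem borel_dwork {K : Type*} [NormedField K] [IsUltrametricDist K]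
    (hK : ∀ z : ℤ, z ≠ 0 → 1 ≤ ‖(z : K)‖ * |(z : ℝ)|) (f : ℕ → ℤ) (A c : ℝ) (hc : 1 ≤ c)
    (h : ∀ n, (|f n| : ℝ) ≤ A * c ^ n) (hq : Quo (PowerSeries.mk fun n => (f n : K))) :
    ∃ P B : Polynomial ℚ, B ≠ 0 ∧ (B : ℚ⟦X⟧) * PowerSeries.mk (fun n => (f n : ℚ)) = P := by
  obtain ⟨D, E, hD, hE, h0, hDE⟩ := hq
  have hA : 0 ≤ A := by simpa using (abs_nonneg _).trans (h 0)
  set ρ : ℝ := (4 * c ^ 2)⁻¹ with hρ
  have hρ0 : 0 < ρ := by positivity
  have hρ1 : ρ ≤ 1 := inv_le_one_of_one_le₀ (by nlinarith)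
  obtain ⟨C1, h1⟩ := hD ρ hρ0
  obtain ⟨C2, h2⟩ := hE ρ hρ0
  set C := max C1 C2
  have hC : 0 ≤ C := h1.nonneg.trans (le_max_left _ _)
  have hlim : Filter.Tendsto (fun s : ℕ => ∏ a ∈ range s, C * A * (1 / 2 : ℝ) ^ a) Filter.atTop
      (nhds 0) := by
    have h3 : Filter.Tendsto (fun a : ℕ => C * A * (1 / 2 : ℝ) ^ a) Filter.atTop (nhds 0) := by
      simpa using (tendsto_pow_atTop_nhds_zero_of_lt_one (r := (1 / 2 : ℝ)) (by norm_num)
        (by norm_num)).const_mul (C * A)
    refine Summable.tendsto_atTop_zero (summable_of_ratio_norm_eventually_le (r := 1 / 2)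
      (by norm_num) ?_)
    filter_upwards [h3.eventually (ge_mem_nhds (show (0 : ℝ) < 1 / 2 by norm_num))] with s hs
    rw [prod_range_succ, norm_mul, mul_comm]
    refine mul_le_mul_of_nonneg_right ?_ (norm_nonneg _)
    rwa [Real.norm_of_nonneg (by positivity)]
  obtain ⟨s₀, hs₀⟩ := Filter.eventually_atTop.1 (hlim.eventually (gt_mem_nhds zero_lt_one))
  refine kronecker _ s₀ fun s hs => ?_
  have hz : (hankel f s).det = 0 := by
    by_contra hne
    have h4 := hK _ hne
    have h5 := norm_hankel_le f hρ0.le hρ1 (h1.mono hρ0.le (le_max_left _ C2))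
      (h2.mono hρ0.le (le_max_right C1 _)) h0 hDE s
    have h6 := abs_hankel_le f A c hc h s
    have h7 := mul_le_mul h5 h6 (abs_nonneg _) (by positivity)
    rw [← prod_mul_distrib] at h7
    have h8 : ∏ a : Fin s, C * ρ ^ (a : ℕ) * (A * (2 * c ^ 2) ^ (a : ℕ)) =
        ∏ a ∈ range s, C * A * (1 / 2 : ℝ) ^ a := by
      rw [prod_range]
      refine prod_congr rfl fun a _ => ?_
      have : (1 / 2 : ℝ) = ρ * (2 * c ^ 2) := by rw [hρ]; field_simp; norm_num
      rw [this, mul_pow]
      ring
    rw [h8] at h7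
    linarith [hs₀ s hs]
  have := (Int.castRingHom ℚ).map_det (hankel f s)
  rw [hz, map_zero] at this
  exact this.symm

theorem eval_eq_zero_of_bd {K : Type*} [NormedField K] {h : K⟦X⟧} {ρ C : ℝ} {t : K}
    (hρ : 0 ≤ ρ) (hb : Bd ρ C h) (ht : ρ * ‖t‖ < 1) {P : Polynomial K}
    (e : ((Polynomial.X - Polynomial.C t : Polynomial K) : K⟦X⟧) * h = P) : P.eval t = 0 := by
  have hc : ∀ N, ∑ n ∈ range (N + 1), P.coeff n * t ^ n = -(t ^ (N + 1) * coeff N h) := by
    intro N
    rw [Polynomial.coe_sub, Polynomial.coe_X, Polynomial.coe_C, sub_mul] at e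
    induction N with
    | zero =>
      have := congrArg (coeff 0) e
      simp only [map_sub, coeff_zero_X_mul, coeff_C_mul, Polynomial.coeff_coe] at this
      simp [← this]
    | succ N ih =>
      have := congrArg (coeff (N + 1)) e
      simp only [map_sub, coeff_succ_X_mul, coeff_C_mul, Polynomial.coeff_coe] at this
      rw [sum_range_succ, ih, ← this]
      ring
  have hl : Filter.Tendsto (fun N : ℕ => ‖t‖ * C * (ρ * ‖t‖) ^ N) Filter.atTop (nhds 0) := by
    simpa using (tendsto_pow_atTop_nhds_zero_of_lt_one (by positivity) ht).const_mul (‖t‖ * C)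
  refine norm_le_zero_iff.1 (ge_of_tendsto hl ?_)
  filter_upwards [Filter.eventually_ge_atTop P.natDegree] with N hN
  rw [Polynomial.eval_eq_sum_range' (Nat.lt_succ_of_le hN), hc, norm_neg, norm_mul, norm_pow]
  calc _ ≤ ‖t‖ ^ (N + 1) * (C * ρ ^ N) := mul_le_mul_of_nonneg_left (hb N) (by positivity)
    _ = _ := by rw [mul_pow]; ring

theorem pow_dvd_of_bd {K : Type*} [NormedField K] [IsUltrametricDist K] {h : K⟦X⟧} {ρ C : ℝ}
    {t : K} (hρ : 0 < ρ) (hb : Bd ρ C h) (ht : ρ * ‖t‖ < 1) (a : ℕ) {P : Polynomial K}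
    (e : (((Polynomial.X - Polynomial.C t) ^ a : Polynomial K) : K⟦X⟧) * h = P) :
    (Polynomial.X - Polynomial.C t) ^ a ∣ P := by
  induction a generalizing P with
  | zero => simp
  | succ a ih =>
    obtain ⟨C', hC'⟩ := exists_bd_poly hρ ((Polynomial.X - Polynomial.C t) ^ a)
    rw [pow_succ', Polynomial.coe_mul, mul_assoc] at e
    obtain ⟨P', rfl⟩ := Polynomial.dvd_iff_isRoot.2
      (eval_eq_zero_of_bd hρ.le (hC'.mul hρ.le hb) ht e)
    rw [Polynomial.coe_mul] at e
    have hne : ((Polynomial.X - Polynomial.C t : Polynomial K) : K⟦X⟧) ≠ 0 := by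
      rw [Ne, Polynomial.coe_eq_zero_iff]
      exact Polynomial.X_sub_C_ne_zero t
    rw [pow_succ']
    exact mul_dvd_mul_left _ (ih (mul_left_cancel₀ hne e))

end Pool.Agent.Lib.Dwork
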