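import Mathlib

/-!
Stepanov's method: the curve `y ^ m = f x` with `deg f` prime to `m` has `Q + o(Q)` points.
-/

namespace Pool.Agent.Lib.Dwork

open Finset Polynomial

variable {E : Type*} [Field E]

theorem pow_dvd_hasseDeriv (f : E[X]) (s b : ℕ) : f ^ (s - b) ∣ hasseDeriv b (f ^ s) := by
  induction s generalizing b with
  | zero => simp
  | succ s ih =>
    rw [pow_succ f s, hasseDeriv_mul]
    refine dvd_sum fun ij hij => ?_
    have := mem_antidiagonal.1 hij
    rcases Nat.eq_zero_or_pos ij.2 with e | e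
    · rw [e, hasseDeriv_zero']
      refine (pow_dvd_pow f (show _ ≤ s - ij.1 + 1 by omega)).trans ?_
      rw [pow_succ]
      exact mul_dvd_mul_right (ih _) f
    · exact (pow_dvd_pow f (by omega)).trans ((ih _).mul_right _)

theorem exists_hasseDeriv_pow {f : E[X]} (hf : f ≠ 0) (s b : ℕ) :
    ∃ P : E[X], P.natDegree ≤ b * f.natDegree ∧ hasseDeriv b (f ^ s) = f ^ (s - b) * P := by
  obtain ⟨P, hP⟩ := pow_dvd_hasseDeriv f s b
  refine ⟨P, ?_, hP⟩
  rcases eq_or_ne P 0 with rfl | h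
  · simp
  have := natDegree_hasseDeriv_le (f ^ s) b
  rw [hP, natDegree_mul (pow_ne_zero _ hf) h, natDegree_pow, natDegree_pow, Nat.sub_mul] at this
  omega

variable [Fintype E]

theorem stepanov_pow [DecidableEq E] {m d J M : ℕ} (hE : Fintype.card E = m * d + 1) {f : E[X]}
    (hf : f ≠ 0) (hn : f.natDegree.Coprime m) (hM : m * J = M + 1)
    (hd : J + M * (M * f.natDegree + J) < d) (η : E) :
    M * #{x | f.eval x ≠ 0 ∧ f.eval x ^ d = η} ≤
      M * f.natDegree + d + m * d * f.natDegree + (m * d + 1) * (J - 1) := by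
  set n := f.natDegree with hn'
  have hm : 0 < m := Nat.pos_of_mul_pos_right (M.succ_pos.trans_eq hM.symm)
  have hJ : 0 < J := Nat.pos_of_mul_pos_left (M.succ_pos.trans_eq hM.symm)
  obtain ⟨L, rfl⟩ : ∃ L, d = L + J := ⟨d - J, by omega⟩
  choose P hP hP' using fun i b => exists_hasseDeriv_pow hf (M + i * (L + J)) b
  let Λ : ℕ → ℕ → E[X] →ₗ[E] E[X] := fun l i => ∑ ab ∈ antidiagonal l,
    LinearMap.mulRight E (P i ab.2 * f ^ ab.1) ∘ₗ hasseDeriv ab.1
  have hΛ : ∀ l i k, Λ l i k = ∑ ab ∈ antidiagonal l,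
      hasseDeriv ab.1 k * (P i ab.2 * f ^ ab.1) := fun l i k => by simp [Λ, mul_assoc]
  let T : (Fin m × Fin J → Fin L → E) →ₗ[E] Fin M → Fin (L + M * n + J) → E :=
    LinearMap.pi fun l => toFn _ ∘ₗ ∑ ij : Fin m × Fin J,
      LinearMap.mulLeft E (C (η ^ ij.1.1) * X ^ ij.2.1) ∘ₗ Λ l ij.1 ∘ₗ ofFn L ∘ₗ LinearMap.proj ij
  obtain ⟨c, hc, hc0⟩ := (Submodule.ne_bot_iff _).1 (LinearMap.ker_ne_bot_of_finrank_lt (f := T) (by
    simp only [Module.finrank_pi_fintype, Module.finrank_self, sum_const, card_univ,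
      Fintype.card_fin, Fintype.card_prod, smul_eq_mul, mul_one, hM]
    linarith only [hd]))
  have hL : 1 ≤ L := by omega
  have h1 : ∀ l < M, ∑ ij : Fin m × Fin J,
      C (η ^ ij.1.1) * X ^ ij.2.1 * Λ l ij.1 (ofFn L (c ij)) = 0 := fun l hl => by
    have h2 := congrFun (LinearMap.mem_ker.1 hc) ⟨l, hl⟩
    simp only [T, LinearMap.pi_apply, LinearMap.comp_apply, LinearMap.sum_apply,
      LinearMap.mulLeft_apply, LinearMap.proj_apply] at h2
    rw [← ofFn_comp_toFn_eq_id_of_natDegree_lt (n := L + M * n + J) (p := ∑ _, _), h2]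
    · exact map_zero _
    refine (natDegree_sum_le_of_forall_le _ _ (n := L + M * n + J - 1) fun ij _ => ?_).trans_lt
      (by omega)
    have h3 : (Λ l ij.1 (ofFn L (c ij))).natDegree ≤ L + M * n := by
      rw [hΛ]
      refine natDegree_sum_le_of_forall_le _ _ fun ab hab => natDegree_mul_le.trans
        (add_le_add ((natDegree_hasseDeriv_le _ _).trans ((Nat.sub_le _ _).trans
        (ofFn_natDegree_lt hL _).le)) (natDegree_mul_le.trans ?_))
      rw [natDegree_pow]
      refine (Nat.add_le_add_right (hP _ _) _).trans ?_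
      rw [← add_mul, add_comm, mem_antidiagonal.1 hab]
      exact Nat.mul_le_mul_right _ hl.le
    have h4 := natDegree_C_mul_X_pow_le (η ^ ij.1.1) ij.2.1
    have := ij.2.2
    exact natDegree_mul_le.trans (by omega)
  let t : Fin m × Fin J → E[X] := fun ij =>
    ofFn L (c ij) * f ^ (M + ij.1 * (L + J)) * X ^ (Fintype.card E * ij.2)
  have ht : ∀ ij, t ij ≠ 0 → ∃ δ < L, (t ij).natDegree =
      δ + (M + ij.1 * (L + J)) * n + (m * (L + J) + 1) * ij.2 := fun ij h =>
    ⟨_, ofFn_natDegree_lt hL (c ij), by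
      rw [natDegree_mul_X_pow _ (left_ne_zero_of_mul h), natDegree_mul
        (left_ne_zero_of_mul (left_ne_zero_of_mul h)) (pow_ne_zero _ hf), natDegree_pow, hE]⟩
  have h2 : ∑ ij, t ij ≠ 0 := by
    obtain ⟨ij, hij⟩ := Function.ne_iff.1 hc0
    have h3 : t ij ≠ 0 := mul_ne_zero (mul_ne_zero (fun e => hij (injective_ofFn L
      (e.trans (map_zero _).symm))) (pow_ne_zero _ hf)) (pow_ne_zero _ X_ne_zero)
    rw [← degree_ne_bot, degree_sum_eq_of_disjoint]
    · exact ne_bot_of_le_ne_bot (degree_ne_bot.2 h3) (le_sup (f := fun i => degree (t i))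
        (mem_univ ij))
    rintro ⟨i, j⟩ ⟨-, ha⟩ ⟨i', j'⟩ ⟨-, hb⟩ hab e
    obtain ⟨δ, h4, h5⟩ := ht _ ha
    obtain ⟨δ', h6, h7⟩ := ht _ hb
    have h8 := h5.symm.trans ((natDegree_eq_of_degree_eq e).trans h7)
    have h9 : δ + j = δ' + j' := by
      refine Nat.ModEq.eq_of_lt_of_lt (m := L + J) ?_ (by omega) (by omega)
      refine Nat.ModEq.add_right_cancel' (M * n) ?_
      have := congrArg (· % (L + J)) h8
      simp only at this
      rwa [show δ + (M + i * (L + J)) * n + (m * (L + J) + 1) * j =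
          δ + j + M * n + (L + J) * (i * n + m * j) by ring,
        show δ' + (M + i' * (L + J)) * n + (m * (L + J) + 1) * j' =
          δ' + j' + M * n + (L + J) * (i' * n + m * j') by ring,
        Nat.add_mul_mod_self_left, Nat.add_mul_mod_self_left] at this
    have h10 : i * n + m * j = i' * n + m * j' :=
      Nat.eq_of_mul_eq_mul_left (show 0 < L + J by omega) (by simp only at h8; linarith only [h8, h9])
    obtain rfl : i = i' := by
      refine Fin.ext (Nat.ModEq.eq_of_lt_of_lt (Nat.ModEq.cancel_right_of_coprime hn.symm ?_)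
        i.2 i'.2)
      have := congrArg (· % m) h10
      simpa only [Nat.add_mul_mod_self_left, Nat.ModEq] using this
    exact hab (Prod.ext rfl (Fin.ext (Nat.eq_of_mul_eq_mul_left hm (Nat.add_left_cancel h10))))
  have h3 : ∏ x with f.eval x ≠ 0 ∧ f.eval x ^ (L + J) = η, (X - C x) ^ M ∣ ∑ ij, t ij := by
    refine Finset.prod_dvd_of_coprime (fun a _ b _ hab =>
      (pairwise_coprime_X_sub_C (s := id) Function.injective_id hab).pow) fun x hx => ?_
    obtain ⟨-, hx0, hx⟩ := mem_filter.1 hx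
    rw [← sub_add_cancel (∑ ij, t ij) (∑ ij : Fin m × Fin J,
      C (x ^ ij.2.1) * (ofFn L (c ij) * f ^ (M + ij.1 * (L + J)))), ← sum_sub_distrib]
    refine dvd_add (dvd_sum fun ij _ => ?_) ?_
    · rw [mul_comm (C _), ← mul_sub, pow_mul, map_pow]
      refine ((pow_dvd_pow _ (show M ≤ Fintype.card E by linarith only [hM, hE, mul_nonneg_of_nonpos_of_nonpos (Mathlib.Tactic.Linarith.sub_nonpos_of_le (Mathlib.Tactic.Linarith.natCast_nonneg ℤ m)) (Mathlib.Tactic.Linarith.sub_nonpos_of_le (Mathlib.Tactic.Linarith.natCast_nonneg ℤ L))])).trans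
        (dvd_trans (dvd_of_eq ?_) (sub_dvd_pow_sub_pow _ _ _))).mul_left _
      obtain ⟨p, hp⟩ := CharP.exists E
      obtain ⟨s, hp', hs⟩ := FiniteField.card E p
      have := Fact.mk hp'
      rw [hs, sub_pow_char_pow, ← map_pow, ← hs, FiniteField.pow_card]
    rw [X_sub_C_pow_dvd_iff, X_pow_dvd_iff]
    intro l hl
    have h4 := congrArg (eval x · * f.eval x ^ (M - l)) (h1 l hl)
    simp only [eval_zero, zero_mul, eval_finsetSum, sum_mul, hΛ, mul_sum] at h4
    rw [← taylor_apply, taylor_coeff, map_sum, eval_finsetSum, ← h4]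
    refine sum_congr rfl fun ij _ => ?_
    rw [← smul_eq_C_mul, map_smul, smul_eq_C_mul, hasseDeriv_mul, mul_sum, eval_finsetSum]
    refine sum_congr rfl fun ab hab => ?_
    have := mem_antidiagonal.1 hab
    rw [hP', show M + ij.1 * (L + J) - ab.2 = (L + J) * ij.1 + (ab.1 + (M - l)) by
      rw [mul_comm]; omega]
    simp only [eval_mul, eval_C, eval_pow, eval_X, pow_add _ (_ * _), pow_mul, hx, pow_add _ ab.1]
    ring
  have h4 := natDegree_le_of_dvd h3 h2
  rw [natDegree_prod_of_monic _ _ fun x _ => (monic_X_sub_C x).pow M] at h4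
  simp only [natDegree_pow, natDegree_X_sub_C, mul_one, sum_const, smul_eq_mul] at h4
  rw [mul_comm]
  refine h4.trans (natDegree_sum_le_of_forall_le _ _ fun ij _ => ?_)
  by_cases h : t ij = 0
  · simp [h]
  obtain ⟨δ, h5, h6⟩ := ht ij h
  rw [h6, add_mul]
  have := Nat.mul_le_mul_left (m * (L + J) + 1) (Nat.le_sub_one_of_lt ij.2.2)
  have := Nat.mul_le_mul_right n (Nat.mul_le_mul_right (L + J) ij.1.2.le)
  omega

theorem card_pow_eq [DecidableEq E] {m d : ℕ} (hE : Fintype.card E = m * d + 1) {t : E}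
    (ht : t ≠ 0) : Nat.card {z // z ^ m = t} = if t ^ d = 1 then m else 0 := by
  have hmd : m * d ≠ 0 := fun e => absurd (e ▸ hE) Fintype.one_lt_card.ne'
  have hm := left_ne_zero_of_mul hmd
  have hd := right_ne_zero_of_mul hmd
  obtain ⟨g, hg⟩ := IsCyclic.exists_generator (α := Eˣ)
  have ho : orderOf g = d * m := by
    rw [orderOf_eq_card_of_forall_mem_zpowers hg, Nat.card_eq_fintype_card, Fintype.card_units, hE,
      mul_comm, Nat.add_sub_cancel]
  have hη : IsPrimitiveRoot ((g : E) ^ d) m :=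
    (IsPrimitiveRoot.coe_units_iff.2 (IsPrimitiveRoot.orderOf g)).pow (by rw [ho]; positivity) ho
  have h2 : Nat.card {z // z ^ m = t} = (nthRoots m t).card := by
    rw [← Multiset.toFinset_card_of_nodup (hη.nthRoots_nodup ht), Nat.card_eq_fintype_card,
      Fintype.card_subtype]
    congr 1
    ext z
    simp [mem_nthRoots (Nat.pos_of_ne_zero hm)]
  have h3 : (∃ a, a ^ m = t) ↔ t ^ d = 1 := by
    constructor
    · rintro ⟨a, rfl⟩
      rw [← pow_mul, show m * d = Fintype.card E - 1 by omega]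
      exact FiniteField.pow_card_sub_one_eq_one a fun e => ht (by rw [e, zero_pow hm])
    · intro h
      obtain ⟨a, ha⟩ := (Submonoid.mem_powers_iff _ _).1
        (mem_powers_iff_mem_zpowers.2 (hg (Units.mk0 t ht)))
      have e : g ^ (d * a) = 1 := by
        rw [mul_comm, pow_mul, ha]
        exact Units.ext h
      obtain ⟨c, rfl⟩ := Nat.dvd_of_mul_dvd_mul_left (Nat.pos_of_ne_zero hd)
        (ho ▸ orderOf_dvd_of_pow_eq_one e)
      exact ⟨(g ^ c : Eˣ), by rw [← Units.val_pow_eq_pow_val, ← pow_mul, mul_comm, ha]; rfl⟩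
  rw [h2, hη.card_nthRoots]
  simp only [h3]

/-- A weak form of the Weil bound. -/
theorem curve_count (m n : ℕ) (hn : n.Coprime m) {ε : ℝ} (hε : 0 < ε) : ∃ Q : ℕ,
    ∀ (E : Type) [Field E] [Fintype E] (d : ℕ), Fintype.card E = m * d + 1 → Q ≤ d →
      ∀ f : E[X], f ≠ 0 → f.natDegree = n →
        |(Nat.card {v : E × E // v.2 ^ m = f.eval v.1} : ℝ) - Fintype.card E| ≤
          ε * Fintype.card E := by
  classical
  obtain ⟨J, hJ⟩ := exists_nat_gt (2 * m ^ 2 * (n + 1) / ε + 1)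
  obtain ⟨Q, hQ⟩ := exists_nat_gt (2 * (m + m ^ 2) * n / ε)
  refine ⟨Q + J + (m * J - 1) * ((m * J - 1) * n + J) + 1, fun E _ _ d hE hd f hf hf' => ?_⟩
  subst hf'
  have hmd : m * d ≠ 0 := fun e => absurd (e ▸ hE) Fintype.one_lt_card.ne'
  have hm := Nat.pos_of_ne_zero (left_ne_zero_of_mul hmd)
  have hJ1 : (1 : ℝ) < J := lt_of_le_of_lt (le_add_of_nonneg_left (by positivity)) hJ
  have hJ2 : 1 < J := by exact_mod_cast hJ1
  have hmJ := Nat.le_mul_of_pos_left J hm
  obtain ⟨M, hM⟩ : ∃ M, m * J = M + 1 := ⟨m * J - 1, by omega⟩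
  rw [hM, Nat.add_sub_cancel] at hd
  obtain ⟨J, rfl⟩ : ∃ J', J = J' + 1 := ⟨J - 1, by omega⟩
  let z : E → ℕ := fun η => #{x | f.eval x ≠ 0 ∧ f.eval x ^ d = η}
  set q : ℝ := (Fintype.card E : ℝ) with hq
  have hq' : q = m * d + 1 := by rw [hq, hE]; push_cast; rfl
  have hm1 : (1 : ℝ) ≤ m := by exact_mod_cast hm
  have hdq : (d : ℝ) ≤ q := by (refine le_of_not_gt fun h_nl => ?_; linarith only [h_nl, hq', hm1, d.cast_nonneg (α := ℝ), mul_nonneg_of_nonpos_of_nonpos (Mathlib.Tactic.Linarith.sub_nonpos_of_le (Mathlib.Tactic.Linarith.natCast_nonneg ℝ (Fintype.card E))) (Mathlib.Tactic.Linarith.sub_nonpos_of_le hm1), mul_nonneg_of_nonpos_of_nonpos (Mathlib.Tactic.Linarith.sub_nonpos_of_le (Mathlib.Tactic.Linarith.natCast_nonneg ℝ m)) (le_of_lt (Mathlib.Tactic.Linarith.sub_neg_of_lt h_nl))])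
  have hQq : (Q : ℝ) ≤ q := le_trans (by exact_mod_cast (by omega : Q ≤ d)) hdq
  have hM' : (m : ℝ) * (J + 1) = M + 1 := by exact_mod_cast hM
  have hJM : (J : ℝ) ≤ M := by exact_mod_cast (by omega : J ≤ M)
  have hM0 : (0 : ℝ) < M := by exact_mod_cast (by omega : 0 < M)
  set n : ℝ := (f.natDegree : ℝ) with hn'
  have hn0 : 0 ≤ n := by positivity
  have h1 : ∀ η, (m : ℝ) * (m * z η) ≤ m * q + m ^ 2 * n + ε / 2 * q := fun η => by
    have h2 : (M : ℝ) * z η ≤ M * n + d + m * d * n + (m * d + 1) * J := by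
      rw [hn']
      exact_mod_cast stepanov_pow hE hf hn hM (by omega) η
    have h3 : 2 * m ^ 2 * (n + 1) ≤ ε * M := by
      push_cast at hJ
      rw [add_lt_add_iff_right, div_lt_iff₀ hε] at hJ
      linarith only [hJ, hε, hJM, mul_nonneg_of_nonpos_of_nonpos (le_of_lt (Mathlib.Tactic.Linarith.sub_neg_of_lt hε)) (Mathlib.Tactic.Linarith.sub_nonpos_of_le hJM)]
    rw [← hq'] at h2
    refine le_of_mul_le_mul_left ?_ hM0
    have h4 : (d : ℝ) + m * d * n ≤ (n + 1) * q := by linarith only [hdq, hq', Mathlib.Tactic.Linarith.mul_zero_eq (Mathlib.Tactic.Linarith.sub_nonpos_of_le (Mathlib.Tactic.Linarith.natCast_nonneg ℝ f.natDegree)) (sub_eq_zero_of_eq hq')]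
    have h5 : m * (q * J) ≤ q * M := by linarith only [hm1, hM', mul_nonneg_of_nonpos_of_nonpos (Mathlib.Tactic.Linarith.sub_nonpos_of_le (Mathlib.Tactic.Linarith.natCast_nonneg ℝ (Fintype.card E))) (Mathlib.Tactic.Linarith.sub_nonpos_of_le hm1), Mathlib.Tactic.Linarith.mul_zero_eq (Mathlib.Tactic.Linarith.sub_nonpos_of_le (Mathlib.Tactic.Linarith.natCast_nonneg ℝ (Fintype.card E))) (sub_eq_zero_of_eq hM')]
    have h6 := mul_le_mul_of_nonneg_left (h2.trans (show _ ≤ M * n + (n + 1) * q + q * J by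
      linarith only [h4])) (show (0 : ℝ) ≤ m ^ 2 by positivity)
    have h7 := mul_le_mul_of_nonneg_left h5 (show (0 : ℝ) ≤ m by positivity)
    have h8 := mul_le_mul_of_nonneg_right h3 (show (0 : ℝ) ≤ q by positivity)
    linarith only [h6, h7, h8]
  have h2 : #{x | f.eval x = 0} ≤ f.natDegree :=
    card_le_degree_of_subset_roots fun x hx => (mem_roots hf).2 (mem_filter.1 hx).2
  have h3 : Nat.card {v : E × E // v.2 ^ m = f.eval v.1} = #{x | f.eval x = 0} + m * z 1 := by
    rw [Nat.card_congr (Equiv.subtypeProdEquivSigmaSubtype fun x y => y ^ m = f.eval x),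
      Nat.card_sigma]
    simp only [z, card_filter, mul_sum, ← sum_add_distrib]
    refine sum_congr rfl fun x _ => ?_
    by_cases h : f.eval x = 0
    · simp [h, hm.ne']
    · simp [h, card_pow_eq hE h, -Nat.card_eq_fintype_card]
  have h4 : Fintype.card E ≤ #{x | f.eval x = 0} + (z 1 +
      ∑ η ∈ (nthRootsFinset m 1).erase 1, z η) := by
    rw [add_sum_erase _ _ ((mem_nthRootsFinset hm _).2 (one_pow _)), ← card_univ,
      ← card_filter_add_card_filter_not fun x => f.eval x = 0, card_eq_sum_card_fiberwise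
      (s := {x | ¬ f.eval x = 0}) (t := nthRootsFinset m 1) (f := fun x => f.eval x ^ d)]
    · simp only [filter_filter]
      rfl
    · intro x hx
      rw [mem_coe, mem_nthRootsFinset hm, ← pow_mul, mul_comm, show m * d = Fintype.card E - 1 by
        omega]
      exact FiniteField.pow_card_sub_one_eq_one _ (mem_filter.1 hx).2
  have h5 : (#((nthRootsFinset m (1 : E)).erase 1) : ℝ) ≤ m - 1 := by
    have := (Multiset.toFinset_card_le _).trans (card_nthRoots m (1 : E))
    rw [card_erase_of_mem ((mem_nthRootsFinset hm _).2 (one_pow _)), ← Nat.cast_pred hm]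
    exact_mod_cast Nat.sub_le_sub_right (nthRootsFinset_def m (1 : E) ▸ this) 1
  have h6 := (sum_le_card_nsmul _ _ _ fun η (_ : η ∈ (nthRootsFinset m (1 : E)).erase 1) =>
    h1 η).trans ((nsmul_eq_mul _ _).trans_le (mul_le_mul_of_nonneg_right h5 (by positivity)))
  rw [← mul_sum, ← mul_sum, ← Nat.cast_sum] at h6
  have h7 : q ≤ #{x | f.eval x = 0} + (z 1 +
    (∑ η ∈ (nthRootsFinset m 1).erase 1, z η : ℕ) : ℝ) := hq.trans_le (by exact_mod_cast h4)
  have h8 : (#{x | f.eval x = 0} : ℝ) ≤ n := Nat.cast_le.2 h2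
  have h9 := h1 1
  rw [div_lt_iff₀ hε] at hQ
  have h10 : 2 * (m + m ^ 2) * n ≤ ε * q := by linarith only [hQ, hε, hQq, mul_nonneg_of_nonpos_of_nonpos (le_of_lt (Mathlib.Tactic.Linarith.sub_neg_of_lt hε)) (Mathlib.Tactic.Linarith.sub_nonpos_of_le hQq)]
  have h11 : (0 : ℝ) ≤ #{x | f.eval x = 0} := by positivity
  have h12 : 0 ≤ ε * q := by positivity
  rw [h3, Nat.cast_add, Nat.cast_mul, abs_le]
  generalize (#{x | f.eval x = 0} : ℝ) = r at *
  generalize ((∑ η ∈ (nthRootsFinset m 1).erase 1, z η : ℕ) : ℝ) = S at *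
  have h13 : (0 : ℝ) < m := by positivity
  constructor <;> refine le_of_mul_le_mul_left ?_ h13
  · have := mul_le_mul_of_nonneg_left h7 (show (0 : ℝ) ≤ m * m by positivity)
    have := mul_le_mul_of_nonneg_left h8 (show (0 : ℝ) ≤ m * m by positivity)
    have := mul_le_mul_of_nonneg_left h10 h13.le
    have := mul_nonneg h13.le h11
    have := mul_nonneg (mul_nonneg h13.le h13.le) hn0
    nlinarith
  · have := mul_le_mul_of_nonneg_left h8 h13.le
    have := mul_le_mul_of_nonneg_right hm1 h12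
    nlinarith

end Pool.Agent.Lib.Dwork
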