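import Pool.Agent.Lib.Dwork.Reg
import Pool.Agent.Lib.Dwork.Curve

/-!
Conjugate character sums have poles at the same rational points. Counting lemmas.
-/

namespace Pool.Agent.Lib.Dwork

open Finset hiding mk
open PowerSeries

theorem card_eq_sum {α : Type*} [Fintype α] (P : α → Prop) [DecidablePred P] (R : Type*)
    [Semiring R] : (Nat.card {v // P v} : R) = ∑ v, if P v then 1 else 0 := by
  rw [sum_boole, Nat.card_eq_fintype_card, Fintype.card_subtype]

theorem finsum_subtype {α R : Type*} [Fintype α] [AddCommMonoid R] (P : α → Prop) [DecidablePred P]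
    (g : α → R) : ∑ᶠ x : {x // P x}, g x = ∑ x, if P x then g x else 0 := by
  rw [finsum_eq_sum_of_fintype, ← sum_filter]
  exact (sum_subtype _ (by simp) g).symm

theorem sum_option_fun {σ E R : Type*} [Fintype σ] [DecidableEq σ] [Fintype E] [AddCommMonoid R]
    (g : (Option σ → E) → R) : ∑ u, g u = ∑ v : σ → E, ∑ a, g fun o => o.elim a v := by
  rw [← (Equiv.piOptionEquivProd (β := fun _ => E)).symm.sum_comp, Fintype.sum_prod_type_right]
  refine sum_congr rfl fun v _ => sum_congr rfl fun a _ => congrArg g ?_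
  ext (_ | _) <;> rfl

section Roots

variable {K : Type*} [Field K] [DecidableEq K] {M : ℕ} {ζ θ : K}

theorem root_pow_eq_sum (hM : M ≠ 0) (hζ : IsPrimitiveRoot ζ M) (hθ : θ = 0 ∨ θ ^ M = 1) {u : ℕ}
    (hu : u ≠ 0) : θ ^ u = ∑ j : Fin M, (ζ ^ u) ^ j.1 * if θ = ζ ^ j.1 then 1 else 0 := by
  have : NeZero M := ⟨hM⟩
  rcases hθ with rfl | hθ
  · simp [hu, (pow_ne_zero _ (hζ.ne_zero hM)).symm]
  obtain ⟨j, hj, rfl⟩ := hζ.eq_pow_of_pow_eq_one hθ
  rw [sum_eq_single ⟨j, hj⟩, if_pos rfl, mul_one, pow_right_comm]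
  · intro i _ hi
    rw [if_neg fun e => hi (Fin.ext (hζ.pow_inj hj i.2 e).symm), mul_zero]
  · simp

theorem root_ite_eq_sum (hθ : θ = 0 ∨ θ ^ M = 1) {η : K} (hη : η ^ M = 1) (h0 : η ≠ 0) :
    (M : K) * (if θ = η then 1 else 0) = ∑ k ∈ range M, η⁻¹ ^ (k + 1) * θ ^ (k + 1) := by
  simp only [← mul_pow]
  rcases hθ with rfl | hθ
  · simp [h0.symm]
  split_ifs with h
  · simp [h, h0]
  · have h2 := geom_sum_mul (η⁻¹ * θ) M
    rw [mul_pow _ _ M, hθ, inv_pow, hη, inv_one, mul_one, sub_self, mul_eq_zero, sub_eq_zero,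
      inv_mul_eq_one₀ h0] at h2
    simp only [pow_succ, ← sum_mul]
    rw [h2.resolve_right (Ne.symm h), zero_mul, mul_zero]

theorem card_roots_eq_sum {E : Type*} [Field E] [Fintype E] {ω : E →*₀ K}
    (hω : Function.Injective ω) {m d : ℕ} (hE : Fintype.card E = m * d + 1) (t : E) :
    (Nat.card {z // z ^ m = t} : K) = ∑ k ∈ range m, ω t ^ (k * d) := by
  classical
  have hmd : m * d ≠ 0 := fun e => absurd (e ▸ hE) Fintype.one_lt_card.ne'
  have hm := left_ne_zero_of_mul hmd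
  have hd := right_ne_zero_of_mul hmd
  rcases eq_or_ne t 0 with rfl | ht
  · rw [sum_eq_single 0 (fun b _ hb => by simp [hb, hd]) (by simp [hm])]
    simp [hm]
  have e : (ω t ^ d) ^ m = 1 := by
    rw [← pow_mul, mul_comm, ← map_pow, show m * d = Fintype.card E - 1 by omega,
      FiniteField.pow_card_sub_one_eq_one t ht, map_one]
  have h1 := root_ite_eq_sum (.inr e) (one_pow m) one_ne_zero
  have h2 := (sum_range_succ' (fun k => (ω t ^ d) ^ k) m).symm.trans (sum_range_succ _ m)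
  rw [e, pow_zero, add_left_inj] at h2
  simp only [inv_one, one_pow, one_mul, h2] at h1
  simp only [← pow_mul, mul_comm d] at h1
  rw [← h1, card_pow_eq hE ht, ← map_pow, ← map_one ω]
  simp only [hω.eq_iff]
  split_ifs <;> simp

end Roots

variable {p : ℕ} [hp : Fact p.Prime]

theorem reg_conj_sum {σ : Type} [Fintype σ] [DecidableEq σ] {E : ℕ → Type} [∀ n, Fintype (E n)]
    {q M u : ℕ} (hq : 0 < q) (hE : ∀ n, Fintype.card (E n) = q ^ (n + 1)) (hM : M ≠ 0)
    (hu : u.Coprime M) (hu0 : u ≠ 0) (θ : ∀ n, (σ → E n) → ℂ_[p])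
    (hθ : ∀ n v, θ n v = 0 ∨ θ n v ^ M = 1)
    (h : ∀ k, Mero (X * mk fun n => ∑ v, θ n v ^ (k + 1))) {t : ℚ}
    (hr : Filter.Tendsto (fun n => (∑ v, θ n v ^ u) * (t : ℂ_[p]) ^ (n + 1)) Filter.atTop
      (nhds 0)) :
    Reg (t : ℂ_[p]) (X * mk fun n => ∑ v, θ n v) := by
  classical
  have : NeZero M := ⟨hM⟩
  obtain ⟨ζ, hζ⟩ := HasEnoughRootsOfUnity.exists_primitiveRoot ℂ_[p] M
  let R : Fin M → ℚ⟦X⟧ := fun j => X * mk fun n => (Nat.card {v // θ n v = ζ ^ j.1} : ℚ)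
  have key : ∀ u, u ≠ 0 → (X * mk fun n => ∑ v, θ n v ^ u) =
      ∑ j : Fin M, C ((ζ ^ u) ^ j.1) * PowerSeries.map (algebraMap ℚ ℂ_[p]) (R j) := fun u hu => by
    ext (_ | n)
    · simp [R]
    simp only [R, map_X_mk, map_sum, coeff_C_mul, coeff_succ_X_mul, coeff_mk, map_natCast]
    simp only [card_eq_sum, mul_sum, root_pow_eq_sum hM hζ (hθ n _) hu]
    exact sum_comm
  have hR : ∀ j, IsRat (R j) := fun j => by
    refine isRat_count (p := p) hq (fun n => by rw [Nat.card_eq_fintype_card, hE]) _ ?_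
    convert Quo.sum (range M) fun k _ => (h k).quo.smul ((M : ℂ_[p])⁻¹ * (ζ ^ j.1)⁻¹ ^ (k + 1))
    ext (_ | n)
    · simp
    simp only [map_sum, coeff_C_mul, coeff_succ_X_mul, coeff_mk, card_eq_sum, mul_sum, mul_assoc]
    rw [sum_comm]
    refine sum_congr rfl fun v _ => ?_
    rw [← mul_sum, ← root_ite_eq_sum (hθ n v) (by rw [pow_right_comm, hζ.pow_eq_one, one_pow])
      (pow_ne_zero _ (hζ.ne_zero hM)), inv_mul_cancel_left₀ (Nat.cast_ne_zero.2 hM)]
  have h1 := key 1 one_ne_zero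
  simp only [pow_one] at h1
  rw [h1]
  refine Reg.conj (Nat.pos_of_ne_zero hM) (hζ.pow_of_coprime u hu) hζ _ _ hR
    ((IsRat.sum _ fun j _ => ((hR j).map _).smul _).reg_of_tendsto ?_)
  rw [← key u hu0, ← Filter.tendsto_add_atTop_iff_nat 1]
  simpa only [coeff_succ_X_mul, coeff_mk] using hr

end Pool.Agent.Lib.Dwork
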