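import Pool.Agent.Lib.Dwork.Alg

/-!
Rational power series that are regular at a point; descent, decay and Galois conjugation.
-/

namespace Pool.Agent.Lib.Dwork

open Finset PowerSeries Filter Topology

theorem map_X_mk {R S : Type*} [CommRing R] [CommRing S] (f : R →+* S) (a : ℕ → R) :
    PowerSeries.map f (X * PowerSeries.mk a) = X * PowerSeries.mk fun n => f (a n) := by
  ext (_ | n) <;> simp [coeff_succ_X_mul]

section Field

variable {K : Type*} [Field K] {t : K} {v w : K⟦X⟧}

/-- `w` is a rational function. -/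
def IsRat (w : K⟦X⟧) : Prop := ∃ P B : Polynomial K, B ≠ 0 ∧ B * w = P

/-- `w` is a rational function without pole at `t`. -/
def Reg (t : K) (w : K⟦X⟧) : Prop := ∃ U V : Polynomial K, V.eval t ≠ 0 ∧ V * w = U

theorem Reg.isRat (h : Reg t w) : IsRat w :=
  let ⟨U, V, h1, h2⟩ := h
  ⟨U, V, fun e => h1 (by simp [e]), h2⟩

theorem reg_poly (P : Polynomial K) : Reg t (P : K⟦X⟧) := ⟨P, 1, by simp, by simp⟩

theorem Reg.add (h : Reg t v) (h' : Reg t w) : Reg t (v + w) := by
  obtain ⟨U, V, h1, h2⟩ := h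
  obtain ⟨U', V', h3, h4⟩ := h'
  refine ⟨U * V' + V * U', V * V', by simp [h1, h3], ?_⟩
  simp only [Polynomial.coe_mul, Polynomial.coe_add, ← h2, ← h4]
  ring

theorem Reg.mul (h : Reg t v) (h' : Reg t w) : Reg t (v * w) := by
  obtain ⟨U, V, h1, h2⟩ := h
  obtain ⟨U', V', h3, h4⟩ := h'
  refine ⟨U * U', V * V', by simp [h1, h3], ?_⟩
  simp only [Polynomial.coe_mul, ← h2, ← h4]
  ring

theorem Reg.smul (h : Reg t w) (c : K) : Reg t (C c * w) := by
  simpa using (reg_poly (Polynomial.C c)).mul h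

theorem Reg.neg (h : Reg t w) : Reg t (-w) := by simpa using h.smul (-1)

theorem Reg.sum {ι : Type*} (s : Finset ι) {f : ι → K⟦X⟧} (h : ∀ i ∈ s, Reg t (f i)) :
    Reg t (∑ i ∈ s, f i) :=
  sum_induction _ _ (fun _ _ => Reg.add) (by simpa using reg_poly (t := t) 0) h

theorem IsRat.add (h : IsRat v) (h' : IsRat w) : IsRat (v + w) := by
  obtain ⟨U, V, h1, h2⟩ := h
  obtain ⟨U', V', h3, h4⟩ := h'
  refine ⟨U * V' + V * U', V * V', mul_ne_zero h1 h3, ?_⟩
  simp only [Polynomial.coe_mul, Polynomial.coe_add, ← h2, ← h4]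
  ring

theorem IsRat.mul (h : IsRat v) (h' : IsRat w) : IsRat (v * w) := by
  obtain ⟨U, V, h1, h2⟩ := h
  obtain ⟨U', V', h3, h4⟩ := h'
  refine ⟨U * U', V * V', mul_ne_zero h1 h3, ?_⟩
  simp only [Polynomial.coe_mul, ← h2, ← h4]
  ring

theorem IsRat.smul (h : IsRat w) (c : K) : IsRat (C c * w) := by
  simpa using (reg_poly (t := 0) (Polynomial.C c)).isRat.mul h

theorem IsRat.neg (h : IsRat w) : IsRat (-w) := by simpa using h.smul (-1)

theorem IsRat.sum {ι : Type*} (s : Finset ι) {f : ι → K⟦X⟧} (h : ∀ i ∈ s, IsRat (f i)) :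
    IsRat (∑ i ∈ s, f i) :=
  sum_induction _ _ (fun _ _ => IsRat.add) (by simpa using (reg_poly (t := (0 : K)) 0).isRat) h

theorem IsRat.map {L : Type*} [Field L] (f : K →+* L) (h : IsRat w) : IsRat (map f w) := by
  obtain ⟨U, V, h1, h2⟩ := h
  refine ⟨U.map f, V.map f, Polynomial.map_ne_zero h1, ?_⟩
  rw [Polynomial.polynomial_map_coe, Polynomial.polynomial_map_coe, ← map_mul, h2]

theorem IsRat.split (h : IsRat w) (t : K) : ∃ (a : ℕ) (P V : Polynomial K), V.eval t ≠ 0 ∧
    (((Polynomial.X - Polynomial.C t) ^ a : Polynomial K) : K⟦X⟧) * (V * w) = P := by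
  obtain ⟨P, B, h1, h2⟩ := h
  obtain ⟨V, h3, h4⟩ := Polynomial.exists_eq_pow_rootMultiplicity_mul_and_not_dvd B h1 t
  rw [Polynomial.dvd_iff_isRoot] at h4
  exact ⟨_, P, V, h4, by rw [← mul_assoc, ← Polynomial.coe_mul, ← h3, h2]⟩

theorem reg_iff_dvd {a : ℕ} {P V : Polynomial K} (hV : V.eval t ≠ 0)
    (h : (((Polynomial.X - Polynomial.C t) ^ a : Polynomial K) : K⟦X⟧) * (V * w) = P) :
    Reg t w ↔ (Polynomial.X - Polynomial.C t) ^ a ∣ P := by
  constructor
  · rintro ⟨U', V', h1, h2⟩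
    refine IsCoprime.dvd_of_dvd_mul_left (y := V') (IsCoprime.pow_left ?_) ⟨V * U', ?_⟩
    · exact ((Polynomial.irreducible_X_sub_C t).coprime_iff_not_dvd).2
        (Polynomial.dvd_iff_isRoot.not.2 h1)
    · apply Polynomial.coe_injective
      simp only [Polynomial.coe_mul, ← h, ← h2]
      ring
  · rintro ⟨U, rfl⟩
    exact ⟨U, V, hV, mul_left_cancel₀ (coe_pow_ne_zero t a) (h.trans (Polynomial.coe_mul _ _))⟩

theorem IsRat.reg_of_map {L : Type*} [Field L] (f : K →+* L) (h : IsRat w)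
    (h' : Reg (f t) (PowerSeries.map f w)) : Reg t w := by
  obtain ⟨a, P, V, h1, h2⟩ := h.split t
  have h3 := congrArg (PowerSeries.map f) h2
  rw [map_mul, map_mul, ← Polynomial.polynomial_map_coe, ← Polynomial.polynomial_map_coe,
    ← Polynomial.polynomial_map_coe] at h3
  have e : ((Polynomial.X - Polynomial.C t) ^ a).map f =
      (Polynomial.X - Polynomial.C (f t)) ^ a := by simp
  rw [reg_iff_dvd h1 h2, ← Polynomial.map_dvd_map' f, e]
  rw [e] at h3
  exact (reg_iff_dvd (by simpa [Polynomial.eval_map_apply] using h1) h3).1 h'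

theorem LD.isRat_sub [CharZero K] {Z Z' L : K⟦X⟧} (h : LD v Z) (h' : LD w Z') (hL : LD (v - w) L)
    (hZ : IsRat Z) (hZ' : IsRat Z') : IsRat L := by
  obtain ⟨U, V, h1, h2⟩ := hZ
  obtain ⟨U', V', h3, h4⟩ := hZ'
  have e : L * Z' = Z := LD.unique (by simpa using hL.mul h') h
  refine ⟨U * V', V * U', mul_ne_zero h1 fun e' => ?_, ?_⟩
  · rw [e', Polynomial.coe_zero, mul_eq_zero, Polynomial.coe_eq_zero_iff] at h4
    exact h4.elim h3 fun e => by simpa [e] using h'.1
  · simp only [Polynomial.coe_mul, ← h2, ← h4, ← e]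
    ring

/-- Galois conjugation. -/
theorem Reg.conj [CharZero K] {M : ℕ} (hM : 0 < M) {ζ ζ' : K} (hζ : IsPrimitiveRoot ζ M)
    (hζ' : IsPrimitiveRoot ζ' M) {ι : Type*} [Fintype ι] (a : ι → ℕ) (R : ι → ℚ⟦X⟧)
    (hR : ∀ j, IsRat (R j)) {t : ℚ}
    (h : Reg (t : K) (∑ j, C (ζ ^ a j) * PowerSeries.map (algebraMap ℚ K) (R j))) :
    Reg (t : K) (∑ j, C (ζ' ^ a j) * PowerSeries.map (algebraMap ℚ K) (R j)) := by
  classical
  choose P B hB hP using hR
  have h1 : ∀ j, ∃ P : Polynomial ℚ, (∏ j, B j : Polynomial ℚ) * R j = P := fun j => by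
    obtain ⟨c, hc⟩ := dvd_prod_of_mem B (mem_univ j)
    exact ⟨c * P j, by rw [hc, Polynomial.coe_mul, Polynomial.coe_mul, ← hP]; ring⟩
  choose P' hP' using h1
  obtain ⟨V, hV1, hV2⟩ := Polynomial.exists_eq_pow_rootMultiplicity_mul_and_not_dvd (∏ j, B j)
    (prod_ne_zero_iff.2 fun j _ => hB j) t
  generalize (∏ j, B j).rootMultiplicity t = b at hV1
  rw [Polynomial.dvd_iff_isRoot, Polynomial.IsRoot] at hV2
  simp only [hV1, Polynomial.coe_mul] at hP'
  have hD : ((Polynomial.X - Polynomial.C t) ^ b).map (algebraMap ℚ K) =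
      (Polynomial.X - Polynomial.C (t : K)) ^ b := by simp
  have hmon : ((Polynomial.X - Polynomial.C t) ^ b).Monic := (Polynomial.monic_X_sub_C t).pow b
  have key : ∀ ζ : K, Reg (t : K) (∑ j, C (ζ ^ a j) * PowerSeries.map (algebraMap ℚ K) (R j)) ↔
      ∀ n, Polynomial.aeval ζ (∑ j, Polynomial.monomial (a j)
        ((P' j %ₘ (Polynomial.X - Polynomial.C t) ^ b).coeff n)) = 0 := fun ζ => by
    rw [reg_iff_dvd (V := V.map (algebraMap ℚ K)) (a := b)
      (P := ∑ j, ζ ^ a j • (P' j).map (algebraMap ℚ K)), ← hD,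
      ← Polynomial.modByMonic_eq_zero_iff_dvd (hmon.map _), ← Polynomial.modByMonicHom_apply,
      map_sum, Polynomial.ext_iff]
    · simp only [map_smul, Polynomial.modByMonicHom_apply, ← Polynomial.map_modByMonic _ hmon]
      simp [mul_comm]
    · rwa [← eq_ratCast (algebraMap ℚ K), Polynomial.eval_map_apply, map_ne_zero]
    · rw [← Polynomial.coeToPowerSeries.ringHom_apply (φ := ∑ _, _), map_sum, mul_sum, mul_sum]
      refine sum_congr rfl fun j _ => ?_
      rw [Polynomial.smul_eq_C_mul, Polynomial.coeToPowerSeries.ringHom_apply, Polynomial.coe_mul,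
        Polynomial.coe_C, ← hD, Polynomial.polynomial_map_coe, Polynomial.polynomial_map_coe,
        Polynomial.polynomial_map_coe, ← hP', map_mul, map_mul]
      ring
  rw [key] at h ⊢
  intro n
  rw [← minpoly.dvd_iff, ← Polynomial.cyclotomic_eq_minpoly_rat hζ' hM,
    Polynomial.cyclotomic_eq_minpoly_rat hζ hM, minpoly.dvd_iff]
  exact h n

end Field

section Norm

variable {K : Type*} [NormedField K] {t : K} {w : K⟦X⟧}

theorem tendsto_poly_mul (h : Tendsto (fun n => coeff n w * t ^ n) atTop (𝓝 0)) (P : Polynomial K) :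
    Tendsto (fun n => coeff n ((P : K⟦X⟧) * w) * t ^ n) atTop (𝓝 0) := by
  induction P using Polynomial.induction_on with
  | C a => simpa [mul_assoc] using h.const_mul a
  | add P Q h1 h2 => simpa [add_mul] using h1.add h2
  | monomial n a h1 =>
    rw [← tendsto_add_atTop_iff_nat 1, pow_succ', mul_left_comm, Polynomial.coe_mul,
      Polynomial.coe_X, mul_assoc]
    simp only [coeff_succ_X_mul]
    simpa only [pow_succ, ← mul_assoc, zero_mul] using h1.mul_const t

theorem IsRat.reg_of_tendsto (hw : IsRat w)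
    (h : Tendsto (fun n => coeff n w * t ^ n) atTop (𝓝 0)) : Reg t w := by
  obtain ⟨a, P, V, h1, h2⟩ := hw.split t
  rw [reg_iff_dvd h1 h2]
  have h3 := tendsto_poly_mul h V
  generalize (V : K⟦X⟧) * w = g at h2 h3
  induction a generalizing P with
  | zero => simp
  | succ a ih =>
    rw [pow_succ', Polynomial.coe_mul, mul_assoc] at h2
    have h4 := tendsto_poly_mul h3 ((Polynomial.X - Polynomial.C t) ^ a)
    have h5 : P.eval t = 0 := by
      generalize (_ : K⟦X⟧) * g = g at h2 h4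
      have hc : ∀ N, ∑ n ∈ range (N + 1), P.coeff n * t ^ n = -(coeff N g * t ^ N * t) := by
        intro N
        rw [Polynomial.coe_sub, Polynomial.coe_X, Polynomial.coe_C, sub_mul] at h2
        induction N with
        | zero =>
          have := congrArg (coeff 0) h2
          simp only [map_sub, coeff_zero_X_mul, coeff_C_mul, Polynomial.coeff_coe] at this
          simp [← this, mul_comm]
        | succ N ih =>
          have := congrArg (coeff (N + 1)) h2
          simp only [map_sub, coeff_succ_X_mul, coeff_C_mul, Polynomial.coeff_coe] at this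
          rw [sum_range_succ, ih, ← this]
          ring
      refine tendsto_nhds_unique (tendsto_const_nhds.congr' ?_)
        (by simpa using (h4.mul_const t).neg)
      filter_upwards [eventually_ge_atTop P.natDegree] with N hN
      rw [Polynomial.eval_eq_sum_range' (Nat.lt_succ_of_le hN), hc]
    obtain ⟨P', rfl⟩ := Polynomial.dvd_iff_isRoot.2 h5
    rw [Polynomial.coe_mul] at h2
    rw [pow_succ']
    exact mul_dvd_mul_left _ (ih _ (mul_left_cancel₀ (by simpa using coe_pow_ne_zero t 1) h2))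

end Norm

variable {p : ℕ} [hp : Fact p.Prime]

theorem one_le_norm_mul_abs (z : ℤ) (hz : z ≠ 0) : 1 ≤ ‖(z : ℂ_[p])‖ * |(z : ℝ)| := by
  have h0 : z.natAbs ≠ 0 := Int.natAbs_ne_zero.2 hz
  have h1 : ‖(z : ℂ_[p])‖ = ‖(z.natAbs : ℂ_[p])‖ := by
    rcases Int.natAbs_eq z with h | h
    · conv_lhs => rw [h, Int.cast_natCast]
    · conv_lhs => rw [h, Int.cast_neg, Int.cast_natCast, norm_neg]
  have h2 : (p : ℝ) ^ padicValNat p z.natAbs ≤ z.natAbs := by
    exact_mod_cast Nat.le_of_dvd (Nat.pos_of_ne_zero h0) pow_padicValNat_dvd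
  have h3 : (0 : ℝ) < p := by exact_mod_cast hp.out.pos
  rw [h1, norm_nat norm_p_lt_one h0, norm_p_complex, ← Int.cast_abs, ← Nat.cast_natAbs, inv_pow,
    le_inv_mul_iff₀ (by positivity), mul_one]
  exact h2

theorem isRat_of_quo {w : ℚ⟦X⟧} (hz : ∀ n, ∃ z : ℤ, coeff n w = z) {c : ℚ} (hc : 1 ≤ c)
    (h : ∀ n, |coeff n w| ≤ c ^ n) (hq : Quo (PowerSeries.map (algebraMap ℚ ℂ_[p]) w)) :
    IsRat w := by
  choose z hz using hz
  obtain rfl : w = PowerSeries.mk fun n => (z n : ℚ) := by
    ext n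
    rw [coeff_mk, hz]
  refine borel_dwork (K := ℂ_[p]) one_le_norm_mul_abs z 1 c (by exact_mod_cast hc) (fun n => ?_) ?_
  · have := h n
    rw [coeff_mk] at this
    rw [one_mul]
    exact_mod_cast this
  · convert hq
    ext n
    simp

/-- Point counts have a rational generating series. -/
theorem isRat_count {σ : Type} [Fintype σ] {E : ℕ → Type} [∀ n, Finite (E n)] {q : ℕ} (hq : 0 < q)
    (hE : ∀ n, Nat.card (E n) = q ^ (n + 1)) (P : ∀ n, (σ → E n) → Prop)
    (h : Quo (X * PowerSeries.mk fun n => (Nat.card {v // P n v} : ℂ_[p]))) :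
    IsRat (X * PowerSeries.mk fun n => (Nat.card {v // P n v} : ℚ)) := by
  refine isRat_of_quo (p := p) (c := q ^ Fintype.card σ) (fun n => ?_)
    (by exact_mod_cast Nat.one_le_pow _ _ hq) (fun n => ?_) ?_
  · cases n with
    | zero => exact ⟨0, by simp⟩
    | succ n => exact ⟨Nat.card {v // P n v}, by simp [coeff_succ_X_mul]⟩
  · cases n with
    | zero => simp
    | succ n =>
      have := Finite.card_subtype_le (P n)
      rw [Nat.card_fun, hE, pow_right_comm, Nat.card_eq_fintype_card (α := σ)] at this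
      rw [coeff_succ_X_mul, coeff_mk, Nat.abs_cast]
      exact_mod_cast this
  · simpa only [map_X_mk, map_natCast] using h

open FiniteField in
/-- Dwork's theorem. -/
theorem isRat_zeta (F : Type*) [Field F] [Finite F] [CharP F p] {σ : Type} [Fintype σ]
    (Φ : ∀ (E : Type) [Field E] [Algebra F E], (σ → E) → Prop)
    (hΦ : ∀ (E E' : Type) [Field E] [Algebra F E] [Field E'] [Algebra F E'] (f : E →ₐ[F] E')
      (v : σ → E), Φ E' (f ∘ v) ↔ Φ E v) {Z : ℚ⟦X⟧}
    (hZ : LD (X * PowerSeries.mk fun n =>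
      (Nat.card {v : σ → Extension F p (n + 1) // Φ _ v} : ℚ)) Z)
    (h : Mero (X * PowerSeries.mk fun n =>
      (Nat.card {v : σ → Extension F p (n + 1) // Φ _ v} : ℂ_[p]))) : IsRat Z := by
  refine isRat_of_quo (p := p) (c := Nat.card F ^ Fintype.card σ) (zeta_int F p Φ hΦ
    (N := fun n => n.casesOn 0 fun n => Nat.card {v : σ → Extension F p (n + 1) // Φ _ v}) rfl
    (fun _ => rfl) ?_) (by exact_mod_cast Nat.one_le_pow _ _ Nat.card_pos)
    (hZ.abs_coeff_le (by positivity) fun n => ?_) (h.quo_ld ?_)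
  · convert hZ
    ext (_ | n) <;> simp [coeff_succ_X_mul]
  · cases n with
    | zero => simp
    | succ n =>
      have := Finite.card_subtype_le fun v : σ → Extension F p (n + 1) => Φ _ v
      rw [Nat.card_fun, natCard_extension, pow_right_comm,
        Nat.card_eq_fintype_card (α := σ)] at this
      rw [coeff_succ_X_mul, coeff_mk, Nat.abs_cast]
      exact_mod_cast this
  · simpa only [map_X_mk, map_natCast] using hZ.map (algebraMap ℚ ℂ_[p])

end Pool.Agent.Lib.Dwork
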