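import Mathlib

/-!
Power series over an ultrametric field: geometric bounds, entire series, logarithmic derivatives.
-/

namespace Pool.Agent.Lib.Dwork

open PowerSeries Finset

section LD

variable {R : Type*} [CommRing R]

/-- `Z` has constant term `1` and `X Z' = w Z`, that is, `Z = exp (∑ w_n X^n / n)`. -/
def LD (w Z : R⟦X⟧) : Prop := constantCoeff Z = 1 ∧ X * d⁄dX R Z = w * Z

theorem coeff_X_mul_deriv (Z : R⟦X⟧) (n : ℕ) : coeff n (X * d⁄dX R Z) = n * coeff n Z := by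
  cases n with
  | zero => simp
  | succ n => rw [coeff_succ_X_mul, coeff_derivative]; push_cast; ring

theorem LD.one : LD (0 : R⟦X⟧) 1 := ⟨map_one _, by simp⟩

theorem LD.mul {w w' Z Z' : R⟦X⟧} (h : LD w Z) (h' : LD w' Z') : LD (w + w') (Z * Z') := by
  refine ⟨by rw [map_mul, h.1, h'.1, one_mul], ?_⟩
  rw [Derivation.leibniz, smul_eq_mul, smul_eq_mul]
  linear_combination Z * h'.2 + Z' * h.2

theorem LD.rescale {w Z : R⟦X⟧} (h : LD w Z) (c : R) : LD (rescale c w) (rescale c Z) := by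
  refine ⟨?_, ?_⟩
  · rw [← coeff_zero_eq_constantCoeff_apply, coeff_rescale, coeff_zero_eq_constantCoeff_apply, h.1]
    simp
  · rw [← map_mul, ← h.2]
    ext n
    rw [coeff_X_mul_deriv, coeff_rescale, coeff_rescale, coeff_X_mul_deriv]
    ring

theorem LD.map {S : Type*} [CommRing S] (f : R →+* S) {w Z : R⟦X⟧} (h : LD w Z) :
    LD (PowerSeries.map f w) (PowerSeries.map f Z) := by
  refine ⟨?_, ?_⟩
  · rw [← coeff_zero_eq_constantCoeff_apply, coeff_map, coeff_zero_eq_constantCoeff_apply, h.1,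
      map_one]
  · rw [← map_mul, ← h.2]
    ext n
    rw [coeff_X_mul_deriv, coeff_map, coeff_map, coeff_X_mul_deriv, map_mul, map_natCast]

theorem LD.const {w Z : R⟦X⟧} (h : LD w Z) : coeff 0 w = 0 := by
  have := congrArg (coeff 0) h.2
  rw [coeff_X_mul_deriv] at this
  simpa [h.1] using this.symm

theorem LD.rec {w Z : R⟦X⟧} (h : LD w Z) (n : ℕ) :
    ((n + 1 : ℕ) : R) * coeff (n + 1) Z = ∑ i ∈ range (n + 1), coeff (i + 1) w * coeff (n - i) Z := by
  have := congrArg (coeff (n + 1)) h.2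
  rw [coeff_X_mul_deriv, coeff_mul, Nat.sum_antidiagonal_eq_sum_range_succ_mk, sum_range_succ',
    h.const] at this
  rw [this]
  simp

/-- Truncated uniqueness. -/
theorem LD.coeff_eq [IsDomain R] [CharZero R] {w w' Z Z' : R⟦X⟧} (h : LD w Z) (h' : LD w' Z')
    (k : ℕ) (hw : ∀ n ≤ k, coeff n w = coeff n w') : ∀ n ≤ k, coeff n Z = coeff n Z' := by
  intro n
  induction n using Nat.strong_induction_on with
  | _ n ih =>
    intro hn
    cases n with
    | zero => simp [h.1, h'.1]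
    | succ n =>
      refine mul_left_cancel₀ (Nat.cast_ne_zero.2 n.succ_ne_zero : ((n + 1 : ℕ) : R) ≠ 0) ?_
      rw [h.rec, h'.rec]
      refine sum_congr rfl fun i hi => ?_
      have := mem_range.1 hi
      rw [hw _ (by omega), ih _ (by omega) (by omega)]

theorem LD.unique [IsDomain R] [CharZero R] {w Z Z' : R⟦X⟧} (h : LD w Z) (h' : LD w Z') :
    Z = Z' := by
  ext n
  exact h.coeff_eq h' n (fun _ _ => rfl) n le_rfl

theorem ld_exp_subst [Algebra ℚ R] {g : R⟦X⟧} (hg : constantCoeff g = 0) :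
    LD (X * d⁄dX R g) ((exp R).subst g) := by
  have hs : HasSubst g := HasSubst.of_constantCoeff_zero' hg
  refine ⟨?_, ?_⟩
  · rw [← coeff_zero_eq_constantCoeff_apply, coeff_subst' hs, finsum_eq_single _ 0]
    · simp
    · intro d hd
      simp [hg, hd]
  · rw [derivative_subst hs, derivative_exp]
    ring

theorem exists_ld {K : Type*} [Field K] [CharZero K] {w : K⟦X⟧} (hw : coeff 0 w = 0) :
    ∃ Z, LD w Z := by
  have h := ld_exp_subst (g := mk fun n => coeff n w / (n : K)) (by simp)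
  refine ⟨_, h.1, ?_⟩
  rw [h.2]
  congr 1
  ext n
  rw [coeff_X_mul_deriv, coeff_mk]
  cases n with
  | zero => simp [hw]
  | succ n =>
    have : ((n + 1 : ℕ) : K) ≠ 0 := Nat.cast_ne_zero.2 n.succ_ne_zero
    field_simp

theorem der_prod {A ι : Type*} [CommRing A] [DecidableEq ι] (d : A →+ A)
    (hd : ∀ a b, d (a * b) = d a * b + a * d b) (s : Finset ι) (f : ι → A) :
    d (∏ i ∈ s, f i) = ∑ k ∈ s, ∏ i ∈ s, Function.update f k (d (f k)) i := by
  induction s using Finset.induction_on with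
  | empty =>
    have := hd 1 1
    simp only [mul_one, one_mul] at this
    simpa using this
  | insert a s ha ih =>
    rw [prod_insert ha, hd, ih, sum_insert ha, prod_insert ha, Function.update_self, mul_sum]
    congr 1
    · congr 1
      exact prod_congr rfl fun i hi => (Function.update_of_ne (by rintro rfl; exact ha hi) _ _).symm
    · refine sum_congr rfl fun k hk => ?_
      rw [prod_insert ha, Function.update_of_ne (by rintro rfl; exact ha hk)]

theorem der_det {A ι : Type*} [CommRing A] [DecidableEq ι] [Fintype ι] (d : A →+ A)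
    (hd : ∀ a b, d (a * b) = d a * b + a * d b) (M : Matrix ι ι A) :
    d M.det = Matrix.trace (M.adjugate * M.map d) := by
  have h : d M.det = ∑ k, (M.updateCol k fun i => d (M i k)).det := by
    simp only [Matrix.det_apply, map_sum]
    rw [sum_comm]
    refine sum_congr rfl fun σ _ => ?_
    rw [Units.smul_def, map_zsmul, der_prod d hd, smul_sum]
    refine sum_congr rfl fun k _ => ?_
    rw [Units.smul_def]
    congr 1
    refine prod_congr rfl fun i _ => ?_
    by_cases h : i = k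
    · subst h
      simp
    · simp [Function.update_of_ne h, Matrix.updateCol_ne h]
  rw [h, Matrix.trace]
  refine sum_congr rfl fun k _ => ?_
  rw [← Matrix.cramer_apply, Matrix.cramer_eq_adjugate_mulVec]
  rfl

/-- `det (1 - X A) = exp (- ∑ tr (A ^ n) X ^ n / n)`. -/
theorem ld_det {ι : Type*} [DecidableEq ι] [Fintype ι] (A : Matrix ι ι R) :
    LD (-(mk fun n => if n = 0 then 0 else Matrix.trace (A ^ n)))
      (Matrix.det (1 - (X : R⟦X⟧) • A.map C)) := by
  set M : Matrix ι ι R⟦X⟧ := 1 - (X : R⟦X⟧) • A.map C with hM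
  refine ⟨?_, ?_⟩
  · rw [RingHom.map_det]
    have : (constantCoeff : R⟦X⟧ →+* R).mapMatrix M = 1 := by
      ext i j
      by_cases h : i = j <;> simp [hM, Matrix.one_apply, h]
    rw [this, Matrix.det_one]
  · let N : Matrix ι ι R⟦X⟧ := Matrix.of fun i j => mk fun n => (A ^ n) i j
    have hMN : M * N = 1 := by
      rw [hM, sub_mul, one_mul, Matrix.smul_mul]
      ext i j n
      rw [Matrix.sub_apply, Matrix.smul_apply, smul_eq_mul, map_sub]
      cases n with
      | zero => by_cases h : i = j <;> simp [N, Matrix.one_apply, h]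
      | succ n =>
        rw [coeff_succ_X_mul, Matrix.mul_apply, map_sum]
        have : coeff (n + 1) ((1 : Matrix ι ι R⟦X⟧) i j) = 0 := by
          by_cases h : i = j <;> simp [Matrix.one_apply, h, coeff_one]
        simp [N, this, pow_succ', Matrix.mul_apply]
    have hadj : M.adjugate = M.det • N := by
      rw [← Matrix.mul_one M.adjugate, ← hMN, ← Matrix.mul_assoc, Matrix.adjugate_mul,
        Matrix.smul_mul, Matrix.one_mul]
    have hd := der_det (d⁄dX R).toLinearMap.toAddMonoidHom (fun a b => by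
      simp only [LinearMap.toAddMonoidHom_coe, Derivation.coeFn_coe, Derivation.leibniz, smul_eq_mul]
      ring) M
    have hmap : M.map (d⁄dX R).toLinearMap.toAddMonoidHom = -A.map C := by
      ext1 i j
      by_cases h : i = j <;> simp [hM, h, Derivation.leibniz]
    rw [hmap, hadj] at hd
    have hd' : d⁄dX R M.det = _ := hd
    rw [hd', Matrix.smul_mul, Matrix.trace_smul, smul_eq_mul, Matrix.mul_neg, Matrix.trace_neg]
    have : X * Matrix.trace (N * A.map C) =
        PowerSeries.mk fun n => if n = 0 then 0 else Matrix.trace (A ^ n) := by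
      ext n
      cases n with
      | zero => simp
      | succ n =>
        rw [coeff_succ_X_mul, coeff_mk, if_neg n.succ_ne_zero, pow_succ]
        simp [Matrix.trace, Matrix.mul_apply, N, coeff_mul_C]
    rw [← this]
    ring

end LD

section Norm

variable {K : Type*} [NormedField K] [IsUltrametricDist K]

/-- The coefficients of `f` are bounded by `C ρ ^ n`. -/
def Bd (ρ C : ℝ) (f : K⟦X⟧) : Prop := ∀ n, ‖coeff n f‖ ≤ C * ρ ^ n

omit [IsUltrametricDist K] in
theorem Bd.nonneg {ρ C : ℝ} {f : K⟦X⟧} (h : Bd ρ C f) : 0 ≤ C := by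
  simpa using (norm_nonneg _).trans (h 0)

theorem Bd.mul {ρ C C' : ℝ} (hρ : 0 ≤ ρ) {f g : K⟦X⟧} (h : Bd ρ C f) (h' : Bd ρ C' g) :
    Bd ρ (C * C') (f * g) := by
  intro n
  have := h.nonneg
  have := h'.nonneg
  rw [coeff_mul]
  refine IsUltrametricDist.norm_sum_le_of_forall_le_of_nonneg (by positivity) fun p hp => ?_
  rw [norm_mul, ← mem_antidiagonal.1 hp, pow_add]
  calc _ ≤ (C * ρ ^ p.1) * (C' * ρ ^ p.2) :=
        mul_le_mul (h _) (h' _) (norm_nonneg _) (by positivity)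
    _ = _ := by ring

omit [IsUltrametricDist K] in
theorem Bd.one {ρ : ℝ} (hρ : 0 ≤ ρ) : Bd ρ 1 (1 : K⟦X⟧) := by
  intro n
  rw [coeff_one]
  split_ifs with h
  · simp [h]
  · simpa using pow_nonneg hρ n

omit [IsUltrametricDist K] in
theorem Bd.mono {ρ C C' : ℝ} (hρ : 0 ≤ ρ) {f : K⟦X⟧} (h : Bd ρ C f) (hC : C ≤ C') : Bd ρ C' f :=
  fun n => (h n).trans (mul_le_mul_of_nonneg_right hC (pow_nonneg hρ n))

theorem Bd.add {ρ C : ℝ} {f g : K⟦X⟧} (h : Bd ρ C f) (h' : Bd ρ C g) : Bd ρ C (f + g) := by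
  intro n
  rw [map_add]
  exact (IsUltrametricDist.norm_add_le_max _ _).trans (max_le (h n) (h' n))

omit [IsUltrametricDist K] in
theorem Bd.neg {ρ C : ℝ} {f : K⟦X⟧} (h : Bd ρ C f) : Bd ρ C (-f) := by
  intro n
  rw [map_neg, norm_neg]
  exact h n

theorem Bd.prod {ι : Type*} {ρ : ℝ} (hρ : 0 ≤ ρ) (s : Finset ι) {C : ι → ℝ} {f : ι → K⟦X⟧}
    (h : ∀ i ∈ s, Bd ρ (C i) (f i)) : Bd ρ (∏ i ∈ s, C i) (∏ i ∈ s, f i) := by
  classical
  induction s using Finset.induction_on with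
  | empty => simpa using Bd.one hρ
  | insert a s ha ih =>
    rw [prod_insert ha, prod_insert ha]
    exact (h a (mem_insert_self _ _)).mul hρ (ih fun i hi => h i (mem_insert_of_mem hi))

theorem Bd.sum {ι : Type*} {ρ C : ℝ} (hρ : 0 ≤ ρ) (hC : 0 ≤ C) (s : Finset ι) {f : ι → K⟦X⟧}
    (h : ∀ i ∈ s, Bd ρ C (f i)) : Bd ρ C (∑ i ∈ s, f i) := by
  intro n
  rw [map_sum]
  exact IsUltrametricDist.norm_sum_le_of_forall_le_of_nonneg (by positivity) fun i hi => h i hi n

theorem Bd.pow {ρ C : ℝ} (hρ : 0 ≤ ρ) {f : K⟦X⟧} (h : Bd ρ C f) (k : ℕ) :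
    Bd ρ (C ^ k) (f ^ k) := by
  simpa using Bd.prod hρ (range k) (C := fun _ => C) (f := fun _ => f) fun _ _ => h

omit [IsUltrametricDist K] in
theorem exists_bd_poly {ρ : ℝ} (hρ : 0 < ρ) (P : Polynomial K) : ∃ C, Bd ρ C (P : K⟦X⟧) := by
  refine ⟨∑ i ∈ P.support, ‖P.coeff i‖ / ρ ^ i, fun n => ?_⟩
  rw [Polynomial.coeff_coe, ← div_le_iff₀ (by positivity)]
  by_cases h : n ∈ P.support
  · exact single_le_sum (f := fun i => ‖P.coeff i‖ / ρ ^ i) (fun i _ => by positivity) h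
  · rw [Polynomial.notMem_support_iff.1 h, norm_zero, zero_div]
    positivity

/-- An entire series. -/
def Ent (f : K⟦X⟧) : Prop := ∀ ρ : ℝ, 0 < ρ → ∃ C, Bd ρ C f

omit [IsUltrametricDist K] in
theorem ent_poly (P : Polynomial K) : Ent (P : K⟦X⟧) := fun _ hρ => exists_bd_poly hρ P

theorem Ent.mul {f g : K⟦X⟧} (h : Ent f) (h' : Ent g) : Ent (f * g) := fun ρ hρ =>
  let ⟨_, h1⟩ := h ρ hρ
  let ⟨_, h2⟩ := h' ρ hρ
  ⟨_, h1.mul hρ.le h2⟩

theorem Ent.add {f g : K⟦X⟧} (h : Ent f) (h' : Ent g) : Ent (f + g) := fun ρ hρ =>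
  let ⟨C, h1⟩ := h ρ hρ
  let ⟨C', h2⟩ := h' ρ hρ
  ⟨max C C', (h1.mono hρ.le (le_max_left _ _)).add (h2.mono hρ.le (le_max_right _ _))⟩

omit [IsUltrametricDist K] in
theorem Ent.neg {f : K⟦X⟧} (h : Ent f) : Ent (-f) := fun ρ hρ =>
  let ⟨C, h1⟩ := h ρ hρ
  ⟨C, h1.neg⟩

omit [IsUltrametricDist K] in
theorem ent_C (c : K) : Ent (C c : K⟦X⟧) := by simpa using ent_poly (Polynomial.C c)

omit [IsUltrametricDist K] in
theorem ent_one : Ent (1 : K⟦X⟧) := by simpa using ent_C (1 : K)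

omit [IsUltrametricDist K] in
theorem Ent.rescale {f : K⟦X⟧} (h : Ent f) (c : K) : Ent (rescale c f) := by
  intro ρ hρ
  obtain ⟨C, hC⟩ := h (ρ / (‖c‖ + 1)) (by positivity)
  refine ⟨C, fun n => ?_⟩
  have := hC.nonneg
  rw [coeff_rescale, norm_mul, norm_pow]
  calc _ ≤ (‖c‖ + 1) ^ n * (C * (ρ / (‖c‖ + 1)) ^ n) := by
        gcongr
        · linarith
        · exact hC n
    _ = _ := by
        rw [div_pow]
        field_simp

theorem Ent.deriv {f : K⟦X⟧} (h : Ent f) : Ent (X * d⁄dX K f) := by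
  intro ρ hρ
  obtain ⟨C, hC⟩ := h ρ hρ
  refine ⟨C, fun n => ?_⟩
  rw [coeff_X_mul_deriv, norm_mul]
  exact (mul_le_of_le_one_left (norm_nonneg _) (IsUltrametricDist.norm_natCast_le_one K n)).trans
    (hC n)

/-- A quotient of entire series. -/
def Quo (f : K⟦X⟧) : Prop := ∃ D E : K⟦X⟧, Ent D ∧ Ent E ∧ constantCoeff D = 1 ∧ D * f = E

theorem Quo.add {f g : K⟦X⟧} (h : Quo f) (h' : Quo g) : Quo (f + g) := by
  obtain ⟨D, E, h1, h2, h3, h4⟩ := h
  obtain ⟨D', E', h1', h2', h3', h4'⟩ := h'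
  refine ⟨D * D', E * D' + D * E', h1.mul h1', (h2.mul h1').add (h1.mul h2'), by simp [h3, h3'], ?_⟩
  rw [← h4, ← h4']
  ring

theorem Quo.smul {f : K⟦X⟧} (h : Quo f) (c : K) : Quo (C c * f) := by
  obtain ⟨D, E, h1, h2, h3, h4⟩ := h
  refine ⟨D, C c * E, h1, (ent_C c).mul h2, h3, ?_⟩
  rw [← h4]
  ring

theorem Quo.sum {ι : Type*} (s : Finset ι) {f : ι → K⟦X⟧} (h : ∀ i ∈ s, Quo (f i)) :
    Quo (∑ i ∈ s, f i) :=
  sum_induction _ _ (fun _ _ => Quo.add) ⟨1, 0, ent_one, by simpa using ent_C (0 : K), by simp, by simp⟩ h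

/-- `w` is the logarithmic derivative of a quotient of entire series. -/
def Mero (w : K⟦X⟧) : Prop :=
  ∃ a b D E : K⟦X⟧, Ent D ∧ Ent E ∧ LD a D ∧ LD b E ∧ w = b - a

omit [IsUltrametricDist K] in
theorem mero_of_ent {w D : K⟦X⟧} (h : Ent D) (h' : LD w D) : Mero w :=
  ⟨0, w, 1, D, ent_one, h, LD.one, h', by simp⟩

theorem Mero.add {v w : K⟦X⟧} (h : Mero v) (h' : Mero w) : Mero (v + w) := by
  obtain ⟨a, b, D, E, h1, h2, h3, h4, rfl⟩ := h
  obtain ⟨a', b', D', E', h1', h2', h3', h4', rfl⟩ := h'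
  exact ⟨a + a', b + b', _, _, h1.mul h1', h2.mul h2', h3.mul h3', h4.mul h4', by ring⟩

omit [IsUltrametricDist K] in
theorem Mero.neg {v : K⟦X⟧} (h : Mero v) : Mero (-v) := by
  obtain ⟨a, b, D, E, h1, h2, h3, h4, rfl⟩ := h
  exact ⟨b, a, E, D, h2, h1, h4, h3, by ring⟩

omit [IsUltrametricDist K] in
theorem Mero.rescale {v : K⟦X⟧} (h : Mero v) (c : K) : Mero (rescale c v) := by
  obtain ⟨a, b, D, E, h1, h2, h3, h4, rfl⟩ := h
  exact ⟨_, _, _, _, h1.rescale c, h2.rescale c, h3.rescale c, h4.rescale c, map_sub _ _ _⟩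

theorem Mero.sum {ι : Type*} (s : Finset ι) {f : ι → K⟦X⟧} (h : ∀ i ∈ s, Mero (f i)) :
    Mero (∑ i ∈ s, f i) :=
  sum_induction _ _ (fun _ _ => Mero.add) (mero_of_ent ent_one LD.one) h

theorem Mero.mul_pow {s : ℕ → K} (h : Mero (mk s)) (c : K) (j : ℕ) :
    Mero (mk fun n => (c ^ n - 1) ^ j * s n) := by
  induction j with
  | zero => simpa using h
  | succ j ih =>
    have := (ih.rescale c).add ih.neg
    convert this using 1
    ext n
    simp only [coeff_mk, map_add, map_neg, coeff_rescale]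
    ring

omit [IsUltrametricDist K] in
theorem mero_geom (c : K) : Mero (mk fun n => if n = 0 then 0 else c ^ n) := by
  have h := ld_det (R := K) (ι := Unit) (Matrix.of fun _ _ => c)
  have e : Matrix.det (1 - (X : K⟦X⟧) • (Matrix.of fun (_ _ : Unit) => c).map C) =
      ((1 - Polynomial.X * Polynomial.C c : Polynomial K) : K⟦X⟧) := by
    rw [Polynomial.coe_sub, Polynomial.coe_mul]
    simp
  rw [e] at h
  have := (mero_of_ent (ent_poly _) h).neg
  rw [neg_neg] at this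
  convert this using 3 with n
  split_ifs
  · rfl
  · rw [show (Matrix.of fun (_ _ : Unit) => c) = Matrix.diagonal fun _ => c by ext; simp,
      Matrix.diagonal_pow]
    simp

theorem Mero.quo {w : K⟦X⟧} (h : Mero w) : Quo w := by
  obtain ⟨a, b, D, E, h1, h2, h3, h4, rfl⟩ := h
  refine ⟨D * E, D * (X * d⁄dX K E) + -(X * d⁄dX K D * E), h1.mul h2,
    (h1.mul h2.deriv).add (h1.deriv.mul h2).neg, by simp [h3.1, h4.1], ?_⟩
  rw [h3.2, h4.2]
  ring

omit [IsUltrametricDist K] in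
theorem Mero.quo_ld [CharZero K] {w Z : K⟦X⟧} (h : Mero w) (hZ : LD w Z) : Quo Z := by
  obtain ⟨a, b, D, E, h1, h2, h3, h4, rfl⟩ := h
  refine ⟨D, E, h1, h2, h3.1, LD.unique ?_ h4⟩
  simpa using h3.mul hZ

omit [IsUltrametricDist K] in
/-- A limit of uniformly entire series is entire. -/
theorem mero_of_limit [CharZero K] {w : K⟦X⟧} (hw : coeff 0 w = 0) {v D : ℕ → K⟦X⟧}
    (hD : ∀ M, LD (v M) (D M))
    (hv : ∀ n, Filter.Tendsto (fun M => coeff n (v M)) Filter.atTop (nhds (coeff n w)))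
    (hb : ∀ ρ : ℝ, 0 < ρ → ∃ C, ∀ M, Bd ρ C (D M)) : Mero w := by
  obtain ⟨Z, hZ⟩ := exists_ld hw
  have hl : ∀ n, Filter.Tendsto (fun M => coeff n (D M)) Filter.atTop (nhds (coeff n Z)) := by
    intro n
    induction n using Nat.strong_induction_on with
    | _ n ih =>
      cases n with
      | zero => simp [(hD _).1, hZ.1]
      | succ n =>
        have hn : ((n + 1 : ℕ) : K) ≠ 0 := Nat.cast_ne_zero.2 n.succ_ne_zero
        have e : ∀ {w Z : K⟦X⟧}, LD w Z → coeff (n + 1) Z = ((n + 1 : ℕ) : K)⁻¹ *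
            ∑ i ∈ range (n + 1), coeff (i + 1) w * coeff (n - i) Z := fun h => by
          rw [← h.rec, inv_mul_cancel_left₀ hn]
        simp only [fun M => e (hD M)]
        rw [e hZ]
        exact (tendsto_finsetSum _ fun i _ => (hv _).mul (ih _ (by omega))).const_mul _
  refine mero_of_ent (fun ρ hρ => ?_) hZ
  obtain ⟨C, hC⟩ := hb ρ hρ
  exact ⟨C, fun n => le_of_tendsto' (hl n).norm fun M => hC M n⟩

end Norm

end Pool.Agent.Lib.Dwork
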