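import Pool.Agent.Lib.Dwork.Trace

/-!
Stickelberger's bound for Gauss sums, and a bound for character sums of products of linear forms.
-/

namespace Pool.Agent.Lib.Dwork

open Finset

theorem addChar_sum {A M ι : Type*} [AddCommMonoid A] [CommMonoid M] (Ψ : AddChar A M)
    (s : Finset ι) (f : ι → A) : Ψ (∑ i ∈ s, f i) = ∏ i ∈ s, Ψ (f i) := by
  classical
  induction s using Finset.induction_on with
  | empty => simp
  | insert a s ha ih => rw [sum_insert ha, prod_insert ha, AddChar.map_add_eq_mul, ih]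

variable {E : Type*} [Field E] [Fintype E]

theorem sum_pow_pos {u : ℕ} (hu : u ≠ 0) :
    ∑ x : E, x ^ u = if Fintype.card E - 1 ∣ u then -1 else 0 := by
  classical
  have := sum_teich_pow (ω := MonoidWithZeroHom.id E) Function.injective_id u
  rw [Nat.cast_sub Fintype.card_pos, FiniteField.cast_card_eq_zero, Nat.cast_one, zero_sub] at this
  rw [← this]
  exact (sum_subset (filter_subset _ _) fun x _ hx => by simp at hx; simp [hx, hu]).symm

variable {K : Type*} [NormedField K] [IsUltrametricDist K]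

/-- A multiplicative map as a multiplicative character. -/
def tchar {E K : Type*} [Field E] [Field K] (ω : E →*₀ K) : MulChar E K :=
  ⟨ω.toMonoidHom, fun a ha => by
    rw [not_imp_comm.1 (fun h => Ne.isUnit h) ha]
    exact map_zero ω⟩

omit [Fintype E] [IsUltrametricDist K] in
theorem tchar_pow (ω : E →*₀ K) {u : ℕ} (hu : u ≠ 0) (x : E) : (tchar ω ^ u) x = ω x ^ u :=
  MulChar.pow_apply' _ hu x

omit [IsUltrametricDist K] in
theorem tchar_pow_eq_one {ω : E →*₀ K} (h : Function.Injective ω) (u : ℕ) :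
    tchar ω ^ u = 1 ↔ Fintype.card E - 1 ∣ u := by
  rw [← FiniteField.forall_pow_eq_one_iff, MulChar.ext_iff]
  refine forall_congr' fun x => ?_
  rw [MulChar.pow_apply_coe, MulChar.one_apply_coe, Units.ext_iff, ← h.eq_iff,
    Units.val_pow_eq_pow_val, map_pow, Units.val_one, map_one]
  rfl

omit [IsUltrametricDist K] in
theorem norm_mulChar_le (χ : MulChar E K) (x : E) : ‖χ x‖ ≤ 1 :=
  norm_teich_le χ.toMonoidWithZeroHom x

variable {p : ℕ} [hp : Fact p.Prime] [CharP E p] {ω : E →*₀ K} {Ψ : AddChar E K}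

theorem Std.gauss_frob (h : Std p ω Ψ) (χ : MulChar E K) : gaussSum (χ ^ p) Ψ = gaussSum χ Ψ := by
  obtain ⟨-, -, π, s, -, -, hπ, hs, h⟩ := h
  have h1 : ∀ x, Ψ x ^ p = 1 := fun x => by
    rw [← AddChar.map_nsmul_eq_pow, nsmul_eq_mul, CharP.cast_eq_zero, zero_mul,
      AddChar.map_zero_eq_one]
  rw [gaussSum, gaussSum, ← (frobeniusEquiv E p).toEquiv.sum_comp fun x => χ x * Ψ x]
  refine sum_congr rfl fun x _ => ?_
  show _ = χ (x ^ p) * Ψ (x ^ p)
  rw [MulChar.pow_apply' _ hp.out.ne_zero, map_pow, eq_of_pow_prime hπ (h1 x) (h1 (x ^ p))]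
  refine norm_sub_lt (h x) ?_
  have e : ∑ i ∈ range s, (x ^ p) ^ p ^ i = ∑ i ∈ range s, x ^ p ^ i := by
    have := (sum_range_succ' (fun i => x ^ p ^ i) s).symm.trans (sum_range_succ _ s)
    rw [← hs, FiniteField.pow_card, pow_zero, pow_one, add_left_inj] at this
    simpa only [← pow_mul, ← pow_succ'] using this
  rw [norm_sub_rev, ← e]
  exact h _

omit [CharP E p] in
theorem norm_gauss_inv (h : Teich ω) {π : K} {s : ℕ} (h0 : π ≠ 0) (hs : Fintype.card E = p ^ s)
    (hΨ : ∀ x, ‖Ψ x - (1 + π * ω (∑ i ∈ range s, x ^ p ^ i))‖ < ‖π‖)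
    (h2 : 2 < Fintype.card E) : ‖gaussSum (tchar ω)⁻¹ Ψ‖ = ‖π‖ := by
  have hpos := norm_pos_iff.2 h0
  have hu : Fintype.card E - 2 ≠ 0 := by omega
  have e : (tchar ω)⁻¹ = tchar ω ^ (Fintype.card E - 2) := by
    rw [inv_eq_iff_mul_eq_one, ← pow_succ', tchar_pow_eq_one h.injective]
    exact dvd_of_eq (by omega)
  have e1 : ∑ x, (tchar ω)⁻¹ x = 0 := MulChar.sum_eq_zero_of_ne_one fun e' => by
    rw [e, tchar_pow_eq_one h.injective] at e'
    have := Nat.le_of_dvd (by omega) e'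
    omega
  have e2 : ∑ x : E, x ^ (Fintype.card E - 2) * ∑ i ∈ range s, x ^ p ^ i = -1 := by
    simp only [mul_sum, ← pow_add]
    rw [sum_comm, sum_eq_single 0, pow_zero, sum_pow_pos (by omega), if_pos (dvd_of_eq (by omega))]
    · intro i hi hi0
      have h3 : 1 < p ^ i := Nat.one_lt_pow hi0 hp.out.one_lt
      have h4 : p ^ i < p ^ s := Nat.pow_lt_pow_right hp.out.one_lt (mem_range.1 hi)
      rw [sum_pow_pos (by omega), if_neg]
      rw [show Fintype.card E - 2 + p ^ i = Fintype.card E - 1 + (p ^ i - 1) by omega,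
        Nat.dvd_add_right dvd_rfl]
      exact Nat.not_dvd_of_pos_of_lt (by omega) (by omega)
    · intro hh
      rw [mem_range, not_lt, Nat.le_zero] at hh
      simp [hh] at hs
      omega
  have e3 := h.sum univ fun x : E => x ^ (Fintype.card E - 2) * ∑ i ∈ range s, x ^ p ^ i
  rw [e2, norm_sub_rev] at e3
  have e4 : ‖ω (-1)‖ = 1 := norm_teich ω (by simp)
  rw [← mul_one ‖π‖, ← e4, ← norm_eq_of_sub_lt (e3.trans_eq e4.symm), ← norm_mul]
  refine norm_eq_of_sub_lt ?_
  rw [norm_mul, norm_eq_of_sub_lt (e3.trans_eq e4.symm), e4, mul_one, gaussSum,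
    ← zero_add (π * _), ← e1, mul_sum, ← sum_add_distrib, ← sum_sub_distrib]
  obtain ⟨x, -, hx⟩ := IsUltrametricDist.exists_norm_finsetSum_le_of_nonempty univ_nonempty
    fun x => (tchar ω)⁻¹ x * Ψ x - ((tchar ω)⁻¹ x +
      π * ω (x ^ (Fintype.card E - 2) * ∑ i ∈ range s, x ^ p ^ i))
  refine hx.trans_lt ?_
  rw [map_mul, map_pow, ← tchar_pow ω hu, ← e, mul_left_comm, ← mul_one_add, ← mul_sub, norm_mul]
  exact (mul_le_of_le_one_left (norm_nonneg _) (norm_mulChar_le _ _)).trans_lt (hΨ x)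

/-- Stickelberger's bound. -/
theorem Std.norm_gauss (h : Std p ω Ψ) {s m d : ℕ} (hs : Fintype.card E = p ^ s)
    (hE : Fintype.card E = m * d + 1) (c : ℕ) :
    ‖(p : K)‖ ^ ∑ j ∈ range s, p ^ j * c % m ≤ ‖gaussSum ((tchar ω)⁻¹ ^ (c * d)) Ψ‖ ^ m := by
  have hf := h.gauss_frob
  obtain ⟨h, hΨ, π, s', h0, h1, hπ, hs', h2⟩ := h
  obtain rfl : s = s' := Nat.pow_right_injective hp.out.two_le (hs.symm.trans hs')
  have hmd : m * d ≠ 0 := fun e => absurd (e ▸ hE) Fintype.one_lt_card.ne'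
  have hm : 0 < m := Nat.pos_of_ne_zero (left_ne_zero_of_mul hmd)
  let G : ℕ → ℕ → Prop := fun b n => b < m * d → ‖π‖ ^ n ≤ ‖gaussSum ((tchar ω)⁻¹ ^ b) Ψ‖
  have G0 : ∀ n, G 0 n := fun n _ => by
    rw [pow_zero, gaussSum_one_left (by simpa using hΨ one_ne_zero), norm_neg, norm_one]
    exact pow_le_one₀ (norm_nonneg _) h1.le
  have G1 : ∀ b n, G b n → G (b + 1) (n + 1) := fun b n hb hlt => by
    have e := jacobiSum_mul_nontrivial (χ := (tchar ω)⁻¹ ^ b) (φ := (tchar ω)⁻¹) (fun e => by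
      rw [← pow_succ, inv_pow, inv_eq_one, tchar_pow_eq_one h.injective] at e
      have := Nat.le_of_dvd b.succ_pos e
      omega) Ψ
    calc _ ≤ ‖gaussSum ((tchar ω)⁻¹ ^ b) Ψ * gaussSum (tchar ω)⁻¹ Ψ‖ := by
          rw [norm_mul, norm_gauss_inv h h0 hs h2 (by omega), pow_succ]
          exact mul_le_mul_of_nonneg_right (hb (by omega)) (norm_nonneg _)
      _ ≤ _ := by
          rw [← e, norm_mul, ← pow_succ]
          refine mul_le_of_le_one_right (norm_nonneg _)
            (IsUltrametricDist.norm_sum_le_of_forall_le_of_nonneg zero_le_one fun x _ => ?_)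
          rw [norm_mul]
          exact mul_le_one₀ (norm_mulChar_le _ _) (norm_nonneg _) (norm_mulChar_le _ _)
  have G2 : ∀ b n k, G b n → G (b + k) (n + k) := fun b n k hb => by
    induction k with
    | zero => exact hb
    | succ k ih => exact G1 _ _ ih
  have G3 : ∀ b n, G b n → G (b * p) n := fun b n hb hlt => by
    rw [pow_mul, hf]
    exact hb ((Nat.le_mul_of_pos_right _ hp.out.pos).trans_lt hlt)
  have key : ∀ t, ∃ b n, m * b + p ^ t * c % m = p ^ t * (c % m) ∧
      m * n + p ^ t * c % m + ∑ j ∈ range t, p ^ j * c % m =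
        p * ∑ j ∈ range t, p ^ j * c % m + c % m ∧ G b n := by
    intro t
    induction t with
    | zero => exact ⟨0, 0, by simp, by simp, G0 0⟩
    | succ t ih =>
      obtain ⟨b, n, e1, e2, e3⟩ := ih
      have e := Nat.div_add_mod (p * (p ^ t * c % m)) m
      rw [Nat.mul_mod_mod, ← mul_assoc p, ← pow_succ'] at e
      refine ⟨_, _, ?_, ?_, G2 _ _ (p * (p ^ t * c % m) / m) (G3 _ _ e3)⟩
      · rw [pow_succ' p t] at e ⊢
        linear_combination e + p * e1
      · rw [sum_range_succ]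
        linear_combination e + e2
  obtain ⟨b, n, e1, e2, e3⟩ := key s
  have e : p ^ s * c % m = c % m := by
    rw [← hs, hE, add_mul, mul_assoc, one_mul, Nat.mul_add_mod]
  rw [e] at e1 e2
  obtain rfl : b = c % m * d := Nat.eq_of_mul_eq_mul_left hm (by
    rw [← hs, hE] at e1
    linarith)
  have e4 : (tchar ω)⁻¹ ^ (c * d) = (tchar ω)⁻¹ ^ (c % m * d) := by
    conv_lhs => rw [← Nat.div_add_mod c m, add_mul, pow_add, mul_right_comm, inv_pow,
      (tchar_pow_eq_one h.injective _).2 (by simp [hE]), inv_one, one_mul]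
  have e5 : (p - 1) * ∑ j ∈ range s, p ^ j * c % m = n * m := by
    rw [Nat.sub_one_mul, mul_comm n]
    omega
  rw [e4, ← norm_neg (p : K), ← hπ, norm_pow, ← pow_mul, e5, pow_mul]
  exact pow_le_pow_left₀ (by positivity) (e3 (Nat.mul_lt_mul_of_pos_right (Nat.mod_lt _ hm)
    (Nat.pos_of_ne_zero (right_ne_zero_of_mul hmd)))) m

theorem Std.norm_sum_linear (h : Std p ω Ψ) {s m d : ℕ} (hs : Fintype.card E = p ^ s)
    (hE : Fintype.card E = m * d + 1) {τ ι : Type*} [Fintype τ] [DecidableEq τ] [Fintype ι]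
    (L : ι → τ → E) (c : ι → ℕ) (hc : ∀ i, ¬ m ∣ c i) :
    ‖(p : K)‖ ^ (∑ j ∈ range s, ∑ i, p ^ j * c i % m) *
      ‖∑ x : τ → E, ∏ i, ω (∑ j, L i j * x j) ^ (c i * d)‖ ^ m ≤
      ‖(p : K)‖ ^ (s * Fintype.card τ * m) := by
  classical
  have hd : d ≠ 0 := by
    rintro rfl
    exact absurd hE Fintype.one_lt_card.ne'
  have key : ∀ i t, gaussSum ((tchar ω)⁻¹ ^ (c i * d)) Ψ * ω t ^ (c i * d) =
      ∑ y, ((tchar ω)⁻¹ ^ (c i * d)) y * Ψ (t * y) := by
    intro i t
    have h0 : c i * d ≠ 0 := mul_ne_zero (fun e => hc i (e ▸ dvd_zero m)) hd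
    rcases eq_or_ne t 0 with rfl | ht
    · simp only [map_zero, zero_pow h0, mul_zero, zero_mul, AddChar.map_zero_eq_one, mul_one]
      refine (MulChar.sum_eq_zero_of_ne_one fun e => hc i ?_).symm
      rw [inv_pow, inv_eq_one, tchar_pow_eq_one h.1.injective, hE, Nat.add_sub_cancel] at e
      exact Nat.dvd_of_mul_dvd_mul_right (Nat.pos_of_ne_zero hd) e
    · have := gaussSum_mulShift_eq ((tchar ω)⁻¹ ^ (c i * d)) Ψ (Units.mk0 t ht)
      rw [inv_pow, inv_inv, tchar_pow ω h0, ← inv_pow] at this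
      exact (mul_comm _ _).trans this.symm
  have e : ∀ x : τ → E, (∏ i, gaussSum ((tchar ω)⁻¹ ^ (c i * d)) Ψ) *
      ∏ i, ω (∑ j, L i j * x j) ^ (c i * d) = ∑ y : ι → E, (∏ i, ((tchar ω)⁻¹ ^ (c i * d)) (y i)) *
        ∏ j, Ψ (x j * ∑ i, L i j * y i) := by
    intro x
    rw [← prod_mul_distrib]
    simp only [key]
    rw [Fintype.prod_sum]
    refine sum_congr rfl fun y _ => ?_
    rw [prod_mul_distrib, ← addChar_sum, ← addChar_sum]
    simp only [sum_mul, mul_sum]
    rw [sum_comm]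
    congr 2
    exact sum_congr rfl fun _ _ => sum_congr rfl fun _ _ => by ring
  calc _ ≤ ‖(∏ i, gaussSum ((tchar ω)⁻¹ ^ (c i * d)) Ψ) *
        ∑ x : τ → E, ∏ i, ω (∑ j, L i j * x j) ^ (c i * d)‖ ^ m := by
        rw [norm_mul, mul_pow, norm_prod, ← prod_pow, sum_comm, ← prod_pow_eq_pow_sum]
        exact mul_le_mul_of_nonneg_right (prod_le_prod (fun _ _ => by positivity)
          fun i _ => h.norm_gauss hs hE (c i)) (by positivity)
    _ ≤ _ := by
      rw [pow_mul _ _ m, pow_mul, ← norm_pow _ s, ← Nat.cast_pow, ← hs, mul_sum]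
      refine pow_le_pow_left₀ (norm_nonneg _) ?_ m
      simp only [e]
      rw [sum_comm]
      refine IsUltrametricDist.norm_sum_le_of_forall_le_of_nonneg (by positivity) fun y _ => ?_
      rw [← mul_sum, norm_mul, ← Fintype.prod_sum fun j a => Ψ (a * ∑ i, L i j * y i), norm_prod,
        norm_prod, ← card_univ (α := τ), ← prod_const]
      refine (mul_le_of_le_one_left (prod_nonneg fun _ _ => norm_nonneg _) (prod_le_one
        (fun _ _ => norm_nonneg _) fun i _ => norm_mulChar_le _ _)).trans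
        (prod_le_prod (fun _ _ => norm_nonneg _) fun j _ => ?_)
      rw [AddChar.sum_mulShift _ h.2.1]
      split_ifs <;> simp

end Pool.Agent.Lib.Dwork
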