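import Pool.Agent.Lib.Dwork.Stick

/-!
Meromorphy of the `L`-functions of twisted exponential sums over a finite field.
-/

namespace Pool.Agent.Lib.Dwork

open Finset

theorem prod_range_mul' {M : Type*} [CommMonoid M] (g : ℕ → M) (e N : ℕ) :
    ∏ i ∈ range (e * N), g i = ∏ j ∈ range N, ∏ i : Fin e, g (e * j + i) := by
  induction N with
  | zero => simp
  | succ N ih => rw [Nat.mul_succ, prod_range_add, ih, prod_range_succ, prod_range (n := e)]

variable {p : ℕ} [hp : Fact p.Prime]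

theorem exists_dwork_data (F : Type*) [Field F] [Fintype F] [CharP F p] (E : ℕ → Type)
    [∀ n, Field (E n)] [∀ n, Fintype (E n)] [∀ n, Algebra F (E n)]
    (hE : ∀ n, Fintype.card (E n) = Fintype.card F ^ (n + 1)) :
    ∃ (ω : ∀ n, E n →*₀ ℂ_[p]) (Ψ : ∀ n, AddChar (E n) ℂ_[p]), (∀ n, Std p (ω n) (Ψ n)) ∧
      ∀ (σ U : Type) [Fintype σ] [DecidableEq σ] [Fintype U] (c : U → F)
        (d : U → σ → ℕ) (a : σ → ℕ), a ≠ 0 → ∀ S : ℕ → ℂ_[p], S 0 = 0 →
        (∀ n, ((Fintype.card F : ℂ_[p]) ^ (n + 1) - 1) * S (n + 1) = ∑ x : σ → E n,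
          (∏ s, ω n (x s) ^ (a s * ∑ j ∈ range (n + 1), Fintype.card F ^ j)) *
            Ψ n (∑ u, algebraMap F (E n) (c u) * ∏ s, x s ^ d u s)) → Mero (PowerSeries.mk S) := by
  obtain ⟨π, r, θ, hr0, hr1, hπ, hθ, h1, h2⟩ := exists_theta (p := p)
  obtain ⟨ω₀, hω₀, h3⟩ := exists_teich (K := ℂ_[p]) norm_p_lt_one F
  choose ω hω hc using fun n => h3 (E n)
  obtain ⟨e, -, he⟩ := FiniteField.card F p
  have h4 := fun n => by
    have : CharP (E n) p := charP_of_injective_algebraMap (algebraMap F (E n)).injective p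
    exact exists_addChar norm_p_lt_one (Nat.cast_ne_zero.2 hp.out.ne_zero) (hω n) hπ h1 h2
      (s := e * (n + 1)) (by rw [hE, he, pow_mul])
  choose Ψ hΨ hΨ' using h4
  refine ⟨ω, Ψ, hΨ, fun σ U _ _ _ c d a ha S hS0 hS => ?_⟩
  refine mero_sum (U := U × Fin e) Fintype.one_lt_card hr0 hr1 hθ a ha
    (fun u => ω₀ (c u.1) ^ p ^ (u.2 : ℕ)) (fun u => ?_) (fun u s => d u.1 s * p ^ (u.2 : ℕ)) S hS0
    fun n => ⟨E n, inferInstance, inferInstance, ω n, (hω n).injective, hE n, ?_⟩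
  · rw [norm_pow]
    exact pow_le_one₀ (norm_nonneg _) (hω₀ _)
  · rw [hS]
    refine sum_congr rfl fun x _ => ?_
    rw [addChar_sum]
    simp only [dfun, prod_mul_distrib, hΨ', prod_range_mul', Fintype.prod_prod_type]
    congr 1
    · rw [prod_comm]
      refine prod_congr rfl fun s _ => ?_
      simp only [← pow_mul, prod_pow_eq_pow_sum, mul_sum, mul_comm]
    · rw [prod_comm]
      refine prod_congr rfl fun j _ => prod_congr rfl fun u _ => prod_congr rfl fun i _ => ?_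
      rw [pow_add, pow_mul p, ← he, pow_mul, map_mul, mul_pow, mul_pow, ← map_pow (ω n) _ (_ ^ j),
        ← map_pow (algebraMap F (E n)), FiniteField.pow_card_pow, hc, map_prod, ← prod_pow, ← prod_pow]
      simp only [map_pow, ← pow_mul]
      congr 2
      exact prod_congr rfl fun s _ => by ring

theorem prod_pow_single {σ M : Type*} [CommMonoid M] [Fintype σ] [DecidableEq σ] (z : σ → M)
    (a b : σ) : ∏ s, z s ^ (Pi.single a 1 + Pi.single b 1 : σ → ℕ) s = z a * z b := by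
  simp only [Pi.add_apply, pow_add, prod_mul_distrib]
  simp [Pi.single_apply, pow_ite]

/-- Multiplicative character sums of products of linear forms. -/
theorem exists_linear_data (F : Type*) [Field F] [Fintype F] [CharP F p] (E : ℕ → Type)
    [∀ n, Field (E n)] [∀ n, Fintype (E n)] [∀ n, Algebra F (E n)]
    (hE : ∀ n, Fintype.card (E n) = Fintype.card F ^ (n + 1)) :
    ∃ (ω : ∀ n, E n →*₀ ℂ_[p]) (Ψ : ∀ n, AddChar (E n) ℂ_[p]), (∀ n, Std p (ω n) (Ψ n)) ∧
      ∀ (τ ι : Type) [Fintype τ] [DecidableEq τ] [Fintype ι] (L : ι → τ → F) (k : ι → ℕ), k ≠ 0 →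
        ∀ W : ℕ → ℂ_[p], W 0 = 0 →
        (∀ n, ((Fintype.card F : ℂ_[p]) ^ (n + 1) - 1) * W (n + 1) = ∑ x : τ → E n,
          ∏ i, ω n (∑ j, algebraMap F (E n) (L i j) * x j) ^
            (k i * ∑ j ∈ range (n + 1), Fintype.card F ^ j)) → Mero (PowerSeries.mk W) := by
  classical
  obtain ⟨ω, Ψ, hΨ, h⟩ := exists_dwork_data (p := p) F E hE
  refine ⟨ω, Ψ, hΨ, fun τ ι _ _ _ L k hk W hW0 hW => ?_⟩
  obtain ⟨i₀, hi₀⟩ := Function.ne_iff.1 hk
  set q : ℂ_[p] := (Fintype.card F : ℂ_[p]) with hq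
  have hq0 : q ^ Fintype.card ι ≠ 0 := pow_ne_zero _ (Nat.cast_ne_zero.2 Fintype.card_ne_zero)
  have := (h (τ ⊕ ι ⊕ ι) (ι × Option τ) (fun u => u.2.elim 1 fun j => -L u.1 j)
    (fun u => Pi.single (.inr (.inr u.1)) 1 + Pi.single (u.2.elim (.inr (.inl u.1)) .inl) 1)
    (Sum.elim 0 (Sum.elim k 0)) (Function.ne_iff.2 ⟨.inr (.inl i₀), hi₀⟩)
    (fun n => (q ^ Fintype.card ι) ^ n * W n) (by simp [hW0]) fun n => ?_).rescale
    (q ^ Fintype.card ι)⁻¹
  · refine (show _ = PowerSeries.mk W from ?_) ▸ this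
    ext n
    rw [PowerSeries.coeff_rescale, PowerSeries.coeff_mk, PowerSeries.coeff_mk, inv_pow,
      inv_mul_cancel_left₀ (pow_ne_zero _ hq0)]
  · rw [mul_left_comm, hW, mul_sum, ← (Equiv.sumArrowEquivProdArrow _ _ _).symm.sum_comp,
      Fintype.sum_prod_type]
    refine sum_congr rfl fun x _ => ?_
    rw [← (Equiv.sumArrowEquivProdArrow _ _ _).symm.sum_comp, Fintype.sum_prod_type]
    simp only [prod_pow_single, Fintype.sum_prod_type, Fintype.sum_option, Fintype.prod_sum_type,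
      Equiv.sumArrowEquivProdArrow_symm_apply_inl, Equiv.sumArrowEquivProdArrow_symm_apply_inr,
      Option.elim, Sum.elim_inl, Sum.elim_inr, Pi.zero_apply, zero_mul, pow_zero, prod_const_one,
      one_mul, mul_one, map_one]
    have e : ∀ (v y : ι → E n) (i : ι), y i * v i + ∑ j, algebraMap F (E n) (-L i j) * (y i * x j) =
        y i * (v i - ∑ j, algebraMap F (E n) (L i j) * x j) := fun v y i => by
      rw [mul_sub, mul_sum, sub_eq_add_neg, ← sum_neg_distrib]
      congr 1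
      exact sum_congr rfl fun j _ => by rw [map_neg]; ring
    simp only [e, addChar_sum, ← mul_sum]
    simp only [fun v : ι → E n => (Fintype.prod_sum fun i a =>
      Ψ n (a * (v i - ∑ j, algebraMap F (E n) (L i j) * x j))).symm,
      AddChar.sum_mulShift _ (hΨ n).2.1, ← prod_mul_distrib]
    rw [← Fintype.prod_sum fun i (a : E n) =>
      ω n a ^ (k i * ∑ j ∈ range (n + 1), Fintype.card F ^ j) *
      ((if a - ∑ j, algebraMap F (E n) (L i j) * x j = 0 then Fintype.card (E n) else 0 : ℕ) : ℂ_[p])]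
    simp only [sub_eq_zero, Nat.cast_ite, Nat.cast_zero, mul_ite, mul_zero, sum_ite_eq', mem_univ,
      if_true, prod_mul_distrib, prod_const, card_univ, hE, Nat.cast_pow]
    rw [← hq]
    ring

end Pool.Agent.Lib.Dwork
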