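import Pool.Agent.Lib.Dwork.Theta

/-!
Teichmuller characters of finite fields and the additive character given by a splitting function.
-/

namespace Pool.Agent.Lib.Dwork

open Finset IsLocalRing

section Residue

variable (K : Type*) [NormedField K] [IsUltrametricDist K]

/-- The closed unit ball. -/
noncomputable abbrev OK : Subring K := (NormedField.valuation (K := K)).integer

variable {K}

theorem mem_OK {x : K} : x ∈ OK K ↔ ‖x‖ ≤ 1 := Iff.rfl

theorem res_eq_iff {x y : OK K} : residue _ x = residue _ y ↔ ‖(x : K) - y‖ < 1 := by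
  rw [← sub_eq_zero, ← map_sub, residue_eq_zero_iff, mem_maximalIdeal, mem_nonunits_iff,
    Valuation.Integer.not_isUnit_iff_valuation_lt_one]
  rfl

theorem res_natCast {Q : ℕ} (h : ‖(Q : K)‖ < 1) : (Q : ResidueField (OK K)) = 0 := by
  rw [← map_natCast (residue (OK K)), ← map_zero (residue (OK K)), res_eq_iff]
  simpa using h

theorem residue_algClosed [IsAlgClosed K] : IsAlgClosed (ResidueField (OK K)) := by
  refine IsAlgClosed.of_exists_root _ fun f hf hi => ?_
  obtain ⟨g, rfl, hd, hg⟩ := Polynomial.lifts_and_natDegree_eq_and_monic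
    (Polynomial.mem_lifts_of_surjective residue_surjective f) hf
  obtain ⟨z, hz⟩ := IsAlgClosed.exists_aeval_eq_zero K g (by
    rw [Polynomial.degree_eq_natDegree hg.ne_zero, hd]
    exact_mod_cast hi.natDegree_pos.ne')
  have hm : z ∈ OK K := (Valuation.integer.integers _).mem_of_integral ⟨g, hg, hz⟩
  refine ⟨residue _ ⟨z, hm⟩, ?_⟩
  have : g.eval ⟨z, hm⟩ = 0 :=
    (Polynomial.aeval_algebraMap_eq_zero_iff_of_injective (A := OK K) (B := K) (x := ⟨z, hm⟩)
      Subtype.val_injective).1 hz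
  rw [Polynomial.eval_map, Polynomial.eval₂_hom, this, map_zero]

omit [IsUltrametricDist K] in
theorem exists_root_near [IsAlgClosed K] {P : Polynomial K} (hP : P.Monic) {x : K}
    (h : ‖P.eval x‖ < 1) : ∃ z, P.eval z = 0 ∧ ‖x - z‖ < 1 := by
  by_contra! hc
  rw [(IsAlgClosed.splits P).eval_eq_prod_roots_of_monic hP] at h
  refine absurd h (not_lt.2 ?_)
  refine Multiset.prod_induction (fun y => 1 ≤ ‖y‖) _ (fun a b ha hb => by
    rw [norm_mul]; exact one_le_mul_of_one_le_of_one_le ha hb) (by simp) fun y hy => ?_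
  obtain ⟨z, hz, rfl⟩ := Multiset.mem_map.1 hy
  exact hc z (Polynomial.isRoot_of_mem_roots hz)

theorem teich_unique {Q : ℕ} (hQ : ‖(Q : K)‖ < 1) {z w : OK K} (hz : z ^ Q = z) (hw : w ^ Q = w)
    (h : residue _ z = residue _ w) : z = w := by
  by_contra hne
  have e := (Commute.all z w).geom_sum₂_mul Q
  rw [hz, hw, mul_eq_right₀ (sub_ne_zero.2 hne)] at e
  have := congrArg (residue _) e
  rw [map_sum, map_one, sum_congr rfl (g := fun _ => residue _ w ^ (Q - 1)) fun i hi => by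
    rw [map_mul, map_pow, map_pow, h, ← pow_add]
    congr 1
    have := mem_range.1 hi
    omega] at this
  simp [res_natCast hQ] at this

theorem exists_lift [IsAlgClosed K] {Q : ℕ} (hQ : 1 < Q) {x : ResidueField (OK K)}
    (hx : x ^ Q = x) : ∃ z : OK K, z ^ Q = z ∧ residue _ z = x := by
  obtain ⟨y, rfl⟩ := residue_surjective x
  obtain ⟨z, hz, h⟩ := exists_root_near (P := Polynomial.X ^ Q - Polynomial.X) (x := (y : K))
    (Polynomial.monic_X_pow_sub (by rw [Polynomial.degree_X]; exact_mod_cast hQ)) (by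
      rw [← map_pow, res_eq_iff] at hx
      simpa using hx)
  have hm : z ∈ OK K := by
    have : z = y + -(y - z) := by ring
    rw [mem_OK, this]
    exact (IsUltrametricDist.norm_add_le_max _ _).trans (max_le y.2 (by rw [norm_neg]; exact h.le))
  refine ⟨⟨z, hm⟩, Subtype.ext ?_, (res_eq_iff.2 h).symm⟩
  simpa [sub_eq_zero] using hz

end Residue

/-- A multiplicative map which is additive modulo the maximal ideal. -/
def Teich {E K : Type*} [Field E] [NormedField K] (ω : E →*₀ K) : Prop :=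
  ∀ x y, ‖ω (x + y) - (ω x + ω y)‖ < 1

variable {K : Type*} [NormedField K] [IsUltrametricDist K] {p : ℕ} [hp : Fact p.Prime]

theorem exists_teich [IsAlgClosed K] (h : ‖(p : K)‖ < 1) (F : Type*) [Field F] [Fintype F]
    [CharP F p] : ∃ ω₀ : F → K, (∀ a, ‖ω₀ a‖ ≤ 1) ∧ ∀ (E : Type) [Field E] [Fintype E]
      [Algebra F E], ∃ ω : E →*₀ K, Teich ω ∧ ∀ a, ω (algebraMap F E a) = ω₀ a := by
  have := residue_algClosed (K := K)
  have : CharP (ResidueField (OK K)) p := (CharP.charP_iff_prime_eq_zero hp.out).2 (res_natCast h)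
  let := ZMod.algebra F p
  let := ZMod.algebra (ResidueField (OK K)) p
  let i₀ : F →ₐ[ZMod p] ResidueField (OK K) := IsAlgClosed.lift
  let := i₀.toRingHom.toAlgebra
  choose τ₀ h1 h2 using fun a : F => exists_lift (Q := Fintype.card F) Fintype.one_lt_card
    (x := i₀ a) (by rw [← map_pow, FiniteField.pow_card])
  refine ⟨fun a => τ₀ a, fun a => (τ₀ a).2, fun E _ _ _ => ?_⟩
  let i : E →ₐ[F] ResidueField (OK K) := IsAlgClosed.lift
  choose τ h3 h4 using fun a : E => exists_lift (Q := Fintype.card E) Fintype.one_lt_card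
    (x := i a) (by rw [← map_pow, FiniteField.pow_card])
  have : CharP E p := charP_of_injective_algebraMap (algebraMap F E).injective p
  have hQ : ‖(Fintype.card E : K)‖ < 1 := by
    obtain ⟨n, -, e⟩ := FiniteField.card E p
    rw [e, Nat.cast_pow, norm_pow]
    exact pow_lt_one₀ (norm_nonneg _) h n.ne_zero
  have h0 : Fintype.card E ≠ 0 := Fintype.card_ne_zero
  refine ⟨⟨⟨fun a => τ a, ?_⟩, ?_, fun a b => ?_⟩, fun a b => ?_, fun a => ?_⟩
  · rw [teich_unique hQ (h3 0) (zero_pow h0) (by simp [h4])]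
    rfl
  · show (τ 1 : K) = 1
    rw [teich_unique hQ (h3 1) (one_pow _) (by simp [h4])]
    rfl
  · show (τ (a * b) : K) = τ a * τ b
    rw [teich_unique hQ (h3 (a * b)) (w := τ a * τ b) (by rw [mul_pow, h3, h3]) (by simp [h4])]
    rfl
  · exact (res_eq_iff (x := τ (a + b)) (y := τ a + τ b)).1 (by simp [h4])
  · show (τ _ : K) = τ₀ a
    rw [teich_unique hQ (h3 _) (w := τ₀ a) ?_ (by rw [h4, h2, AlgHom.commutes]; rfl)]
    rw [Module.card_eq_pow_finrank (K := F)]
    induction Module.finrank F E with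
    | zero => simp
    | succ n ih => rw [pow_succ, pow_mul, ih, h1]

section Props

variable {E : Type*} [Field E] [Fintype E] {ω : E →*₀ K}

omit [IsUltrametricDist K] in
theorem norm_teich (ω : E →*₀ K) {x : E} (hx : x ≠ 0) : ‖ω x‖ = 1 := by
  have := congrArg (fun y => ‖ω y‖) (FiniteField.pow_card_sub_one_eq_one x hx)
  simp only [map_pow, norm_pow, map_one, norm_one] at this
  exact (pow_eq_one_iff_of_nonneg (norm_nonneg _)
    (Nat.sub_ne_zero_of_lt Fintype.one_lt_card)).1 this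

omit [IsUltrametricDist K] in
theorem norm_teich_le (ω : E →*₀ K) (x : E) : ‖ω x‖ ≤ 1 := by
  rcases eq_or_ne x 0 with rfl | hx
  · simp
  · exact (norm_teich ω hx).le

omit [IsUltrametricDist K] in
theorem Teich.injective (h : Teich ω) : Function.Injective ω := by
  intro x y e
  by_contra hne
  have := h (x - y) y
  rw [sub_add_cancel, e, sub_add_cancel_right, norm_neg, norm_teich ω (sub_ne_zero.2 hne)] at this
  exact lt_irrefl _ this

theorem norm_sub_lt {a b c : K} {r : ℝ} (h : ‖a - b‖ < r) (h' : ‖b - c‖ < r) : ‖a - c‖ < r := by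
  rw [← sub_add_sub_cancel a b c]
  exact (IsUltrametricDist.norm_add_le_max _ _).trans_lt (max_lt h h')

theorem norm_add_sub_lt {a b c d : K} {r : ℝ} (h : ‖a - b‖ < r) (h' : ‖c - d‖ < r) :
    ‖a + c - (b + d)‖ < r := by
  rw [add_sub_add_comm]
  exact (IsUltrametricDist.norm_add_le_max _ _).trans_lt (max_lt h h')

theorem norm_mul_sub_lt {a b c d : K} {r : ℝ} (h : ‖a - b‖ < r) (h' : ‖c - d‖ < r)
    (hb : ‖b‖ ≤ 1) (hc : ‖c‖ ≤ 1) : ‖a * c - b * d‖ < r := by
  rw [show a * c - b * d = (a - b) * c + b * (c - d) by ring]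
  refine (IsUltrametricDist.norm_add_le_max _ _).trans_lt (max_lt ?_ ?_) <;> rw [norm_mul]
  · exact (mul_le_of_le_one_right (norm_nonneg _) hc).trans_lt h
  · exact (mul_le_of_le_one_left (norm_nonneg _) hb).trans_lt h'

omit [Fintype E] in
theorem Teich.sum (h : Teich ω) {ι : Type*} (s : Finset ι) (f : ι → E) :
    ‖ω (∑ i ∈ s, f i) - ∑ i ∈ s, ω (f i)‖ < 1 := by
  classical
  induction s using Finset.induction_on with
  | empty => simp
  | insert a s ha ih =>
    rw [sum_insert ha, sum_insert ha]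
    exact norm_sub_lt (h _ _) (norm_add_sub_lt (by simp) ih)

theorem norm_eq_of_sub_lt {a b : K} (h : ‖a - b‖ < ‖b‖) : ‖a‖ = ‖b‖ := by
  have := IsUltrametricDist.norm_add_eq_max_of_norm_ne_norm h.ne
  rwa [sub_add_cancel, max_eq_right h.le] at this

theorem eq_of_pow_prime {a b π : K} (hπ : π ^ (p - 1) = -p) (ha : a ^ p = 1) (hb : b ^ p = 1)
    (h : ‖a - b‖ < ‖π‖) : a = b := by
  by_contra hne
  have hp0 := hp.out.ne_zero
  have hb1 : ‖b‖ = 1 := (pow_eq_one_iff_of_nonneg (norm_nonneg _) hp0).1 (by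
    rw [← norm_pow, hb, norm_one])
  have ha1 : ‖a‖ = 1 := (pow_eq_one_iff_of_nonneg (norm_nonneg _) hp0).1 (by
    rw [← norm_pow, ha, norm_one])
  have hb0 : b ≠ 0 := norm_ne_zero_iff.1 (by rw [hb1]; exact one_ne_zero)
  have hu : IsPrimitiveRoot (a / b) (p - 1 + 1) := by
    rw [Nat.sub_add_cancel hp.out.pos]
    have : orderOf (a / b) = p :=
      orderOf_eq_prime (by rw [div_pow, ha, hb, div_one]) (fun h => hne (eq_of_div_eq_one h))
    exact this ▸ IsPrimitiveRoot.orderOf _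
  have e := congrArg norm hu.prod_one_sub_pow_eq_order
  rw [← Nat.cast_succ, Nat.succ_eq_add_one, Nat.sub_add_cancel hp.out.pos, ← norm_neg (p : K), ← hπ,
    norm_pow, norm_prod] at e
  have h1 : ‖1 - a / b‖ < ‖π‖ := by
    rw [one_sub_div hb0, norm_div, hb1, div_one, norm_sub_rev]
    exact h
  have h2 : ∀ k : ℕ, ‖1 - (a / b) ^ k‖ ≤ ‖1 - a / b‖ := by
    intro k
    rw [← geom_sum_mul_neg, norm_mul]
    refine mul_le_of_le_one_left (norm_nonneg _)
      (IsUltrametricDist.norm_sum_le_of_forall_le_of_nonneg zero_le_one fun i _ => ?_)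
    simp [ha1, hb1]
  have h3 : ∏ k ∈ range (p - 1), ‖1 - (a / b) ^ (k + 1)‖ ≤ ‖1 - a / b‖ ^ (p - 1) := by
    rw [← card_range (p - 1), ← prod_const, card_range]
    exact prod_le_prod (fun _ _ => norm_nonneg _) fun _ _ => h2 _
  rw [e] at h3
  exact absurd (pow_lt_pow_left₀ h1 (norm_nonneg _) (by have := hp.out.two_le; omega)) (not_lt.2 h3)

theorem prod_near {π : K} (hπ : ‖π‖ < 1) {ι : Type*} (s : Finset ι) (a t : ι → K)
    (ht : ∀ i, ‖t i‖ ≤ 1) (h : ∀ i, ‖a i - (1 + π * t i)‖ < ‖π‖) (h0 : π ≠ 0) :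
    ‖∏ i ∈ s, a i - (1 + π * ∑ i ∈ s, t i)‖ < ‖π‖ := by
  classical
  have h1 : ∀ u : K, ‖u‖ ≤ 1 → ‖1 + π * u‖ ≤ 1 := fun u hu =>
    (IsUltrametricDist.norm_add_le_max _ _).trans (max_le norm_one.le (by
      rw [norm_mul]; exact mul_le_one₀ hπ.le (norm_nonneg _) hu))
  have h2 : ∀ s : Finset ι, ‖∑ i ∈ s, t i‖ ≤ 1 := fun s =>
    IsUltrametricDist.norm_sum_le_of_forall_le_of_nonneg zero_le_one fun i _ => ht i
  have h3 : ∀ i, ‖a i‖ ≤ 1 := fun i => by
    rw [← sub_add_cancel (a i) (1 + π * t i)]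
    exact (IsUltrametricDist.norm_add_le_max _ _).trans (max_le ((h i).trans hπ).le (h1 _ (ht i)))
  have hpos := norm_pos_iff.2 h0
  induction s using Finset.induction_on with
  | empty => simpa using hpos
  | insert j s hj ih =>
    rw [prod_insert hj, sum_insert hj]
    refine norm_sub_lt (norm_mul_sub_lt (h j) ih (h1 _ (ht j)) ?_) ?_
    · rw [norm_prod]
      exact prod_le_one (fun _ _ => norm_nonneg _) fun i _ => h3 i
    · rw [show (1 + π * t j) * (1 + π * ∑ i ∈ s, t i) - (1 + π * (t j + ∑ i ∈ s, t i)) =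
        π * (π * (t j * ∑ i ∈ s, t i)) by ring, norm_mul, norm_mul, norm_mul]
      exact mul_lt_of_lt_one_right hpos (mul_lt_one_of_nonneg_of_lt_one_left (norm_nonneg _) hπ
        (mul_le_one₀ (ht j) (norm_nonneg _) (h2 s)))

/-- A Teichmuller character together with the additive character `1 + π Tr x` modulo `π ^ 2`. -/
def Std (p : ℕ) (ω : E →*₀ K) (Ψ : AddChar E K) : Prop :=
  Teich ω ∧ Ψ.IsPrimitive ∧ ∃ (π : K) (s : ℕ), π ≠ 0 ∧ ‖π‖ < 1 ∧ π ^ (p - 1) = -p ∧
    Fintype.card E = p ^ s ∧ ∀ x, ‖Ψ x - (1 + π * ω (∑ i ∈ range s, x ^ p ^ i))‖ < ‖π‖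

/-- The additive character defined by a splitting function. -/
theorem exists_addChar [CharP E p] (hK : ‖(p : K)‖ < 1) (hp0 : (p : K) ≠ 0) (h : Teich ω) {π : K}
    (hπ : π ^ (p - 1) = -p) {θ : K → K} (h1 : ∀ t, ‖t‖ ≤ 1 → ‖θ t - (1 + π * t)‖ < ‖π‖)
    (h2 : ∀ s t, ‖t‖ ≤ 1 → t ^ p ^ s = t → (∏ i ∈ range s, θ (t ^ p ^ i)) ^ p = 1)
    {s : ℕ} (hs : Fintype.card E = p ^ s) :
    ∃ Ψ : AddChar E K, Std p ω Ψ ∧ ∀ x, Ψ x = ∏ i ∈ range s, θ (ω x ^ p ^ i) := by
  have hp1 : p - 1 ≠ 0 := by have := hp.out.two_le; omega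
  have hπ0 : π ≠ 0 := fun e => by
    rw [e, zero_pow hp1] at hπ
    exact hp0 (neg_eq_zero.1 hπ.symm)
  have hπ1 : ‖π‖ < 1 := by
    rw [← norm_neg, ← hπ, norm_pow] at hK
    exact (pow_lt_one_iff_of_nonneg (norm_nonneg _) hp1).1 hK
  have hpos := norm_pos_iff.2 hπ0
  set Ψ : E → K := fun x => ∏ i ∈ range s, θ (ω x ^ p ^ i) with hΨ
  let T : E → K := fun x => ω (∑ i ∈ range s, x ^ p ^ i)
  have hT : ∀ x, ‖T x‖ ≤ 1 := fun x => norm_teich_le ω _
  have hw : ∀ (x : E) (i : ℕ), ‖ω x ^ p ^ i‖ ≤ 1 := fun x i => by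
    rw [← map_pow]; exact norm_teich_le ω _
  have h3 : ∀ x, Ψ x ^ p = 1 := fun x =>
    h2 s _ (norm_teich_le ω x) (by rw [← map_pow, ← hs, FiniteField.pow_card])
  have hsm : ∀ u v : K, ‖u - v‖ < 1 → ‖1 + π * u - (1 + π * v)‖ < ‖π‖ := fun u v e => by
    rw [add_sub_add_left_eq_sub, ← mul_sub, norm_mul]
    exact mul_lt_of_lt_one_right hpos e
  have h4 : ∀ x, ‖Ψ x - (1 + π * T x)‖ < ‖π‖ := fun x =>
    norm_sub_lt (prod_near hπ1 _ _ _ (hw x) (fun i => h1 _ (hw x i)) hπ0) (hsm _ _ (by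
      rw [norm_sub_rev]
      simpa only [map_pow] using h.sum (range s) fun i => x ^ p ^ i))
  have h5 : ∀ x y, Ψ (x + y) = Ψ x * Ψ y := fun x y => by
    refine eq_of_pow_prime hπ (h3 _) (by rw [mul_pow, h3, h3, one_mul]) ?_
    have e := prod_near hπ1 univ ![Ψ x, Ψ y] ![T x, T y] (by simp [hT]) (by simp [h4]) hπ0
    rw [norm_sub_rev] at e
    simp only [Fin.prod_univ_two, Fin.sum_univ_two, Matrix.cons_val_zero, Matrix.cons_val_one] at e
    refine norm_sub_lt (norm_sub_lt (h4 _) (hsm _ _ ?_)) e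
    simp only [T, add_pow_char_pow, sum_add_distrib]
    exact h _ _
  have h6 : Ψ 0 = 1 := by
    refine eq_of_pow_prime hπ (h3 _) (one_pow _) ?_
    simpa [T, hp.out.ne_zero] using h4 0
  refine ⟨⟨Ψ, h6, h5⟩, ⟨h, AddChar.IsPrimitive.of_ne_one fun e => ?_, π, s, hπ0, hπ1, hπ, hs, h4⟩,
    fun x => rfl⟩
  let := ZMod.algebra E p
  obtain ⟨b, hb⟩ : ∃ b : E, Algebra.trace (ZMod p) E b ≠ 0 := by
    by_contra! hc
    exact one_ne_zero ((traceForm_nondegenerate (ZMod p) E).1 1 fun b => hc _)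
  have hr : Module.finrank (ZMod p) E = s := by
    refine Nat.pow_right_injective hp.out.two_le ?_
    simp only
    rw [← hs, Module.card_eq_pow_finrank (K := ZMod p), ZMod.card]
  have hb' : ∑ i ∈ range s, b ^ p ^ i ≠ 0 := by
    have := FiniteField.algebraMap_trace_eq_sum_pow (ZMod p) E b
    rw [hr, Nat.card_zmod] at this
    rw [← this]
    exact (map_ne_zero _).2 hb
  have := h4 b
  rw [show Ψ b = 1 from DFunLike.congr_fun e b, sub_add_cancel_left, norm_neg, norm_mul,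
    norm_teich ω hb', mul_one] at this
  exact lt_irrefl _ this

end Props

end Pool.Agent.Lib.Dwork
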