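import Pool.Agent.Lib.Dwork.Series

/-!
The Artin-Hasse exponential and Dwork's splitting function.
-/

namespace Pool.Agent.Lib.Dwork

open PowerSeries Finset

section General

variable {K : Type*} [NormedField K] [IsUltrametricDist K] {p : ℕ} [hp : Fact p.Prime]

theorem norm_nat_coprime (h : ‖(p : K)‖ < 1) {m : ℕ} (hm : ¬ p ∣ m) : ‖(m : K)‖ = 1 := by
  refine le_antisymm (IsUltrametricDist.norm_natCast_le_one K m) (not_lt.1 fun h' => ?_)
  obtain ⟨a, b, e⟩ := Nat.isCoprime_iff_coprime.2 ((Nat.Prime.coprime_iff_not_dvd hp.out).2 hm)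
  have e' : (a : K) * p + b * m = 1 := by exact_mod_cast congrArg (Int.cast : ℤ → K) e
  have := IsUltrametricDist.norm_add_le_max ((a : K) * p) (b * m)
  rw [e', norm_one, norm_mul, norm_mul] at this
  have ha := IsUltrametricDist.norm_intCast_le_one K a
  have hb := IsUltrametricDist.norm_intCast_le_one K b
  refine absurd this (not_le.2 (max_lt ?_ ?_))
  · exact mul_lt_one_of_nonneg_of_lt_one_right ha (norm_nonneg _) h
  · exact mul_lt_one_of_nonneg_of_lt_one_right hb (norm_nonneg _) h'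

theorem norm_nat (h : ‖(p : K)‖ < 1) {n : ℕ} (hn : n ≠ 0) :
    ‖(n : K)‖ = ‖(p : K)‖ ^ padicValNat p n := by
  obtain ⟨m, hm⟩ : p ^ padicValNat p n ∣ n := pow_padicValNat_dvd
  have : ¬ p ∣ m := fun h' => pow_succ_padicValNat_not_dvd hn (by
    conv_rhs => rw [hm]
    rw [pow_succ]
    exact mul_dvd_mul_left _ h')
  conv_lhs => rw [hm]
  rw [Nat.cast_mul, norm_mul, norm_nat_coprime h this, mul_one, Nat.cast_pow, norm_pow]

theorem fact_bound (h : ‖(p : K)‖ < 1) {w : ℝ} (hw : 0 ≤ w) (hw1 : w ≤ 1)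
    (hwp : w ^ (p - 1) ≤ ‖(p : K)‖) (k : ℕ) : w ^ (k - 1) ≤ ‖(k.factorial : K)‖ := by
  rcases eq_or_ne k 0 with rfl | hk
  · simp
  rw [norm_nat h k.factorial_ne_zero]
  have := sub_one_mul_padicValNat_factorial_lt_of_ne_zero p hk
  calc _ ≤ w ^ ((p - 1) * padicValNat p k.factorial) := pow_le_pow_of_le_one hw hw1 (by omega)
    _ ≤ _ := by rw [pow_mul]; exact pow_le_pow_left₀ (by positivity) hwp _

end General

section Alg

variable {R : Type*} [CommRing R]

theorem LD.pow {w Z : R⟦X⟧} (h : LD w Z) (k : ℕ) : LD ((k : R⟦X⟧) * w) (Z ^ k) := by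
  induction k with
  | zero => simpa using LD.one
  | succ k ih =>
    have := ih.mul h
    rwa [← add_one_mul, ← Nat.cast_succ, ← pow_succ] at this

theorem LD.expand {w Z : R⟦X⟧} (h : LD w Z) (p : ℕ) (hp : p ≠ 0) :
    LD ((p : R⟦X⟧) * PowerSeries.expand p hp w) (PowerSeries.expand p hp Z) := by
  refine ⟨by rw [constantCoeff_expand, h.1], ?_⟩
  rw [mul_assoc, ← map_mul, ← h.2]
  ext n
  rw [coeff_X_mul_deriv, ← map_natCast (C (R := R)) p, coeff_C_mul, coeff_expand, coeff_expand]
  split_ifs with hd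
  · obtain ⟨m, rfl⟩ := hd
    rw [coeff_X_mul_deriv, Nat.mul_div_cancel_left _ (Nat.pos_of_ne_zero hp)]
    push_cast
    ring
  · simp

theorem ld_exp [Algebra ℚ R] (c : R) : LD (C c * X) (rescale c (exp R)) := by
  have : LD X (exp R) := ⟨constantCoeff_exp, by rw [derivative_exp]⟩
  simpa [rescale_X] using this.rescale c

open Classical in
/-- The series `∑ X ^ (p ^ j)`. -/
noncomputable def ahW (R : Type*) [CommRing R] (p : ℕ) : R⟦X⟧ :=
  PowerSeries.mk fun n => if ∃ j, n = p ^ j then 1 else 0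

theorem ahW_eq (p : ℕ) (hp : p.Prime) : ahW R p = X + expand p hp.ne_zero (ahW R p) := by
  classical
  ext n
  rw [map_add, coeff_expand, coeff_X]
  simp only [ahW, coeff_mk]
  by_cases h1 : n = 1
  · subst h1
    rw [if_pos ⟨0, by simp⟩, if_pos rfl, if_neg hp.not_dvd_one, add_zero]
  · rw [if_neg h1, zero_add]
    by_cases h2 : p ∣ n
    · obtain ⟨m, rfl⟩ := h2
      rw [if_pos (dvd_mul_right _ _), Nat.mul_div_cancel_left _ hp.pos]
      refine ite_congr (propext ⟨?_, ?_⟩) (fun _ => rfl) fun _ => rfl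
      · rintro ⟨j, hj⟩
        cases j with
        | zero => exact absurd (by simpa using hj) h1
        | succ j => exact ⟨j, Nat.eq_of_mul_eq_mul_left hp.pos (by rw [hj, pow_succ'])⟩
      · rintro ⟨j, rfl⟩
        exact ⟨j + 1, by rw [pow_succ']⟩
    · rw [if_neg h2, if_neg]
      rintro ⟨j, rfl⟩
      cases j with
      | zero => exact h1 (by simp)
      | succ j => exact h2 (dvd_pow_self _ j.succ_ne_zero)

end Alg

variable {p : ℕ} [hp : Fact p.Prime]

/-- Integrality of the Artin-Hasse exponential. -/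
theorem artinHasse_int {E : ℚ_[p]⟦X⟧} (h : LD (ahW ℚ_[p] p) E) (n : ℕ) : ‖coeff n E‖ ≤ 1 := by
  have hp0 := hp.out.ne_zero
  have hp1 : (1 : ℝ) < p := by exact_mod_cast hp.out.one_lt
  have hid : E ^ p = expand p hp0 E * rescale (p : ℚ_[p]) (exp ℚ_[p]) := by
    refine (h.pow p).unique ?_
    have := (h.expand p hp0).mul (ld_exp (p : ℚ_[p]))
    rwa [map_natCast, ← mul_add, add_comm, ← ahW_eq p hp.out] at this
  have hU : ∀ j, j ≠ 0 → ‖coeff j (rescale (p : ℚ_[p]) (exp ℚ_[p]))‖ ≤ (p : ℝ)⁻¹ := by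
    intro j hj
    have h1 := fact_bound (K := ℚ_[p]) Padic.norm_p_lt_one (w := (p : ℝ)⁻¹) (by positivity)
      (inv_le_one_of_one_le₀ hp1.le) (by
        rw [Padic.norm_p]
        exact pow_le_of_le_one (by positivity) (inv_le_one_of_one_le₀ hp1.le)
          (by have := hp.out.two_le; omega)) j
    have h2 : 0 < ‖(j.factorial : ℚ_[p])‖ := norm_pos_iff.2 (by exact_mod_cast j.factorial_ne_zero)
    rw [coeff_rescale, coeff_exp, norm_mul, norm_pow, Padic.norm_p]
    simp only [one_div, map_inv₀, map_natCast, norm_inv]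
    rw [← div_eq_mul_inv, div_le_iff₀ h2]
    calc _ = (p : ℝ)⁻¹ * (p : ℝ)⁻¹ ^ (j - 1) := by rw [← pow_succ', Nat.sub_add_cancel (by omega)]
      _ ≤ _ := by gcongr
  induction n using Nat.strong_induction_on with
  | _ n ih =>
    rcases eq_or_ne n 0 with rfl | hn
    · simp [h.1]
    let P : Polynomial ℤ_[p] :=
      ∑ i : Fin n, Polynomial.monomial i (⟨coeff i E, ih i i.2⟩ : ℤ_[p])
    have hP : P.map PadicInt.Coe.ringHom = trunc n E := by
      ext i
      rw [coeff_trunc, Polynomial.coeff_map]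
      simp only [P, Polynomial.finsetSum_coeff, Polynomial.coeff_monomial]
      split_ifs with hi
      · rw [sum_eq_single ⟨i, hi⟩]
        · simp
        · intro b _ hb
          rw [if_neg fun h => hb (Fin.ext h)]
        · simp
      · rw [sum_eq_zero, map_zero]
        intro b _
        rw [if_neg (by have := b.2; omega)]
    have h1 : ‖(trunc n E ^ p).coeff n - (Polynomial.expand _ p (trunc n E)).coeff n‖ < 1 := by
      rw [← hP, ← Polynomial.map_pow, ← Polynomial.map_expand, Polynomial.coeff_map,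
        Polynomial.coeff_map, ← map_sub]
      have : (P ^ p).coeff n - (Polynomial.expand _ p P).coeff n ∈
          RingHom.ker (PadicInt.toZMod (p := p)) := by
        rw [RingHom.mem_ker, map_sub, ← Polynomial.coeff_map, ← Polynomial.coeff_map,
          Polynomial.map_pow, Polynomial.map_expand, ZMod.expand_card, sub_self]
      rw [PadicInt.ker_toZMod, IsLocalRing.mem_maximalIdeal, PadicInt.mem_nonunits] at this
      exact this
    have h2 : (Polynomial.expand _ p (trunc n E)).coeff n = coeff n (expand p hp0 E) := by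
      rw [Polynomial.coeff_expand hp.out.pos, coeff_expand, coeff_trunc,
        if_pos (Nat.div_lt_self (by omega) hp.out.one_lt)]
    have h3 : ‖coeff n (E ^ p) - coeff n (expand p hp0 E)‖ < 1 := by
      rw [hid, ← map_sub, ← mul_sub_one, coeff_mul]
      refine lt_of_le_of_lt (IsUltrametricDist.norm_sum_le_of_forall_le_of_nonneg
        (C := (p : ℝ)⁻¹) (by positivity) fun x hx => ?_) (inv_lt_one_of_one_lt₀ hp1)
      rw [norm_mul, map_sub, coeff_one]
      rcases eq_or_ne x.2 0 with h0 | h0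
      · simp [h0]
      · rw [if_neg h0, sub_zero]
        refine (mul_le_of_le_one_left (norm_nonneg _) ?_).trans (hU _ h0)
        rw [coeff_expand]
        split_ifs
        · have := mem_antidiagonal.1 hx
          exact ih _ ((Nat.div_le_self _ _).trans_lt (by omega))
        · simp
    have h4 : coeff n (E ^ p) - (trunc n E ^ p).coeff n = p * coeff n E := by
      have e := (Commute.all E (trunc n E : ℚ_[p]⟦X⟧)).geom_sum₂_mul p
      have e2 : E - (trunc n E : ℚ_[p]⟦X⟧) = X ^ n * PowerSeries.mk fun i => coeff (i + n) E := by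
        rw [sub_eq_iff_eq_add]
        exact eq_X_pow_mul_shift_add_trunc n E
      rw [← Polynomial.coeff_coe, Polynomial.coe_pow, ← map_sub, ← e, e2, mul_left_comm]
      have := coeff_X_pow_mul ((∑ i ∈ range p, E ^ i * (trunc n E : ℚ_[p]⟦X⟧) ^ (p - 1 - i)) *
        PowerSeries.mk fun i => coeff (i + n) E) n 0
      rw [zero_add] at this
      have h0 : constantCoeff (trunc n E : ℚ_[p]⟦X⟧) = 1 := by
        rw [← coeff_zero_eq_constantCoeff_apply, Polynomial.coeff_coe, coeff_trunc,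
          if_pos (by omega), coeff_zero_eq_constantCoeff_apply, h.1]
      rw [this]
      rw [coeff_zero_eq_constantCoeff_apply, map_mul, ← coeff_zero_eq_constantCoeff_apply
        (PowerSeries.mk _), coeff_mk, zero_add]
      simp [h.1, h0]
    have h5 : ‖(p : ℚ_[p]) * coeff n E‖ < 1 := by
      rw [← h4, ← sub_sub_sub_cancel_right _ _ (coeff n (expand p hp0 E)), sub_eq_add_neg]
      refine (IsUltrametricDist.norm_add_le_max _ _).trans_lt (max_lt h3 ?_)
      rwa [norm_neg, ← h2]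
    have := (Padic.norm_le_pow_iff_norm_lt_pow_add_one (coeff n E) 0).2 (by
      rw [norm_mul, Padic.norm_p, inv_mul_lt_iff₀ (by positivity)] at h5
      simpa using h5)
    simpa using this

section Eval

variable {K : Type*} [NormedField K] [IsUltrametricDist K] [CompleteSpace K]

/-- The value of a power series. -/
noncomputable def ev (f : K⟦X⟧) (t : K) : K := ∑' n, coeff n f * t ^ n

omit [IsUltrametricDist K] [CompleteSpace K] in
theorem Bd.summable {ρ C : ℝ} {f : K⟦X⟧} (h : Bd ρ C f) (h0 : 0 ≤ ρ) (h1 : ρ < 1) {t : K}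
    (ht : ‖t‖ ≤ 1) : Summable fun n => ‖coeff n f * t ^ n‖ := by
  refine Summable.of_nonneg_of_le (fun _ => norm_nonneg _) (fun n => ?_)
    ((summable_geometric_of_lt_one h0 h1).mul_left C)
  rw [norm_mul, norm_pow]
  exact (mul_le_of_le_one_right (norm_nonneg _) (pow_le_one₀ (norm_nonneg _) ht)).trans (h n)

omit [IsUltrametricDist K] in
theorem ev_mul {f g : K⟦X⟧} {t : K} (hf : Summable fun n => ‖coeff n f * t ^ n‖)
    (hg : Summable fun n => ‖coeff n g * t ^ n‖) : ev (f * g) t = ev f t * ev g t := by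
  rw [ev, ev, ev, tsum_mul_tsum_eq_tsum_sum_antidiagonal_of_summable_norm hf hg]
  refine tsum_congr fun n => ?_
  rw [coeff_mul, sum_mul]
  refine sum_congr rfl fun x hx => ?_
  rw [← mem_antidiagonal.1 hx]
  ring

theorem ev_pow {ρ C : ℝ} {f : K⟦X⟧} (h : Bd ρ C f) (h0 : 0 ≤ ρ) (h1 : ρ < 1) {t : K}
    (ht : ‖t‖ ≤ 1) (k : ℕ) : ev (f ^ k) t = ev f t ^ k := by
  induction k with
  | zero =>
    rw [pow_zero, pow_zero, ev, tsum_eq_single 0]
    · simp
    · intro n hn
      simp [coeff_one, hn]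
  | succ k ih => rw [pow_succ, ev_mul ((h.pow h0 k).summable h0 h1 ht) (h.summable h0 h1 ht), ih,
      pow_succ]

omit [IsUltrametricDist K] [CompleteSpace K] in
theorem ev_expand (f : K⟦X⟧) (t : K) {p : ℕ} (hp : p ≠ 0) :
    ev (expand p hp f) t = ev f (t ^ p) := by
  rw [ev, ev, ← (mul_right_injective₀ hp).tsum_eq (f := fun n => coeff n (expand p hp f) * t ^ n)]
  · refine tsum_congr fun n => ?_
    rw [coeff_expand_mul, pow_mul]
  · intro n hn
    by_contra h
    refine hn ?_
    show coeff n (expand p hp f) * t ^ n = 0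
    rw [coeff_expand_of_not_dvd _ _ _ fun ⟨m, hm⟩ => h ⟨m, hm.symm⟩, zero_mul]

theorem norm_ev_sub {ρ C : ℝ} {f : K⟦X⟧} (h : Bd ρ C f) (h0 : 0 ≤ ρ) (h1 : ρ < 1) {t : K}
    (ht : ‖t‖ ≤ 1) (k : ℕ) {c : ℝ} (hc : ∀ n, k ≤ n → ‖coeff n f‖ ≤ c) :
    ‖ev f t - ∑ n ∈ range k, coeff n f * t ^ n‖ ≤ c := by
  rw [ev, ← (h.summable h0 h1 ht).of_norm.sum_add_tsum_nat_add k, add_sub_cancel_left]
  refine IsUltrametricDist.norm_tsum_le_of_forall_le fun n => ?_
  rw [norm_mul, norm_pow]
  exact (mul_le_of_le_one_right (norm_nonneg _) (pow_le_one₀ (norm_nonneg _) ht)).trans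
    (hc _ (by omega))

omit [IsUltrametricDist K] in
theorem tendsto_trunc {ρ C : ℝ} {f : K⟦X⟧} (h : Bd ρ C f) (h0 : 0 ≤ ρ) (h1 : ρ < 1) {t : K}
    (ht : ‖t‖ ≤ 1) : Filter.Tendsto (fun M => ∑ n ∈ range M, coeff n f * t ^ n) Filter.atTop
      (nhds (ev f t)) :=
  (h.summable h0 h1 ht).of_norm.hasSum.tendsto_sum_nat

end Eval

theorem norm_p_complex : ‖(p : ℂ_[p])‖ = (p : ℝ)⁻¹ := by
  rw [← Padic.norm_p, ← PadicComplex.norm_extends']
  congr 1
  simp

theorem norm_p_lt_one : ‖(p : ℂ_[p])‖ < 1 := by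
  rw [norm_p_complex]
  exact inv_lt_one_of_one_lt₀ (by exact_mod_cast hp.out.one_lt)

theorem three_mul_pow_ge (p j : ℕ) (hp : 2 ≤ p) : 4 * ((j + 2) * (p - 1) + 1) ≤ 3 * p ^ (j + 2) := by
  obtain ⟨a, rfl⟩ := Nat.exists_eq_add_of_le hp
  rw [show 2 + a - 1 = a + 1 by omega]
  induction j with
  | zero => rw [zero_add]; nlinarith
  | succ j ih =>
    rw [show j + 1 + 2 = (j + 2) + 1 by omega, pow_succ]
    generalize (2 + a) ^ (j + 2) = P at ih ⊢
    nlinarith [Nat.zero_le (a * P), Nat.zero_le (j * a)]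

/-- Dwork's splitting function `exp (π (X - X ^ p))`. -/
theorem exists_theta : ∃ (π : ℂ_[p]) (r : ℝ) (θ : ℂ_[p]⟦X⟧), 0 < r ∧ r < 1 ∧
    π ^ (p - 1) = -p ∧ Bd r 1 θ ∧ (∀ t, ‖t‖ ≤ 1 → ‖ev θ t - (1 + π * t)‖ < ‖π‖) ∧
    ∀ s t, ‖t‖ ≤ 1 → t ^ p ^ s = t → (∏ i ∈ range s, ev θ (t ^ p ^ i)) ^ p = 1 := by
  have hp0 := hp.out.ne_zero
  have hp2 := hp.out.two_le
  have hpn : (p : ℂ_[p]) ≠ 0 := Nat.cast_ne_zero.2 hp0
  obtain ⟨η, hη⟩ := IsAlgClosed.exists_pow_nat_eq (-(p : ℂ_[p])) (n := 4 * (p - 1)) (by omega)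
  set π := η ^ 4 with hπdef
  set r := ‖η‖ with hr
  have hπ : π ^ (p - 1) = -p := by rw [hπdef, ← pow_mul, hη]
  have hrp : r ^ (4 * (p - 1)) = ‖(p : ℂ_[p])‖ := by rw [hr, ← norm_pow, hη, norm_neg]
  have hw : ‖π‖ = r ^ 4 := by rw [hπdef, norm_pow]
  have hr0 : 0 < r := norm_pos_iff.2 fun h => by
    rw [h, zero_pow (by omega)] at hη
    exact hpn (neg_eq_zero.1 hη.symm)
  have hr1 : r < 1 := by
    by_contra h
    have := one_le_pow₀ (not_lt.1 h) (n := 4 * (p - 1))
    rw [hrp] at this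
    exact absurd norm_p_lt_one (not_lt.2 this)
  have hfac : ∀ k : ℕ, (r ^ 4) ^ (k - 1) ≤ ‖(k.factorial : ℂ_[p])‖ :=
    fact_bound norm_p_lt_one (by positivity) (pow_le_one₀ hr0.le hr1.le) (by rw [← pow_mul, hrp])
  have hfac0 : ∀ k : ℕ, 0 < ‖(k.factorial : ℂ_[p])‖ := fun k =>
    norm_pos_iff.2 (by exact_mod_cast k.factorial_ne_zero)
  obtain ⟨E₀, hE₀⟩ := exists_ld (w := ahW ℚ_[p] p) (by
    simp only [ahW, coeff_mk]
    rw [if_neg]
    rintro ⟨j, hj⟩
    exact pow_ne_zero j hp0 hj.symm)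
  let E : ℂ_[p]⟦X⟧ := rescale π (map (algebraMap ℚ_[p] ℂ_[p]) E₀)
  have hE : LD (rescale π (ahW ℂ_[p] p)) E := by
    have : map (algebraMap ℚ_[p] ℂ_[p]) (ahW ℚ_[p] p) = ahW ℂ_[p] p := by
      ext n
      simp only [ahW, coeff_map, coeff_mk]
      split_ifs <;> simp
    exact this ▸ (hE₀.map _).rescale π
  have hEb : ∀ n, ‖coeff n E‖ ≤ (r ^ 4) ^ n := by
    intro n
    rw [coeff_rescale, coeff_map, norm_mul, norm_pow, hw]
    refine mul_le_of_le_one_right (by positivity) ?_
    exact (PadicComplex.norm_extends' p _).le.trans (artinHasse_int hE₀ n)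
  classical
  let G : ℂ_[p]⟦X⟧ := PowerSeries.mk fun n => if ∃ j, n = p ^ (j + 2) then -(π ^ n / n) else 0
  have hG0 : constantCoeff G = 0 := by
    rw [← coeff_zero_eq_constantCoeff_apply, coeff_mk]
    simp
  have hGb : Bd r (r ^ 4) G := by
    intro n
    rw [coeff_mk]
    split_ifs with h
    · obtain ⟨j, rfl⟩ := h
      rw [norm_neg, norm_div, norm_pow, hw, Nat.cast_pow, norm_pow, ← hrp,
        div_le_iff₀ (by positivity), ← pow_mul, ← pow_mul, ← pow_add, ← pow_add]
      refine pow_le_pow_of_le_one hr0.le hr1.le ?_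
      have := three_mul_pow_ge p j hp2
      nlinarith
    · rw [norm_zero]
      positivity
  let H : ℂ_[p]⟦X⟧ := (exp ℂ_[p]).subst G
  have hH : LD (X * d⁄dX _ G) H := ld_exp_subst hG0
  have hHb : ∀ n, n ≠ 0 → ‖coeff n H‖ ≤ r ^ 4 * r ^ n := by
    intro n hn
    rw [coeff_subst' (HasSubst.of_constantCoeff_zero' hG0)]
    refine finsum_induction (fun x => ‖x‖ ≤ r ^ 4 * r ^ n) (by rw [norm_zero]; positivity)
      (fun x y hx hy => (IsUltrametricDist.norm_add_le_max _ _).trans (max_le hx hy)) fun k => ?_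
    rcases eq_or_ne k 0 with rfl | hk
    · simp only [pow_zero, coeff_one, hn, if_false, smul_zero, norm_zero]
      positivity
    · rw [smul_eq_mul, norm_mul, coeff_exp]
      simp only [one_div, map_inv₀, map_natCast, norm_inv]
      rw [inv_mul_le_iff₀ (hfac0 k)]
      calc _ ≤ (r ^ 4) ^ k * r ^ n := hGb.pow hr0.le k n
        _ = (r ^ 4) ^ (k - 1) * (r ^ 4 * r ^ n) := by
            rw [← mul_assoc, ← pow_succ, Nat.sub_add_cancel (by omega)]
        _ ≤ _ := mul_le_mul_of_nonneg_right (hfac k) (by positivity)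
  have hθ : LD (C π * X - C (p * π) * X ^ p) (E * H) := by
    convert hE.mul hH using 1
    ext n
    rw [map_add, coeff_X_mul_deriv, coeff_rescale, map_sub, coeff_C_mul, coeff_C_mul, coeff_X,
      coeff_X_pow]
    simp only [ahW, G, coeff_mk]
    by_cases h1 : n = 1
    · subst h1
      rw [if_pos rfl, if_neg (by omega), if_pos ⟨0, by simp⟩, if_neg]
      · simp
      · rintro ⟨j, hj⟩
        exact absurd hj.symm (Nat.one_lt_pow (by omega) hp.out.one_lt).ne'
    · by_cases h2 : n = p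
      · subst h2
        rw [if_neg h1, if_pos rfl, if_pos ⟨1, by simp⟩, if_neg]
        · have : π ^ n = π ^ (n - 1) * π := by rw [← pow_succ, Nat.sub_add_cancel (by omega)]
          rw [this, hπ]
          ring
        · rintro ⟨j, hj⟩
          have := Nat.pow_right_injective hp2 ((pow_one n).trans hj)
          omega
      · rw [if_neg h1, if_neg h2]
        by_cases h3 : ∃ j, n = p ^ (j + 2)
        · obtain ⟨j, hj⟩ := h3
          have hn : (n : ℂ_[p]) ≠ 0 := by rw [hj]; exact_mod_cast pow_ne_zero _ hp0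
          rw [if_pos ⟨j + 2, hj⟩, if_pos ⟨j, hj⟩]
          field_simp
          ring
        · rw [if_neg h3, if_neg]
          · simp
          · rintro ⟨j, hj⟩
            match j, hj with
            | 0, hj => exact h1 (by simpa using hj)
            | 1, hj => exact h2 (by simpa using hj)
            | j + 2, hj => exact h3 ⟨j, hj⟩
  have hr4 : r ^ 4 ≤ r := pow_le_of_le_one hr0.le hr1.le (by norm_num)
  have hr41 : r ^ 4 ≤ 1 := pow_le_one₀ hr0.le hr1.le
  have hb : Bd r 1 (E * H) := by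
    have h1 : Bd r 1 E := fun n => (hEb n).trans (by rw [one_mul]; gcongr)
    have h2 : Bd r 1 H := fun n => by
      rcases eq_or_ne n 0 with rfl | hn
      · simp [hH.1]
      · exact (hHb n hn).trans (by gcongr)
    simpa using h1.mul hr0.le h2
  have hc1 : coeff 1 (E * H) = π := by
    have := hθ.rec 0
    simpa [hθ.1, coeff_X_pow, show (1 : ℕ) ≠ p by omega, -map_mul, coeff_C_mul] using this
  have hc2 : ∀ n, 2 ≤ n → ‖coeff n (E * H)‖ ≤ r ^ 4 * r := by
    intro n hn
    rw [coeff_mul]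
    refine IsUltrametricDist.norm_sum_le_of_forall_le_of_nonneg (by positivity) fun x hx => ?_
    have := mem_antidiagonal.1 hx
    rw [norm_mul]
    rcases eq_or_ne x.2 0 with h0 | h0
    · rw [h0, coeff_zero_eq_constantCoeff_apply, hH.1, norm_one, mul_one]
      calc _ ≤ (r ^ 4) ^ x.1 := hEb _
        _ ≤ (r ^ 4) ^ 2 := pow_le_pow_of_le_one (by positivity) hr41 (by omega)
        _ ≤ _ := by rw [sq]; gcongr
    · refine (mul_le_of_le_one_left (norm_nonneg _)
        ((hEb _).trans (pow_le_one₀ (by positivity) hr41))).trans ((hHb _ h0).trans ?_)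
      exact mul_le_mul_of_nonneg_left (pow_le_of_le_one hr0.le hr1.le h0) (by positivity)
  refine ⟨π, r, E * H, hr0, hr1, hπ, hb, fun t ht => ?_, fun s t ht hs => ?_⟩
  · have := norm_ev_sub hb hr0.le hr1 ht 2 hc2
    rw [sum_range_succ, sum_range_one, hc1, coeff_zero_eq_constantCoeff_apply, hθ.1] at this
    simp only [pow_zero, mul_one, pow_one] at this
    rw [hw]
    exact this.trans_lt (mul_lt_of_lt_one_right (by positivity) hr1)
  · let e : ℂ_[p]⟦X⟧ := rescale (p * π) (exp ℂ_[p])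
    have he : LD (C (p * π) * X) e := ld_exp _
    have hid : (E * H) ^ p * expand p hp0 e = e := by
      refine LD.unique ?_ he
      convert (hθ.pow p).mul (he.expand p hp0) using 1
      rw [map_mul (expand p hp0), expand_C, expand_X, map_mul, map_natCast]
      ring
    have heb : ∀ n, ‖coeff n e‖ ≤ (r ^ p) ^ n := by
      intro n
      rw [coeff_rescale, coeff_exp, norm_mul, norm_pow, norm_mul, hw, ← hrp]
      simp only [one_div, map_inv₀, map_natCast, norm_inv]
      rw [← div_eq_mul_inv, div_le_iff₀ (hfac0 n), mul_pow]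
      refine mul_le_mul (pow_le_pow_left₀ (by positivity)
        (pow_le_pow_of_le_one hr0.le hr1.le (by omega)) n) ?_ (by positivity) (by positivity)
      exact (pow_le_pow_of_le_one (by positivity) hr41 (by omega)).trans (hfac n)
    have hrpr : r ^ p ≤ r := pow_le_of_le_one hr0.le hr1.le hp0
    have heb1 : Bd r 1 e := fun n => (heb n).trans (by rw [one_mul]; gcongr)
    have heb2 : Bd r 1 (expand p hp0 e) := fun n => by
      rw [coeff_expand, one_mul]
      split_ifs with h
      · obtain ⟨m, rfl⟩ := h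
        rw [Nat.mul_div_cancel_left _ hp.out.pos, pow_mul]
        exact heb m
      · rw [norm_zero]
        positivity
    have hne : ∀ u : ℂ_[p], ‖u‖ ≤ 1 → ev e u ≠ 0 := by
      intro u hu h0
      have := norm_ev_sub heb1 hr0.le hr1 hu 1 (c := r) fun n hn =>
        (heb1 n).trans (by rw [one_mul]; exact pow_le_of_le_one hr0.le hr1.le (by omega))
      rw [h0, sum_range_one, coeff_zero_eq_constantCoeff_apply, he.1] at this
      simp only [pow_zero, mul_one, zero_sub, norm_neg, norm_one] at this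
      linarith
    have hu : ∀ i, ‖t ^ p ^ i‖ ≤ 1 := fun i => by
      rw [norm_pow]
      exact pow_le_one₀ (norm_nonneg _) ht
    have step : ∀ i, ev (E * H) (t ^ p ^ i) ^ p * ev e (t ^ p ^ (i + 1)) = ev e (t ^ p ^ i) := by
      intro i
      rw [← ev_pow hb hr0.le hr1 (hu i), pow_succ, pow_mul, ← ev_expand e _ hp0,
        ← ev_mul ((hb.pow hr0.le p).summable hr0.le hr1 (hu i)) (heb2.summable hr0.le hr1 (hu i)),
        hid]
    have tel : ∀ s, (∏ i ∈ range s, ev (E * H) (t ^ p ^ i)) ^ p * ev e (t ^ p ^ s) = ev e t := by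
      intro s
      induction s with
      | zero => simp
      | succ s ih => rw [prod_range_succ, mul_pow, mul_assoc, step, ih]
    have := tel s
    rw [hs] at this
    exact mul_right_cancel₀ (hne t ht) (this.trans (one_mul _).symm)

end Pool.Agent.Lib.Dwork
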