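import Pool.Agent.Lib.Dwork.Teich

/-!
Dwork's trace formula, through finite matrices attached to truncated series.
-/

namespace Pool.Agent.Lib.Dwork

open Finset MvPolynomial

section Alg

variable {σ R : Type*} [CommRing R] [Fintype σ] [DecidableEq σ]

/-- The product `G(x) G(x ^ q) ⋯ G(x ^ q ^ (n - 1))`. -/
noncomputable def iter (q : ℕ) (G : MvPolynomial σ R) : ℕ → MvPolynomial σ R
  | 0 => 1
  | n + 1 => expand q (iter q G n) * G

omit [Fintype σ] [DecidableEq σ] in
theorem eval_iter (q : ℕ) (G : MvPolynomial σ R) (n : ℕ) (z : σ → R) :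
    eval z (iter q G n) = ∏ j ∈ range n, eval (fun i => z i ^ q ^ j) G := by
  induction n generalizing z with
  | zero => simp [iter]
  | succ n ih =>
    rw [iter, map_mul, eval_expand, ih, prod_range_succ']
    simp only [Pi.pow_apply, ← pow_mul, pow_zero, pow_one, ← pow_succ']

omit [Fintype σ] [DecidableEq σ] in
theorem totalDegree_iter {q : ℕ} (hq : 2 ≤ q) (G : MvPolynomial σ R) (n : ℕ) :
    (iter q G n).totalDegree + G.totalDegree ≤ q ^ n * G.totalDegree := by
  induction n with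
  | zero => simp [iter]
  | succ n ih =>
    have := totalDegree_mul (expand q (iter q G n)) G
    rw [totalDegree_expand] at this
    rw [iter, pow_succ]
    nlinarith [Nat.mul_le_mul_right q ih, Nat.mul_le_mul_right G.totalDegree hq]

omit [Fintype σ] in
theorem coeff_expand_mul {q : ℕ} (hq : q ≠ 0) (H P : MvPolynomial σ R) (v : σ →₀ ℕ)
    (B : Finset (σ →₀ ℕ)) (hB : ∀ u ≤ v, coeff (q • u) P ≠ 0 → u ∈ B) :
    coeff (q • v) (expand q H * P) = ∑ u ∈ B, coeff v (H * monomial u 1) * coeff (q • u) P := by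
  induction H using MvPolynomial.induction_on' with
  | add f g hf hg => simp only [map_add, add_mul, coeff_add, hf, hg, sum_add_distrib]
  | monomial a c =>
    simp only [expand_monomial, coeff_monomial_mul', monomial_mul, coeff_monomial, mul_one]
    by_cases h : a ≤ v
    · obtain ⟨u, rfl⟩ := exists_add_of_le h
      rw [if_pos (nsmul_le_nsmul_right h q), smul_add, add_tsub_cancel_left]
      simp only [add_right_inj, ite_mul, zero_mul, sum_ite_eq']
      split_ifs with hu
      · rfl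
      · rw [not_imp_comm.1 (hB u le_add_self) hu, mul_zero]
    · rw [if_neg fun h' => h fun i => Nat.le_of_mul_le_mul_left (h' i) (Nat.pos_of_ne_zero hq)]
      refine (sum_eq_zero fun u _ => ?_).symm
      rw [if_neg, zero_mul]
      rintro rfl
      exact h le_self_add

/-- Exponents of degree at most `d` supported in `I`. -/
noncomputable def box (I : Finset σ) (d : ℕ) : Finset (σ →₀ ℕ) :=
  (Finsupp.finite_of_degree_le d).toFinset.filter fun v => ∀ i, i ∉ I → v i = 0

theorem mem_box {I : Finset σ} {d : ℕ} {v : σ →₀ ℕ} :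
    v ∈ box I d ↔ v.degree ≤ d ∧ ∀ i, i ∉ I → v i = 0 := by
  simp [box]

/-- The matrix of Dwork's operator. -/
noncomputable def dmat (q : ℕ) (G : MvPolynomial σ R) (I : Finset σ) :
    Matrix (box I G.totalDegree) (box I G.totalDegree) R :=
  fun v w => coeff (q • v.1) (G * monomial w.1 1)

omit [Fintype σ] [DecidableEq σ] in
theorem degree_le_of_coeff {P : MvPolynomial σ R} {v : σ →₀ ℕ} (h : coeff v P ≠ 0) :
    v.degree ≤ P.totalDegree := le_totalDegree (mem_support_iff.2 h)

theorem dmat_pow {q : ℕ} (hq : 2 ≤ q) (G : MvPolynomial σ R) (I : Finset σ) (n : ℕ) (v w) :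
    (dmat q G I ^ n) v w = coeff (q ^ n • v.1) (iter q G n * monomial w.1 1) := by
  induction n generalizing w with
  | zero =>
    rw [pow_zero, pow_zero, one_smul, iter, one_mul, coeff_monomial, Matrix.one_apply]
    exact if_congr (Subtype.ext_iff.trans eq_comm) rfl rfl
  | succ n ih =>
    rw [pow_succ, Matrix.mul_apply, iter, mul_assoc, pow_succ', mul_smul,
      coeff_expand_mul (by omega) _ _ _ (box I G.totalDegree), ← sum_coe_sort (box _ _)]
    · exact sum_congr rfl fun u _ => by rw [ih, dmat]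
    · intro u hu h
      refine mem_box.2 ⟨?_, fun i hi => ?_⟩
      · have h1 := (degree_le_of_coeff h).trans (totalDegree_mul _ _)
        have h2 : (monomial w.1 (1 : R)).totalDegree ≤ G.totalDegree :=
          (totalDegree_monomial_le _ _).trans (mem_box.1 w.2).1
        rw [map_nsmul, smul_eq_mul] at h1
        nlinarith
      · have := hu i
        rw [Finsupp.smul_apply, (mem_box.1 v.2).2 i hi] at this
        simpa using this

theorem trace_dmat {q : ℕ} (hq : 2 ≤ q) (G : MvPolynomial σ R) (I : Finset σ) (n : ℕ) :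
    Matrix.trace (dmat q G I ^ n) =
      ∑ v ∈ box I G.totalDegree, coeff ((q ^ n - 1) • v) (iter q G n) := by
  rw [← sum_coe_sort]
  refine sum_congr rfl fun v _ => ?_
  have : q ^ n • v.1 = (q ^ n - 1) • v.1 + v.1 := by
    rw [← succ_nsmul, Nat.sub_add_cancel (Nat.one_le_pow _ _ (by omega))]
  rw [Matrix.diag_apply, dmat_pow hq, this, coeff_mul_monomial, mul_one]

end Alg

section Points

variable {σ K E : Type*} [Field K] [Fintype σ] [DecidableEq σ] [Field E] [Fintype E]
  [DecidableEq E] {ω : E →*₀ K}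

theorem sum_teich_pow (hω : Function.Injective ω) (u : ℕ) :
    ∑ x ∈ univ.filter (· ≠ 0), ω x ^ u =
      if Fintype.card E - 1 ∣ u then ((Fintype.card E - 1 : ℕ) : K) else 0 := by
  classical
  let f : Eˣ →* K := (powMonoidHom u).comp (ω.toMonoidHom.comp (Units.coeHom E))
  have h1 : ∑ x : Eˣ, f x = ∑ x ∈ univ.filter (· ≠ 0), ω x ^ u := by
    refine sum_bij (fun x _ => (x : E)) (fun x _ => by simp) (fun x _ y _ h => Units.ext h)
      (fun x hx => ⟨Units.mk0 x (mem_filter.1 hx).2, mem_univ _, rfl⟩) fun x _ => rfl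
  rw [← h1, sum_hom_units, Fintype.card_units]
  have : f = 1 ↔ Fintype.card E - 1 ∣ u := by
    rw [← FiniteField.forall_pow_eq_one_iff, MonoidHom.ext_iff]
    refine forall_congr' fun x => ?_
    rw [Units.ext_iff, ← hω.eq_iff]
    simp [f]
  simp only [this]
  split_ifs <;> simp

/-- Points with support `I`. -/
def pts (E : Type*) [Zero E] [Fintype E] [DecidableEq E] (I : Finset σ) : Finset (σ → E) :=
  Fintype.piFinset fun i => if i ∈ I then univ.filter (· ≠ 0) else {0}

theorem sum_pts (hω : Function.Injective ω) (I : Finset σ) (P : MvPolynomial σ K)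
    (B : Finset (σ →₀ ℕ)) (h1 : ∀ v ∈ B, ∀ i, i ∉ I → v i = 0)
    (h2 : ∀ v : σ →₀ ℕ, (∀ i, i ∉ I → v i = 0) → coeff ((Fintype.card E - 1) • v) P ≠ 0 → v ∈ B) :
    ∑ x ∈ pts E I, eval (fun i => ω (x i)) P =
      ((Fintype.card E - 1 : ℕ) : K) ^ I.card * ∑ v ∈ B, coeff ((Fintype.card E - 1) • v) P := by
  set N := Fintype.card E - 1 with hN
  have hN0 : N ≠ 0 := Nat.sub_ne_zero_of_lt Fintype.one_lt_card
  have key : ∀ d : σ →₀ ℕ, ∑ x ∈ pts E I, ∏ i, ω (x i) ^ d i =
      if (∀ i, N ∣ d i) ∧ ∀ i, i ∉ I → d i = 0 then (N : K) ^ I.card else 0 := by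
    intro d
    rw [pts, ← prod_univ_sum (fun i => if i ∈ I then univ.filter (· ≠ (0 : E)) else {0})
      fun i x => ω x ^ d i]
    split_ifs with h
    · rw [← prod_const, ← prod_subset (subset_univ I)]
      · exact prod_congr rfl fun i hi => by rw [if_pos hi, sum_teich_pow hω, if_pos (h.1 i)]
      · intro i _ hi
        simp [hi, h.2 i hi]
    · by_contra hne
      have := fun i => prod_ne_zero_iff.1 hne i (mem_univ i)
      have h3 : ∀ i, i ∉ I → d i = 0 := fun i hi => by simpa [hi] using this i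
      refine h ⟨fun i => ?_, h3⟩
      by_cases hi : i ∈ I
      · by_contra hd
        have := this i
        rw [if_pos hi, sum_teich_pow hω, if_neg hd] at this
        exact this rfl
      · simp [h3 i hi]
  simp only [eval_eq']
  rw [sum_comm]
  simp only [← mul_sum, key]
  rw [mul_sum, ← sum_image (f := fun d => (N : K) ^ I.card * coeff d P)
    fun x _ y _ h => smul_right_injective _ hN0 h]
  have hc : ∀ d ∈ B.image (N • ·), (∀ i, N ∣ d i) ∧ ∀ i, i ∉ I → d i = 0 := by
    intro d hd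
    obtain ⟨v, hv, rfl⟩ := mem_image.1 hd
    exact ⟨fun i => by simp, fun i hi => by simp [h1 v hv i hi]⟩
  refine sum_congr_of_eq_on_inter (fun d hd hd' => ?_) (fun d _ hd => ?_) fun d _ hd => ?_
  · rw [if_neg, mul_zero]
    rintro ⟨h3, h4⟩
    have e : N • d.mapRange (· / N) (by simp) = d := by
      ext i
      simp [Nat.mul_div_cancel' (h3 i)]
    refine hd' (mem_image.2 ⟨_, h2 _ (fun i hi => by simp [h4 i hi]) ?_, e⟩)
    rw [e]
    exact mem_support_iff.1 hd
  · rw [notMem_support_iff.1 hd, mul_zero]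
  · rw [if_pos (hc d hd), mul_comm]

theorem sum_eq_sum_pts {M : Type*} [AddCommMonoid M] (f : (σ → E) → M) :
    ∑ x, f x = ∑ I : Finset σ, ∑ x ∈ pts E I, f x := by
  rw [← sum_fiberwise univ fun x : σ → E => univ.filter fun i => x i ≠ 0]
  refine sum_congr rfl fun I _ => sum_congr ?_ fun _ _ => rfl
  ext x
  simp only [pts, mem_filter, mem_univ, true_and, Fintype.mem_piFinset, Finset.ext_iff]
  refine forall_congr' fun i => ?_
  split_ifs with h <;> simp [h]

theorem sum_pts_iter (hω : Function.Injective ω) {q n : ℕ} (hq : 2 ≤ q)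
    (hE : Fintype.card E = q ^ n) (I : Finset σ) (G : MvPolynomial σ K) :
    ∑ x ∈ pts E I, ∏ j ∈ range n, eval (fun i => ω (x i) ^ q ^ j) G =
      ((q : K) ^ n - 1) ^ I.card * Matrix.trace (dmat q G I ^ n) := by
  have h1 : 1 < q ^ n := hE ▸ Fintype.one_lt_card
  simp only [← eval_iter]
  rw [sum_pts hω I _ (box I G.totalDegree) (fun v hv => (mem_box.1 hv).2), trace_dmat hq, hE,
    Nat.cast_sub h1.le, Nat.cast_pow, Nat.cast_one]
  intro v hv h
  refine mem_box.2 ⟨?_, hv⟩
  have h2 := degree_le_of_coeff h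
  have h3 := totalDegree_iter hq G n
  rw [map_nsmul, smul_eq_mul, hE] at h2
  obtain ⟨N, hN⟩ := Nat.exists_eq_add_of_lt h1
  rw [hN] at h2 h3
  rw [show 1 + N + 1 - 1 = N + 1 by omega] at h2
  nlinarith

end Points

section Bound

variable {K : Type*} [NormedField K] [IsUltrametricDist K]

theorem det_bd {ι : Type*} [Fintype ι] [DecidableEq ι] (A : Matrix ι ι K) (wt b : ι → ℝ)
    (hwt : ∀ v, 0 < wt v) (h : ∀ v w, ‖A v w‖ ≤ wt v / wt w * b v) {ε : ℝ} (hε : 0 < ε) :
    Bd ε (∏ v, max 1 (b v / ε))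
      (Matrix.det (1 - (PowerSeries.X : PowerSeries K) • A.map PowerSeries.C)) := by
  rw [Matrix.det_apply]
  refine Bd.sum hε.le (prod_nonneg fun _ _ => by positivity) _ fun s _ => ?_
  have key : Bd ε (∏ v, wt (s v) / wt v * max 1 (b (s v) / ε))
      (∏ i, (1 - (PowerSeries.X : PowerSeries K) • A.map PowerSeries.C) (s i) i) := by
    refine Bd.prod hε.le _ fun v _ n => ?_
    have h0 : 0 ≤ wt (s v) / wt v := (div_pos (hwt _) (hwt _)).le
    rw [Matrix.sub_apply, Matrix.smul_apply, Matrix.map_apply, smul_eq_mul, map_sub,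
      Matrix.one_apply]
    match n with
    | 0 =>
      split_ifs with e
      · simp [e, (hwt v).ne']
      · simp only [map_zero, PowerSeries.coeff_zero_X_mul, sub_zero, norm_zero]
        positivity
    | 1 =>
      have : PowerSeries.coeff 1 (if s v = v then (1 : PowerSeries K) else 0) = 0 := by
        split_ifs <;> simp [PowerSeries.coeff_one]
      rw [this, PowerSeries.coeff_succ_X_mul, PowerSeries.coeff_zero_C, zero_sub, norm_neg, pow_one,
        mul_assoc]
      exact (h _ _).trans (mul_le_mul_of_nonneg_left ((div_le_iff₀ hε).1 (le_max_right _ _)) h0)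
    | n + 2 =>
      have : PowerSeries.coeff (n + 2) (if s v = v then (1 : PowerSeries K) else 0) = 0 := by
        split_ifs <;> simp [PowerSeries.coeff_one]
      rw [this, PowerSeries.coeff_succ_X_mul, PowerSeries.coeff_succ_C, sub_zero, norm_zero]
      positivity
  rw [prod_mul_distrib, prod_div_distrib, Equiv.prod_comp s wt,
    div_self (prod_pos fun v _ => hwt v).ne', one_mul,
    Equiv.prod_comp s fun v => max 1 (b v / ε)] at key
  rcases Int.units_eq_one_or (Equiv.Perm.sign s) with e | e <;> rw [e]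
  · rwa [one_smul]
  · rw [Units.neg_smul, one_smul]
    exact key.neg

variable {σ : Type*} [Fintype σ] [DecidableEq σ]

omit [DecidableEq σ] in
theorem exists_prod_bound {ρ : ℝ} (h0 : 0 ≤ ρ) (h1 : ρ < 1) (c ε : ℝ) (hε : 0 < ε) :
    ∃ C, ∀ B : Finset (σ →₀ ℕ), ∏ v ∈ B, max 1 (c * ρ ^ v.degree / ε) ≤ C := by
  classical
  obtain ⟨D, hD⟩ := exists_pow_lt_of_lt_one (show 0 < ε / (|c| + 1) by positivity) h1
  let T := (Finsupp.finite_of_degree_le (σ := σ) D).toFinset
  refine ⟨max 1 (|c| / ε) ^ T.card, fun B => ?_⟩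
  calc _ ≤ ∏ v ∈ B, if v ∈ T then max 1 (|c| / ε) else 1 := by
        refine prod_le_prod (fun _ _ => by positivity) fun v _ => ?_
        have h2 : c * ρ ^ v.degree ≤ |c| * ρ ^ v.degree := by gcongr; exact le_abs_self c
        split_ifs with hv
        · refine max_le_max le_rfl (div_le_div_of_nonneg_right (h2.trans ?_) hε.le)
          exact mul_le_of_le_one_right (abs_nonneg c) (pow_le_one₀ h0 h1.le)
        · refine max_le le_rfl ((div_le_one hε).2 (h2.trans ?_))
          have h3 : ρ ^ v.degree ≤ ρ ^ D :=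
            pow_le_pow_of_le_one h0 h1.le (by simp [T] at hv; omega)
          rw [lt_div_iff₀ (by positivity)] at hD
          nlinarith [abs_nonneg c, pow_nonneg h0 D]
    _ = max 1 (|c| / ε) ^ (B.filter (· ∈ T)).card := by
        rw [prod_ite, prod_const, prod_const_one, mul_one]
    _ ≤ _ := pow_le_pow_right₀ (le_max_left _ _) (card_le_card fun v hv => (mem_filter.1 hv).2)

/-- The coefficients of `P` are bounded by `C ρ ^ degree`. -/
def MBd (ρ C : ℝ) (P : MvPolynomial σ K) : Prop := ∀ w, ‖coeff w P‖ ≤ C * ρ ^ w.degree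

omit [Fintype σ] in
theorem MBd.mul {ρ C C' : ℝ} (hρ : 0 ≤ ρ) {P Q : MvPolynomial σ K} (h : MBd ρ C P)
    (h' : MBd ρ C' Q) : MBd ρ (C * C') (P * Q) := by
  intro w
  have h0 : 0 ≤ C := by simpa using (norm_nonneg _).trans (h 0)
  have h0' : 0 ≤ C' := by simpa using (norm_nonneg _).trans (h' 0)
  rw [coeff_mul]
  refine IsUltrametricDist.norm_sum_le_of_forall_le_of_nonneg (by positivity) fun x hx => ?_
  rw [norm_mul, ← mem_antidiagonal.1 hx, map_add, pow_add, mul_mul_mul_comm]
  exact mul_le_mul (h _) (h' _) (norm_nonneg _) (by positivity)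

omit [Fintype σ] [IsUltrametricDist K] in
theorem mbd_monomial {ρ C : ℝ} (hρ : 0 ≤ ρ) (hC : 0 ≤ C) {d : σ →₀ ℕ} {c : K}
    (h : ‖c‖ ≤ C * ρ ^ d.degree) : MBd ρ C (monomial d c) := by
  intro w
  rw [coeff_monomial]
  split_ifs with e
  · rwa [← e]
  · rw [norm_zero]
    positivity

omit [Fintype σ] [DecidableEq σ] in
theorem mbd_sum {ι : Type*} {ρ C : ℝ} (hρ : 0 ≤ ρ) (hC : 0 ≤ C) (s : Finset ι)
    {f : ι → MvPolynomial σ K} (h : ∀ i ∈ s, MBd ρ C (f i)) : MBd ρ C (∑ i ∈ s, f i) := by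
  intro w
  rw [coeff_sum]
  exact IsUltrametricDist.norm_sum_le_of_forall_le_of_nonneg (by positivity) fun i hi => h i hi w

omit [Fintype σ] in
theorem mbd_prod {ι : Type*} {ρ : ℝ} (hρ : 0 ≤ ρ) (s : Finset ι)
    {f : ι → MvPolynomial σ K} (h : ∀ i ∈ s, MBd ρ 1 (f i)) : MBd ρ 1 (∏ i ∈ s, f i) :=
  prod_induction _ _ (fun _ _ h h' => by simpa using h.mul hρ h')
    (mbd_monomial (d := 0) hρ zero_le_one (by simp)) h

theorem mero_torus [CharZero K] {q : ℕ} (hq : 2 ≤ q) {ρ C : ℝ} (h0 : 0 < ρ) (h1 : ρ < 1)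
    (G : ℕ → MvPolynomial σ K) (hG : ∀ M, MBd ρ C (G M)) (I : Finset σ) (t : ℕ → K) (ht0 : t 0 = 0)
    (ht : ∀ n, Filter.Tendsto (fun M => Matrix.trace (dmat q (G M) I ^ (n + 1))) Filter.atTop
      (nhds (t (n + 1)))) : Mero (PowerSeries.mk t) := by
  rw [← neg_neg (PowerSeries.mk t)]
  refine (mero_of_limit (by simp [ht0]) (fun M => ld_det (dmat q (G M) I)) (fun n => ?_)
    fun ε hε => ?_).neg
  · simp only [map_neg, PowerSeries.coeff_mk]
    refine Filter.Tendsto.neg ?_
    cases n with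
    | zero => simp [ht0]
    | succ n => simpa using ht n
  · obtain ⟨C', hC'⟩ := exists_prod_bound (σ := σ) h0.le h1 C ε hε
    refine ⟨C', fun M => (det_bd _ (fun v => ρ ^ v.1.degree) (fun v => C * ρ ^ v.1.degree)
      (fun v => by positivity) (fun v w => ?_) hε).mono hε.le ?_⟩
    · have hC : 0 ≤ C := by simpa using (norm_nonneg _).trans (hG M 0)
      have := (hG M).mul h0.le (mbd_monomial (C := (ρ ^ w.1.degree)⁻¹) (d := w.1) (c := (1 : K))
        h0.le (by positivity) (by rw [inv_mul_cancel₀ (by positivity), norm_one])) (q • v.1)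
      refine this.trans ?_
      rw [map_nsmul, smul_eq_mul]
      calc _ ≤ C * (ρ ^ w.1.degree)⁻¹ * ρ ^ (2 * v.1.degree) :=
            mul_le_mul_of_nonneg_left
              (pow_le_pow_of_le_one h0.le h1.le (Nat.mul_le_mul_right _ hq)) (by positivity)
        _ = _ := by ring
    · rw [prod_coe_sort _ fun v : σ →₀ ℕ => max 1 (C * ρ ^ v.degree / ε)]
      exact hC' _

/-- The function attached to a splitting series `θ`, a monomial `a` and terms `c u x ^ d u`. -/
noncomputable def dfun {U : Type*} [Fintype U] (θ : PowerSeries K) (a : σ → ℕ) (c : U → K)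
    (d : U → σ → ℕ) (z : σ → K) : K :=
  (∏ i, z i ^ a i) * ∏ u, ev θ (c u * ∏ i, z i ^ d u i)

/-- Dwork's theorem: twisted exponential sums have a meromorphic `L`-function. -/
theorem mero_sum [CharZero K] [CompleteSpace K] {U : Type*} [Fintype U] {q : ℕ} (hq : 2 ≤ q)
    {θ : PowerSeries K} {r : ℝ} (hr0 : 0 < r) (hr1 : r < 1) (hθ : Bd r 1 θ) (a : σ → ℕ)
    (ha : a ≠ 0) (c : U → K) (hc : ∀ u, ‖c u‖ ≤ 1) (d : U → σ → ℕ) (S : ℕ → K) (hS0 : S 0 = 0)
    (hS : ∀ n : ℕ, ∃ (E : Type) (_ : Field E) (_ : Fintype E) (ω : E →*₀ K),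
      Function.Injective ω ∧ Fintype.card E = q ^ (n + 1) ∧ ((q : K) ^ (n + 1) - 1) * S (n + 1) =
        ∑ x : σ → E, ∏ j ∈ range (n + 1), dfun θ a c d fun i => ω (x i) ^ q ^ j) :
    Mero (PowerSeries.mk S) := by
  classical
  choose E _ _ ω hω hE hS using hS
  let a' : σ →₀ ℕ := Finsupp.equivFunOnFinite.symm a
  let d' : U → σ →₀ ℕ := fun u => Finsupp.equivFunOnFinite.symm (d u)
  let D := ∑ u, (d' u).degree + 1
  obtain ⟨ρ, h0, h1, hρ⟩ : ∃ ρ : ℝ, 0 < ρ ∧ ρ < 1 ∧ ρ ^ D = r :=
    ⟨r ^ (D : ℝ)⁻¹, by positivity, Real.rpow_lt_one hr0.le hr1 (by positivity),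
      Real.rpow_inv_natCast_pow hr0.le (by omega)⟩
  let G : ℕ → MvPolynomial σ K := fun M => monomial a' 1 *
    ∏ u, ∑ k ∈ range M, monomial (k • d' u) (PowerSeries.coeff k θ * c u ^ k)
  have hG : ∀ M, MBd ρ ((ρ ^ a'.degree)⁻¹ * 1) (G M) := fun M => by
    refine (mbd_monomial h0.le (by positivity) (by
      rw [inv_mul_cancel₀ (by positivity), norm_one])).mul h0.le (mbd_prod h0.le _ fun u _ =>
        mbd_sum h0.le zero_le_one _ fun k _ => mbd_monomial h0.le zero_le_one ?_)
    rw [norm_mul, norm_pow, map_nsmul, smul_eq_mul, one_mul]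
    refine (mul_le_of_le_one_right (norm_nonneg _) (pow_le_one₀ (norm_nonneg _) (hc u))).trans
      ((hθ k).trans ?_)
    rw [one_mul, ← hρ, ← pow_mul, mul_comm]
    refine pow_le_pow_of_le_one h0.le h1.le (Nat.mul_le_mul_left _ ?_)
    exact (single_le_sum (f := fun u => (d' u).degree) (fun _ _ => Nat.zero_le _)
      (mem_univ u)).trans (Nat.le_succ _)
  have hlim : ∀ z : σ → K, (∀ i, ‖z i‖ ≤ 1) →
      Filter.Tendsto (fun M => eval z (G M)) Filter.atTop (nhds (dfun θ a c d z)) := by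
    intro z hz
    have e : ∀ M, eval z (G M) = (∏ i, z i ^ a i) *
        ∏ u, ∑ k ∈ range M, PowerSeries.coeff k θ * (c u * ∏ i, z i ^ d u i) ^ k := by
      intro M
      simp only [G, map_mul, map_prod, map_sum, eval_monomial, Finsupp.prod_pow, one_mul, mul_pow,
        ← prod_pow, ← pow_mul, mul_assoc]
      simp [a', d', mul_comm]
    simp only [e]
    refine (tendsto_finsetProd _ fun u _ => tendsto_trunc hθ hr0.le hr1 ?_).const_mul _
    rw [norm_mul, norm_prod]
    exact mul_le_one₀ (hc u) (prod_nonneg fun _ _ => norm_nonneg _) (prod_le_one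
      (fun _ _ => norm_nonneg _) fun i _ => by
        rw [norm_pow]; exact pow_le_one₀ (norm_nonneg _) (hz i))
  have hq1 : ∀ n, (q : K) ^ (n + 1) - 1 ≠ 0 := fun n =>
    sub_ne_zero.2 (by exact_mod_cast (Nat.one_lt_pow n.succ_ne_zero hq).ne')
  let s : Finset σ → ℕ → K := fun I n => ∑ x ∈ pts (E n) I,
    ∏ j ∈ range (n + 1), dfun θ a c d fun i => ω n (x i) ^ q ^ j
  let t : Finset σ → ℕ → K := fun I n => n.casesOn 0 fun n => s I n / ((q : K) ^ (n + 1) - 1) ^ I.card
  have ht : ∀ I, Mero (PowerSeries.mk (t I)) := fun I => by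
    refine mero_torus hq h0 h1 G hG I _ rfl fun n => ?_
    have : Filter.Tendsto (fun M => ∑ x ∈ pts (E n) I, ∏ j ∈ range (n + 1),
        eval (fun i => ω n (x i) ^ q ^ j) (G M)) Filter.atTop (nhds (s I n)) :=
      tendsto_finsetSum _ fun x _ => tendsto_finsetProd _ fun j _ => hlim _ fun i => by
        rw [← map_pow]; exact norm_teich_le _ _
    refine (this.div_const _).congr fun M => ?_
    rw [sum_pts_iter (hω n) hq (hE n), mul_div_cancel_left₀ _ (pow_ne_zero _ (hq1 n))]
  have hs0 : ∀ n, s ∅ n = 0 := fun n => by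
    refine sum_eq_zero fun x hx => prod_eq_zero (mem_range.2 n.succ_pos) ?_
    obtain ⟨i, hi⟩ := Function.ne_iff.1 ha
    have : x i = 0 := by simpa [pts] using Fintype.mem_piFinset.1 hx i
    rw [dfun, prod_eq_zero (mem_univ i), zero_mul]
    simpa [this] using hi
  have := Mero.sum (univ.erase ∅) fun I _ => (ht I).mul_pow (q : K) (I.card - 1)
  refine (show _ = PowerSeries.mk S from ?_) ▸ this
  ext n
  simp only [map_sum, PowerSeries.coeff_mk]
  cases n with
  | zero => simp [t, hS0]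
  | succ n =>
    refine mul_left_cancel₀ (hq1 n) ?_
    rw [hS, sum_eq_sum_pts, ← add_sum_erase _ _ (mem_univ ∅), mul_sum]
    show _ = s ∅ n + _
    rw [hs0 n, zero_add]
    refine sum_congr rfl fun I hI => ?_
    have : I.card ≠ 0 := card_ne_zero.2 (nonempty_iff_ne_empty.2 (mem_erase.1 hI).1)
    rw [← mul_assoc, ← pow_succ', Nat.sub_add_cancel (by omega)]
    exact mul_div_cancel₀ _ (pow_ne_zero _ (hq1 n))

end Bound

end Pool.Agent.Lib.Dwork
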